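import Pool.Agent.Helper32.OR2.Sd3

/-!
Blocks of one sign (project OR2, MP_d4e3d0_lc).
-/

namespace Pool.Agent.Helper32.OR2

open Pool.Agent.Helper22.OR

private theorem Bl1_one {X Y : Letter 2} {μ ν : List (Letter 2)} (h : One X Y μ)
    (hs : ∀ a ∈ ν, a ∈ μ) : One X Y ν := by
  rcases h with h | h
  · exact Or.inl fun a ha => h a (hs a ha)
  · exact Or.inr fun a ha => h a (hs a ha)

private theorem Bl1_split {X Y : Letter 2} (L : List (List (Letter 2))) :
    ∀ a b : List (Letter 2), a ++ b = L.flatten → (∀ μ ∈ L, One X Y μ) →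
      Blk X Y L.length a ∧ Blk X Y L.length b := by
  induction L with
  | nil =>
    intro a b h _
    rw [List.flatten_nil, List.append_eq_nil_iff] at h
    obtain ⟨rfl, rfl⟩ := h
    exact ⟨⟨[], rfl, le_rfl, fun μ hμ => absurd hμ List.not_mem_nil⟩,
      ⟨[], rfl, le_rfl, fun μ hμ => absurd hμ List.not_mem_nil⟩⟩
  | cons μ L ih =>
    intro a b h hL
    rw [List.flatten_cons, List.append_eq_append_iff] at h
    rcases h with ⟨a', h1, h2⟩ | ⟨c', h1, h2⟩
    · refine ⟨⟨[a], by simp, by simp, ?_⟩, ⟨a' :: L, ?_, by simp, ?_⟩⟩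
      · intro ν hν
        rw [List.mem_singleton] at hν
        subst hν
        refine Bl1_one (hL μ List.mem_cons_self) fun x hx => ?_
        rw [h1]
        exact List.mem_append_left _ hx
      · rw [List.flatten_cons, h2]
      · intro ν hν
        rcases List.mem_cons.1 hν with rfl | hν
        · refine Bl1_one (hL μ List.mem_cons_self) fun x hx => ?_
          rw [h1]
          exact List.mem_append_right _ hx
        · exact hL ν (List.mem_cons_of_mem _ hν)
    · obtain ⟨⟨L1, e1, l1, o1⟩, ⟨L2, e2, l2, o2⟩⟩ :=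
        ih c' b h2.symm fun ν hν => hL ν (List.mem_cons_of_mem _ hν)
      refine ⟨⟨μ :: L1, ?_, by simpa using l1, ?_⟩, ⟨L2, e2, ?_, o2⟩⟩
      · rw [List.flatten_cons, h1, e1]
      · intro ν hν
        rcases List.mem_cons.1 hν with rfl | hν
        · exact hL _ List.mem_cons_self
        · exact o1 ν hν
      · rw [List.length_cons]
        omega

private theorem Bl1_app {X Y : Letter 2} {k : ℕ} {a b : List (Letter 2)}
    (h : Blk X Y k (a ++ b)) : Blk X Y k a ∧ Blk X Y k b := by
  obtain ⟨L, e, l, o⟩ := h
  obtain ⟨⟨L1, e1, l1, o1⟩, ⟨L2, e2, l2, o2⟩⟩ := Bl1_split L a b e o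
  exact ⟨⟨L1, e1, l1.trans l, o1⟩, ⟨L2, e2, l2.trans l, o2⟩⟩

private theorem Bl1_red (b : List (Letter 2)) : ∀ a : List (Letter 2), FreeGroup.IsReduced a →
    FreeGroup.IsReduced b → ∃ p c d q : List (Letter 2), a = p ++ c ∧ b = d ++ q ∧
      FreeGroup.reduce (a ++ b) = p ++ q := by
  induction b with
  | nil =>
    intro a ha _
    refine ⟨a, [], [], [], by simp, rfl, ?_⟩
    rw [List.append_nil]
    exact ha.reduce_eq
  | cons y b ih =>
    intro a ha hb
    rcases List.eq_nil_or_concat' a with rfl | ⟨a', x, rfl⟩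
    · refine ⟨[], [], [], y :: b, rfl, rfl, ?_⟩
      rw [List.nil_append]
      exact hb.reduce_eq
    · by_cases hxy : x.1 = y.1 → x.2 = y.2
      · refine ⟨a' ++ [x], [], [], y :: b, by simp, rfl, ?_⟩
        refine FreeGroup.IsReduced.reduce_eq ?_
        unfold FreeGroup.IsReduced at *
        rw [List.isChain_append]
        refine ⟨ha, hb, ?_⟩
        intro u hu v hv
        rw [List.getLast?_concat, Option.mem_some_iff] at hu
        rw [List.head?_cons, Option.mem_some_iff] at hv
        subst hu
        subst hv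
        exact hxy
      · push Not at hxy
        obtain ⟨h1, h2⟩ := hxy
        have ha' : FreeGroup.IsReduced a' := by
          unfold FreeGroup.IsReduced at *
          exact (List.isChain_append.1 ha).1
        have hb' : FreeGroup.IsReduced b := by
          unfold FreeGroup.IsReduced at *
          exact hb.of_cons
        obtain ⟨p, c, d, q, e1, e2, e3⟩ := ih a' ha' hb'
        refine ⟨p, c ++ [x], y :: d, q, ?_, ?_, ?_⟩
        · rw [e1, List.append_assoc]
        · rw [e2, List.cons_append]
        · have hy : y = (x.1, !x.2) := by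
            refine Prod.ext h1.symm ?_
            revert h2
            cases x.2 <;> cases y.2 <;> simp
          have hs : FreeGroup.Red.Step (a' ++ [x] ++ y :: b) (a' ++ b) := by
            rw [hy, List.append_assoc, List.singleton_append]
            exact FreeGroup.Red.Step.not
          rw [FreeGroup.reduce.Step.eq hs, e3]

/-- Parts of concatenations. -/
theorem blk_part {X Y : Letter 2} {k : ℕ} {x ρ y : List (Letter 2)}
    (h : Blk X Y k (x ++ ρ ++ y)) : Blk X Y k ρ :=
  (Bl1_app (Bl1_app h).1).2

/-- The word of a product consists of an initial part of the first word and a final part of the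
second word. -/
theorem blk_mul {X Y : Letter 2} {k : ℕ} {z y : FreeGroup (Fin 2)} (h : Blk X Y k z.toWord)
    (hy : One X Y y.toWord) : Blk X Y (k + 1) (z * y).toWord := by
  obtain ⟨p, c, d, q, e1, e2, e3⟩ :=
    Bl1_red y.toWord z.toWord FreeGroup.isReduced_toWord FreeGroup.isReduced_toWord
  rw [FreeGroup.toWord_mul, e3]
  rw [e1] at h
  obtain ⟨L, eL, lL, oL⟩ := (Bl1_app h).1
  refine ⟨L ++ [q], ?_, ?_, ?_⟩
  · rw [List.flatten_append, ← eL]
    simp
  · rw [List.length_append, List.length_singleton]
    omega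
  · intro μ hμ
    rcases List.mem_append.1 hμ with hμ | hμ
    · exact oL μ hμ
    · rw [List.mem_singleton] at hμ
      subst hμ
      refine Bl1_one hy fun x hx => ?_
      rw [e2]
      exact List.mem_append_right _ hx

end Pool.Agent.Helper32.OR2
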