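import Pool.Agent.Helper32.OR2.Bl1

/-!
Blocks of one sign (project OR2, MP_d4e3d0_lc).
-/

namespace Pool.Agent.Helper32.OR2

open Pool.Agent.Helper22.OR

private theorem Bl1b_mem_invRev {L : List (Letter 2)} {a : Letter 2}
    (h : a ∈ FreeGroup.invRev L) : ∃ b ∈ L, a = linv b := by
  unfold FreeGroup.invRev at h
  rw [List.mem_reverse, List.mem_map] at h
  obtain ⟨b, hb, rfl⟩ := h
  exact ⟨b, hb, rfl⟩

theorem one_inv {X Y : Letter 2} {P : FreeGroup (Fin 2)} (hP : One X Y P.toWord) :
    One X Y (P⁻¹).toWord := by
  rw [FreeGroup.toWord_inv]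
  rcases hP with h | h
  · right
    intro a ha
    obtain ⟨b, hb, rfl⟩ := Bl1b_mem_invRev ha
    rcases h b hb with rfl | rfl
    · exact Or.inl rfl
    · exact Or.inr rfl
  · left
    intro a ha
    obtain ⟨b, hb, rfl⟩ := Bl1b_mem_invRev ha
    rcases h b hb with rfl | rfl
    · left
      simp [linv]
    · right
      simp [linv]

private theorem Bl1b_mem_pow {P : FreeGroup (Fin 2)} (n : ℕ) {a : Letter 2}
    (h : a ∈ (P ^ n).toWord) : a ∈ P.toWord := by
  induction n with
  | zero =>
    rw [pow_zero, FreeGroup.toWord_one] at h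
    simp at h
  | succ n ih =>
    rw [pow_succ] at h
    have h1 := (FreeGroup.toWord_mul_sublist (P ^ n) P).subset h
    rcases List.mem_append.mp h1 with h2 | h2
    · exact ih h2
    · exact h2

/-- Powers of an element whose word has one sign (`one_reduced`: products are concatenations). -/
theorem one_zpow {X Y : Letter 2} (hXY : X.1 ≠ Y.1) {P : FreeGroup (Fin 2)}
    (hP : One X Y P.toWord) (i : ℤ) : One X Y (P ^ i).toWord := by
  have hnat : ∀ n : ℕ, One X Y (P ^ n).toWord := by
    intro n
    rcases hP with h | h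
    · exact Or.inl fun a ha => h a (Bl1b_mem_pow n ha)
    · exact Or.inr fun a ha => h a (Bl1b_mem_pow n ha)
  rcases Int.eq_nat_or_neg i with ⟨n, rfl | rfl⟩
  · rw [zpow_natCast]
    exact hnat n
  · rw [zpow_neg, zpow_natCast]
    exact one_inv (hnat n)

/-- The value of a word of length `k` in two elements whose words have one sign is a concatenation of
`k` blocks (induction on the word from the right, `blk_mul`, `one_inv`). -/
theorem blk_value {X Y : Letter 2} {P Q : FreeGroup (Fin 2)} (hP : One X Y P.toWord)
    (hQ : One X Y Q.toWord) (w : FreeGroup (Fin 2)) :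
    Blk X Y w.norm (FreeGroup.lift ![P, Q] w).toWord := by
  have key : ∀ L : List (Letter 2),
      Blk X Y L.length (FreeGroup.lift ![P, Q] (FreeGroup.mk L)).toWord := by
    intro L
    induction L using List.reverseRecOn with
    | nil =>
      refine ⟨[], ?_, le_refl _, by simp⟩
      have h1 : (FreeGroup.mk ([] : List (Letter 2))) = 1 := rfl
      rw [h1, map_one, FreeGroup.toWord_one]
      rfl
    | append_singleton l a ih =>
      rw [← FreeGroup.mul_mk, map_mul, List.length_append, List.length_singleton]
      refine blk_mul ih ?_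
      obtain ⟨i, e⟩ := a
      have h1 : ∀ j : Fin 2, One X Y ((![P, Q] : Fin 2 → FreeGroup (Fin 2)) j).toWord := by
        intro j
        fin_cases j
        · exact hP
        · exact hQ
      have h2 : FreeGroup.lift ![P, Q] (FreeGroup.mk [(i, e)]) =
          cond e ((![P, Q] : Fin 2 → FreeGroup (Fin 2)) i)
            ((![P, Q] : Fin 2 → FreeGroup (Fin 2)) i)⁻¹ := by
        rw [FreeGroup.lift_mk]
        simp
      rw [h2]
      cases e
      · exact one_inv (h1 i)
      · exact h1 i
  have h3 := key w.toWord
  rw [FreeGroup.mk_toWord] at h3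
  exact h3

end Pool.Agent.Helper32.OR2
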