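import Pool.Agent.Helper32.OR2.StdDefs

/-!
Long blocks of one sign (project OR2, MP_d4e3d0_lc).
-/

namespace Pool.Agent.Helper32.OR2

open Pool.Agent.Helper22.OR

private theorem Bl2_max (L : List (List (Letter 2))) (hL : L ≠ []) :
    ∃ μ ∈ L, L.flatten.length ≤ L.length * μ.length := by
  induction L with
  | nil => exact absurd rfl hL
  | cons a L ih =>
    rcases eq_or_ne L [] with h | h
    · subst h
      exact ⟨a, by simp, by simp⟩
    · obtain ⟨μ, hμ, h1⟩ := ih h
      rcases le_total a.length μ.length with h2 | h2
      · refine ⟨μ, List.mem_cons_of_mem _ hμ, ?_⟩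
        rw [List.flatten_cons, List.length_append, List.length_cons, Nat.succ_mul]
        omega
      · refine ⟨a, List.mem_cons_self, ?_⟩
        rw [List.flatten_cons, List.length_append, List.length_cons, Nat.succ_mul]
        have h3 := Nat.mul_le_mul_left L.length h2
        omega

/-- One of the blocks is long. -/
theorem blk_long {X Y : Letter 2} {k : ℕ} {ρ : List (Letter 2)} (h : Blk X Y k ρ) :
    ∃ x μ y : List (Letter 2), ρ = x ++ μ ++ y ∧ One X Y μ ∧ ρ.length ≤ k * μ.length := by
  obtain ⟨L, rfl, hk, hL⟩ := h
  rcases eq_or_ne L [] with h | h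
  · subst h
    exact ⟨[], [], [], by simp, Or.inl (by simp), by simp⟩
  · obtain ⟨μ, hμ, h1⟩ := Bl2_max L h
    obtain ⟨L1, L2, h2⟩ := List.append_of_mem hμ
    refine ⟨L1.flatten, μ, L2.flatten, ?_, hL μ hμ, h1.trans (Nat.mul_le_mul_right _ hk)⟩
    rw [h2]
    simp

private theorem Bl2_two {A B : Letter 2} {ρ x μ y : List (Letter 2)} {s : ℕ} (hs : 1 ≤ s)
    (hρ : ρ = x ++ μ ++ y) (h : ∀ a ∈ μ, a = A ∨ a = B) :
    μ.length ≤ s + 2 ^ s + (badw ρ s).card := by
  classical
  by_cases hl : μ.length < s
  · exact hl.le.trans ((Nat.le_add_right s (2 ^ s)).trans (Nat.le_add_right _ _))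
  push Not at hl
  have hlen : ρ.length = x.length + μ.length + y.length := by
    rw [hρ, List.length_append, List.length_append]
  -- windows inside `μ`
  have hw : ∀ i, i + s ≤ μ.length → ∀ t, t < s → ∃ (h1 : t < (win ρ s (x.length + i)).length)
      (h2 : i + t < μ.length), (win ρ s (x.length + i))[t] = μ[i + t] := by
    intro i hi t ht
    have h1 : t < (win ρ s (x.length + i)).length := by
      simp only [win, List.length_take, List.length_drop]
      omega
    refine ⟨h1, by omega, ?_⟩
    simp only [win, List.getElem_take, List.getElem_drop, hρ]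
    rw [List.getElem_append_left (by simp; omega), List.getElem_append_right (by omega)]
    congr 1
    omega
  let S : Finset ℕ := (Finset.range (μ.length + 1 - s)).filter (fun i => x.length + i ∉ badw ρ s)
  let T : Finset ℕ := (Finset.range (μ.length + 1 - s)).filter (fun i => x.length + i ∈ badw ρ s)
  have hST : S.card + T.card = μ.length + 1 - s := by
    have := Finset.card_filter_add_card_filter_not (s := Finset.range (μ.length + 1 - s))
      (fun i => x.length + i ∈ badw ρ s)
    rw [Finset.card_range] at this
    simp only [S, T]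
    omega
  have hT : T.card ≤ (badw ρ s).card := by
    refine Finset.card_le_card_of_injOn (fun i => x.length + i) ?_ ?_
    · intro i hi
      exact (Finset.mem_filter.1 hi).2
    · intro i _ j _ hij
      simpa using hij
  have hS : S.card ≤ 2 ^ s := by
    have h1 : (Finset.univ : Finset (Fin s → Bool)).card = 2 ^ s := by
      rw [Finset.card_univ, Fintype.card_fun, Fintype.card_bool, Fintype.card_fin]
    rw [← h1]
    refine Finset.card_le_card_of_injOn
      (fun i => fun t : Fin s => decide ((win ρ s (x.length + i))[(t : ℕ)]? = some A))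
      (fun _ _ => Finset.mem_coe.2 (Finset.mem_univ _)) ?_
    intro i hi j hj hij
    have hi1 := Finset.mem_filter.1 hi
    have hj1 := Finset.mem_filter.1 hj
    have hi2 := Finset.mem_range.1 hi1.1
    have hj2 := Finset.mem_range.1 hj1.1
    by_contra hne
    apply hi1.2
    have heq : win ρ s (x.length + j) = win ρ s (x.length + i) := by
      apply List.ext_getElem?
      intro t
      by_cases ht : t < s
      · obtain ⟨a1, a2, a3⟩ := hw i (by omega) t ht
        obtain ⟨b1, b2, b3⟩ := hw j (by omega) t ht
        have h2 := congrFun hij ⟨t, ht⟩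
        simp only [decide_eq_decide] at h2
        rw [List.getElem?_eq_getElem a1, List.getElem?_eq_getElem b1] at h2 ⊢
        rw [a3, b3] at h2 ⊢
        simp only [Option.some.injEq] at h2 ⊢
        rcases h _ (List.getElem_mem a2) with h3 | h3 <;> rcases h _ (List.getElem_mem b2) with h4 | h4
        · rw [h3, h4]
        · rw [h3, h2.1 h3]
        · rw [h4, h2.2 h4]
        · rw [h3, h4]
      · have e1 : (win ρ s (x.length + j)).length ≤ t := by
          simp only [win, List.length_take, List.length_drop]
          omega
        have e2 : (win ρ s (x.length + i)).length ≤ t := by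
          simp only [win, List.length_take, List.length_drop]
          omega
        rw [List.getElem?_eq_none e1, List.getElem?_eq_none e2]
    simp only [badw, Finset.mem_filter]
    exact ⟨Finset.mem_range.2 (by omega), Or.inl
      ⟨x.length + j, Finset.mem_range.2 (by omega), by omega, heq⟩⟩
  omega

/-- A block of one sign in `ρ` is short: the windows of length `s` inside it which are not bad for `ρ`
have different words, and there are at most `2 ^ s` words of length `s` with letters in `{X, Y}` (or
in `{X⁻¹, Y⁻¹}`). So `|μ| + 1 - s ≤ 2 ^ s + (badw ρ s).card`. -/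
theorem one_short {X Y : Letter 2} {ρ x μ y : List (Letter 2)} {s : ℕ} (hs : 1 ≤ s)
    (hρ : ρ = x ++ μ ++ y) (h : One X Y μ) : μ.length ≤ s + 2 ^ s + (badw ρ s).card := by
  rcases h with h | h
  · exact Bl2_two hs hρ h
  · exact Bl2_two hs hρ h

end Pool.Agent.Helper32.OR2
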