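import Pool.Agent.Helper32.OR2.Di1
import Pool.Agent.Helper32.OR.Rk7

/-!
Two generators: a pair of elements generates a free group, or it lifts to a generating pair of the
free group (project OR2, MP_d4e3d0_lc).
-/

namespace Pool.Agent.Helper32.OR2

open Pool.Agent.Helper22.OR Pool.Agent.Helper22.OR.Gr

variable {G : Type} [Group G]

/-- Take a minimal marked graph (`exists_mmini`). If the lifts `h` generate the free group we have
the second case. Otherwise `lift f` is injective on `closure (range h)` (`lift_inj2`) and maps it onto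
`closure (range g)`; and `closure (range h)` is free of rank at most 2
(`Pool.Agent.Helper32.OR.free4_free 2` with `k = 2`, `Gen 2`). -/
theorem dichotomy {f : Fin 2 → G} {L e s b ℓ : ℕ} {RR : Set (List (Letter 2))}
    (hy : Hyp2 f L e s b ℓ RR) (g : Fin 2 → G) :
    (∃ j, j ≤ 2 ∧ Nonempty (FreeGroup (Fin j) ≃* ↥(Subgroup.closure (Set.range g)))) ∨
    ∃ h : Fin 2 → FreeGroup (Fin 2), Subgroup.closure (Set.range h) = ⊤ ∧
      ∀ i, FreeGroup.lift f (h i) = g i := by
  obtain ⟨Γ, h, hM⟩ := exists_mmini f hy.hyp.surj g
  by_cases hH : Subgroup.closure (Set.range h) = ⊤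
  · exact Or.inr ⟨h, hH, hM.lift⟩
  · left
    obtain ⟨j, hj, ⟨e1⟩⟩ := Pool.Agent.Helper32.OR.free4_free 2 2 (by norm_num)
      (Subgroup.closure (Set.range h)) ⟨h, rfl⟩
    have hinj : Function.Injective
        ((FreeGroup.lift f).subgroupMap (Subgroup.closure (Set.range h))) := by
      rw [injective_iff_map_eq_one]
      rintro ⟨w, hw⟩ h1
      have h2 : FreeGroup.lift f w = 1 := congrArg Subtype.val h1
      exact Subtype.ext (lift_inj2 hy hM hH w hw h2)
    have hmap : (Subgroup.closure (Set.range h)).map (FreeGroup.lift f) =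
        Subgroup.closure (Set.range g) := by
      rw [MonoidHom.map_closure, ← Set.range_comp]
      exact congrArg (fun k => Subgroup.closure (Set.range k)) (funext fun i => hM.lift i)
    exact ⟨j, hj, ⟨e1.trans ((MulEquiv.ofBijective _
      ⟨hinj, MonoidHom.subgroupMap_surjective _ _⟩).trans (MulEquiv.subgroupCongr hmap))⟩⟩

end Pool.Agent.Helper32.OR2
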