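import Pool.Agent.Helper32.OR2.Ni1

/-!
Generating pairs of the free group of rank two (project OR2, MP_d4e3d0_lc).
-/

namespace Pool.Agent.Helper32.OR2

open Pool.Agent.Helper22.OR

private theorem Ni2_lift {u v : FreeGroup (Fin 2)} (x : FreeGroup (Fin 2)) :
    FreeGroup.lift ![u, v] x = wv ![u, v] x.toWord := by
  conv_lhs => rw [← FreeGroup.mk_toWord (x := x)]
  rw [FreeGroup.lift_mk, wv]
  rfl

private theorem Ni2_range {u v : FreeGroup (Fin 2)} (z : FreeGroup (Fin 2))
    (hz : z ∈ Subgroup.closure {u, v}) : ∃ x : FreeGroup (Fin 2), z = wv ![u, v] x.toWord := by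
  have h1 : Subgroup.closure {u, v} ≤ (FreeGroup.lift ![u, v]).range := by
    rw [Subgroup.closure_le]
    rintro y (rfl | rfl)
    · exact ⟨FreeGroup.of 0, by simp⟩
    · exact ⟨FreeGroup.of 1, by simp⟩
  obtain ⟨x, hx⟩ := h1 hz
  exact ⟨x, by rw [← Ni2_lift, hx]⟩

/-- An element of length 1 of the subgroup generated by `u`, `v` is one of `u, u⁻¹, v, v⁻¹`: write it
as `wv ![u, v] w` with a reduced nonempty word `w` (`FreeGroup.lift ![u, v]`, `toWord`); by `mid_word` a
word `w = l ++ [c]` with `l ≠ []` has a value of length at least 2. -/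
theorem mid_letter {u v : FreeGroup (Fin 2)} (h : Mid u v) (z : FreeGroup (Fin 2))
    (hz : z ∈ Subgroup.closure {u, v}) (h1 : z.norm = 1) : ∃ c : Letter 2, z = lv ![u, v] c := by
  obtain ⟨x, hx⟩ := Ni2_range z hz
  obtain ⟨α, m, β, hm, ha, hb⟩ := h
  rcases List.eq_nil_or_concat x.toWord with h2 | ⟨l, c, h2⟩
  · rw [h2] at hx
    have h3 : z = 1 := hx
    rw [h3, FreeGroup.norm_one] at h1
    exact absurd h1 (by norm_num)
  · have h4 : FreeGroup.IsReduced (l ++ [c]) := by
      rw [← List.concat_eq_append, ← h2]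
      exact FreeGroup.isReduced_toWord
    obtain ⟨δ, h5, h6⟩ := mid_word hm ha hb l c h4
    rw [h2, List.concat_eq_append] at hx
    rw [← hx] at h5
    have h7 : (δ ++ m c ++ β c).length = 1 := by
      rw [← h5]
      exact h1
    rw [List.length_append, List.length_append] at h7
    have h8 : 0 < (m c).length := List.length_pos_iff.2 (hm c)
    have h9 : l.length = 0 := by omega
    have h10 : l = [] := List.length_eq_zero_iff.1 h9
    refine ⟨c, ?_⟩
    rw [hx, h10, wv]
    simp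

private theorem Ni2_sign {S : FreeGroup (Fin 2) → FreeGroup (Fin 2) → Prop} (hS : Closed S)
    (u v : FreeGroup (Fin 2)) (hu : u = FreeGroup.of 0 ∨ u = (FreeGroup.of 0)⁻¹)
    (hv : v = FreeGroup.of 1 ∨ v = (FreeGroup.of 1)⁻¹) : S u v := by
  have h1 : S u (FreeGroup.of 1) := by
    rcases hu with rfl | rfl
    · exact hS.base
    · exact hS.inv _ _ hS.base
  rcases hv with rfl | rfl
  · exact h1
  · exact hS.swap _ _ (hS.inv _ _ (hS.swap _ _ h1))

private theorem Ni2_ne (a b : Bool) :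
    (cond a (FreeGroup.of (0 : Fin 2)) (FreeGroup.of 0)⁻¹) ≠
      cond b (FreeGroup.of 1) (FreeGroup.of 1)⁻¹ := by
  intro h
  have h1 := congrArg FreeGroup.toWord h
  cases a <;> cases b <;> revert h1 <;> decide

private theorem Ni2_flip {g x : FreeGroup (Fin 2)} {b : Bool} (h : x = cond b g g⁻¹) :
    g = cond b x x⁻¹ := by
  cases b
  · change x = g⁻¹ at h
    change g = x⁻¹
    rw [h, inv_inv]
  · exact h.symm

private theorem Ni2_or {g x : FreeGroup (Fin 2)} {b : Bool} (h : g = cond b x x⁻¹) :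
    g = x ∨ g = x⁻¹ := by
  cases b
  · exact Or.inr h
  · exact Or.inl h

/-- If `Mid u v` and `u, v` generate then both `of 0` and `of 1` are among `u, u⁻¹, v, v⁻¹`
(`mid_letter`), so `(u, v)` is obtained from `(of 0, of 1)` by inversions and perhaps a swap. -/
theorem mid_closed {S : FreeGroup (Fin 2) → FreeGroup (Fin 2) → Prop} (hS : Closed S)
    {u v : FreeGroup (Fin 2)} (h : Mid u v) (hg : Subgroup.closure {u, v} = ⊤) : S u v := by
  have h0 : ∀ i : Fin 2, ∃ c : Letter 2, FreeGroup.of i = lv ![u, v] c := fun i =>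
    mid_letter h _ (by rw [hg]; exact Subgroup.mem_top _) (FreeGroup.norm_of i)
  obtain ⟨⟨i, a⟩, hc⟩ := h0 0
  obtain ⟨⟨j, b⟩, hd⟩ := h0 1
  have hc' : FreeGroup.of 0 = cond a (![u, v] i) (![u, v] i)⁻¹ := hc
  have hd' : FreeGroup.of 1 = cond b (![u, v] j) (![u, v] j)⁻¹ := hd
  have hc1 := Ni2_flip hc'
  have hd1 := Ni2_flip hd'
  have hij : i ≠ j := by
    intro h1
    rw [h1, hd1] at hc1
    exact Ni2_ne a b hc1.symm
  have hi : i = 0 ∨ i = 1 := by omega
  have hj : j = 0 ∨ j = 1 := by omega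
  rcases hi with rfl | rfl
  · rcases hj with rfl | rfl
    · exact absurd rfl hij
    · exact Ni2_sign hS u v (Ni2_or hc1) (Ni2_or hd1)
  · rcases hj with rfl | rfl
    · exact hS.swap _ _ (Ni2_sign hS v u (Ni2_or hc1) (Ni2_or hd1))
    · exact absurd rfl hij

end Pool.Agent.Helper32.OR2
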