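import Pool.Agent.Helper32.OR2.Ni7
import Pool.Agent.Helper32.OR2.Ni2

/-!
Generating pairs of the free group of rank two: all of them are obtained from the standard pair by the
elementary moves and conjugation (project OR2, MP_d4e3d0_lc).
-/

namespace Pool.Agent.Helper32.OR2

open Pool.Agent.Helper22.OR

variable {S : FreeGroup (Fin 2) → FreeGroup (Fin 2) → Prop}

/-- the length of the longest common initial part -/
private def Ni8_cpl : List (Letter 2) → List (Letter 2) → ℕ
  | a :: l, b :: m => if a = b then Ni8_cpl l m + 1 else 0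
  | _, _ => 0

private theorem Ni8_cpl_append (c a b : List (Letter 2)) :
    Ni8_cpl (c ++ a) (c ++ b) = c.length + Ni8_cpl a b := by
  induction c with
  | nil => simp
  | cons x c ih =>
    simp only [List.cons_append, Ni8_cpl, if_true, List.length_cons, ih]
    omega

private theorem Ni8_cpl_zero {a b : List (Letter 2)} (h : a.head? ≠ b.head?) :
    Ni8_cpl a b = 0 := by
  cases a with
  | nil => rfl
  | cons x a =>
    cases b with
    | nil => rfl
    | cons y b =>
      have h1 : x ≠ y := by
        rintro rfl
        exact h rfl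
      simp only [Ni8_cpl, if_neg h1]

private theorem Ni8_step (hS : Closed S)
    (hcyc : ∀ u v, Least S u v → hd u ≠ hd u⁻¹ ∧ hd v ≠ hd v⁻¹) (k : ℕ) :
    ∀ u v : FreeGroup (Fin 2), Least S u v → hd u = hd v →
      u.norm + v.norm ≤ Ni8_cpl u.toWord v.toWord + k → ∃ u' v', Least S u' v' ∧ Mid u' v' := by
  induction k with
  | zero =>
    intro u v h huv hk
    obtain ⟨c, u', v', hu, hv, -, hu', hv', hne⟩ := h.common hS huv
    exfalso
    rw [hu, hv, Ni8_cpl_append, Ni8_cpl_zero hne] at hk
    have h1 : u.norm = c.length + u'.length := by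
      unfold FreeGroup.norm
      rw [hu, List.length_append]
    have h2 : 1 ≤ u'.length := List.length_pos_iff.2 hu'
    omega
  | succ k ih =>
    intro u v h huv hk
    obtain ⟨c, u', v', hu, hv, hc, hu', hv', hne⟩ := h.common hS huv
    obtain ⟨hcu, hcv⟩ := hcyc u v h
    by_cases hend : hd u⁻¹ = hd v⁻¹
    · obtain ⟨x, hx⟩ : ∃ x, hd u⁻¹ = some x := by
        have hu1 : u⁻¹ ≠ 1 := inv_ne_one.2 (gen_ne_one h.gen).1
        have hw : u⁻¹.toWord ≠ [] := fun h0 => hu1 (FreeGroup.toWord_eq_nil_iff.1 h0)
        obtain ⟨a, l, hal⟩ := List.exists_cons_of_ne_nil hw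
        refine ⟨a, ?_⟩
        unfold hd
        rw [hal]
        rfl
      have hxv : hd v⁻¹ = some x := by rw [← hend, hx]
      have hux : hd u ≠ some x := by rw [← hx]; exact hcu
      have hvx : hd v ≠ some x := by rw [← hxv]; exact hcv
      have nu := norm_conj_one (Or.inr ⟨hux, hx⟩)
      have nv := norm_conj_one (Or.inr ⟨hvx, hxv⟩)
      have tu := toWord_conj_end hux hx
      have tv := toWord_conj_end hvx hxv
      have hl := (h.moves hS).2.2.2 (FreeGroup.mk [x])⁻¹
      rw [inv_inv] at hl
      have hl' := hl (by rw [nu, nv])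
      have eu : (u.toWord).dropLast = c ++ u'.dropLast := by
        rw [hu, List.dropLast_append_of_ne_nil hu']
      have ev : (v.toWord).dropLast = c ++ v'.dropLast := by
        rw [hv, List.dropLast_append_of_ne_nil hv']
      rw [eu] at tu
      rw [ev] at tv
      refine ih _ _ hl' ?_ ?_
      · unfold hd
        rw [tu, tv]
        rfl
      · rw [nu, nv, tu, tv]
        have e1 : Ni8_cpl (linv x :: (c ++ u'.dropLast)) (linv x :: (c ++ v'.dropLast)) =
            c.length + Ni8_cpl u'.dropLast v'.dropLast + 1 := by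
          rw [← Ni8_cpl_append]
          simp only [Ni8_cpl, if_true]
        rw [e1]
        rw [hu, hv, Ni8_cpl_append, Ni8_cpl_zero hne] at hk
        omega
    · exact ⟨u, v, h, mid_theta hu hv hc hu' hv' hne (Ne.symm hcu) (Ne.symm hcv) hend⟩

/-- Suppose that in all least counterexamples both elements are cyclically reduced (`hcyc`) and that
there is one. Then some least counterexample satisfies `Mid`. If in all least counterexamples
`hd u ≠ hd v`, then (inverting `u` or `v`, `Least.moves`) all four first letters are different and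
`mid_cross` applies. Otherwise choose one with `hd u = hd v` and the longest common initial part
of the words (it is bounded by `u.norm`, which is at most the fixed total length). Then
`hd u⁻¹ ≠ hd v⁻¹`: otherwise, `x` being this letter, conjugation by `x⁻¹` preserves both lengths and
makes the common initial part longer by one (`toWord_conj_end`; `hd u ≠ hd u⁻¹ = some x` by `hcyc`),
and it gives again a least counterexample (`Least.moves`). So `Least.common` and `mid_theta` apply. -/
theorem exists_mid (hS : Closed S) (hcyc : ∀ u v, Least S u v → hd u ≠ hd u⁻¹ ∧ hd v ≠ hd v⁻¹)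
    {u v : FreeGroup (Fin 2)} (h : Least S u v) : ∃ u' v', Least S u' v' ∧ Mid u' v' := by
  by_cases hex : ∃ u' v', Least S u' v' ∧ hd u' = hd v'
  · obtain ⟨u', v', h', huv⟩ := hex
    exact Ni8_step hS hcyc (u'.norm + v'.norm) u' v' h' huv (by omega)
  · have hne : ∀ u' v', Least S u' v' → hd u' ≠ hd v' := fun u' v' h' h'' =>
      hex ⟨u', v', h', h''⟩
    obtain ⟨m1, m2, -, -⟩ := h.moves hS
    obtain ⟨-, m3, -, -⟩ := m1.moves hS
    obtain ⟨hu, hv⟩ := gen_ne_one h.gen
    exact ⟨u, v, h, mid_cross hu hv (hne _ _ h) (hne _ _ m2) (hne _ _ m1) (hne _ _ m3)⟩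

/-- Nielsen: a property which is preserved by the moves holds for all generating pairs. Otherwise take
a least counterexample; `Least.mid_of_noncyc` (also for the swapped pair) or `exists_mid` give one
with `Mid`, which contradicts `mid_closed`. -/
theorem nielsen (hS : Closed S) (u v : FreeGroup (Fin 2)) (h : Subgroup.closure {u, v} = ⊤) :
    S u v := by
  by_contra hno
  -- a least counterexample
  have hex : ∃ n : ℕ, ∃ u' v' : FreeGroup (Fin 2), Subgroup.closure {u', v'} = ⊤ ∧ ¬ S u' v' ∧
      u'.norm + v'.norm = n := ⟨_, u, v, h, hno, rfl⟩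
  classical
  obtain ⟨u', v', hg', hno', hn'⟩ := Nat.find_spec hex
  have hleast : Least S u' v' := by
    refine ⟨hg', hno', fun a b hab hnab => ?_⟩
    rw [hn']
    exact Nat.find_min' hex ⟨a, b, hab, hnab, rfl⟩
  by_cases hcyc : ∀ a b, Least S a b → hd a ≠ hd a⁻¹ ∧ hd b ≠ hd b⁻¹
  · obtain ⟨a, b, hab, hmid⟩ := exists_mid hS hcyc hleast
    exact hab.no (mid_closed hS hmid hab.gen)
  · push Not at hcyc
    obtain ⟨a, b, hab, hcond⟩ := hcyc
    by_cases ha : hd a = hd a⁻¹
    · have hswap := (hab.moves hS).2.2.1
      exact hswap.no (mid_closed hS (hswap.mid_of_noncyc hS ha) hswap.gen)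
    · have hb := hcond ha
      exact hab.no (mid_closed hS (hab.mid_of_noncyc hS hb) hab.gen)

end Pool.Agent.Helper32.OR2
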