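import Pool.Agent.Helper32.OR2.Sd2
import Pool.Agent.Helper32.OR2.Bl1b
import Pool.Agent.Helper32.OR2.Bl2
import Pool.Agent.Helper32.OR2.Ni8
import Pool.Agent.Helper32.OR2.Di2

/-!
Generating pairs of the free group satisfy no short relation in the one-relator group (project OR2,
MP_d4e3d0_lc).
-/

namespace Pool.Agent.Helper32.OR2

open Pool.Agent.Helper22.OR

variable {G : Type} [Group G]

/-- A generating pair is conjugate to a pair `P`, `Q` whose words have one sign (`nielsen sgn_closed`,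
`sgn_one`), and `FreeGroup.lift ![P, Q]` is injective (it is surjective; `hopfian`). -/
theorem basis_one {h : Fin 2 → FreeGroup (Fin 2)} (hh : Subgroup.closure (Set.range h) = ⊤) :
    ∃ (X Y : Letter 2) (g P Q : FreeGroup (Fin 2)), X.1 ≠ Y.1 ∧ h 0 = g * P * g⁻¹ ∧
      h 1 = g * Q * g⁻¹ ∧ One X Y P.toWord ∧ One X Y Q.toWord ∧
      Function.Injective (FreeGroup.lift ![P, Q]) := by
  have hr : Set.range h = {h 0, h 1} := by
    ext z
    simp only [Set.mem_range, Fin.exists_fin_two, Set.mem_insert_iff, Set.mem_singleton_iff]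
    exact ⟨fun hz => hz.imp Eq.symm Eq.symm, fun hz => hz.imp Eq.symm Eq.symm⟩
  have hS := nielsen sgn_closed (h 0) (h 1) (by rw [← hr]; exact hh)
  obtain ⟨X, Y, g, P, Q, hXY, e0, e1, oP, oQ⟩ := sgn_one hS
  refine ⟨X, Y, g, P, Q, hXY, e0, e1, oP, oQ, hopfian _ ?_⟩
  have key : (MulAut.conj g).toMonoidHom.comp (FreeGroup.lift ![P, Q]) = FreeGroup.lift h := by
    apply FreeGroup.ext_hom
    intro i
    fin_cases i
    · simp [e0]
    · simp [e1]
  intro z
  have hz : g * z * g⁻¹ ∈ (FreeGroup.lift h).range := by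
    rw [FreeGroup.range_lift_eq_closure, hh]
    exact Subgroup.mem_top _
  obtain ⟨w, hw⟩ := hz
  refine ⟨w, ?_⟩
  rw [← key] at hw
  have h2 : g * FreeGroup.lift ![P, Q] w * g⁻¹ = g * z * g⁻¹ := hw
  exact mul_left_cancel (mul_right_cancel h2)

/-- An element `z ≠ 1` whose word is a concatenation of at most `ℓ` blocks is not trivial in `G`: by
`hyp.green` the word of `z` contains `ρ` with `|ρ| = L - e`; by `blk_part`, `blk_long`, `one_short`
and `hyp.bad`, `L - e ≤ ℓ * (s + 2 ^ s + b)`, against `mono`. -/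
theorem blk_ne_one {f : Fin 2 → G} {L e s b ℓ : ℕ} {RR : Set (List (Letter 2))}
    (hy : Hyp2 f L e s b ℓ RR) {X Y : Letter 2} {z : FreeGroup (Fin 2)} (hz : z ≠ 1)
    (hb : Blk X Y ℓ z.toWord) : FreeGroup.lift f z ≠ 1 := by
  intro h1
  obtain ⟨x, ρ, y, v, hx, hR, hv⟩ := hy.hyp.green z hz h1
  rw [hx] at hb
  obtain ⟨x', μ, y', hρ, hμ, hl⟩ := blk_long (blk_part hb)
  have h2 := one_short hy.hyp.hs hρ hμ
  have h3 := hy.hyp.bad ρ v hR
  have h4 := hy.hyp.len _ hR
  rw [List.length_append, hv] at h4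
  have h5 : ℓ * μ.length ≤ ℓ * (s + 2 ^ s + b) := Nat.mul_le_mul_left _ (by omega)
  have h6 := hy.mono
  omega

end Pool.Agent.Helper32.OR2
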