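import Pool.Agent.Helper32.OR2.Bl3

/-!
Generating pairs of the free group satisfy no short relation in the one-relator group (project OR2,
MP_d4e3d0_lc).
-/

namespace Pool.Agent.Helper32.OR2

open Pool.Agent.Helper22.OR

variable {G : Type} [Group G]

private theorem Bl4_mono {X Y : Letter 2} {k k' : ℕ} {l : List (Letter 2)} (h : Blk X Y k l)
    (hk : k ≤ k') : Blk X Y k' l := by
  obtain ⟨L, h1, h2, h3⟩ := h
  exact ⟨L, h1, h2.trans hk, h3⟩

private theorem Bl4_conj (f : Fin 2 → G) (g P Q u v : FreeGroup (Fin 2)) (hu : u = g * P * g⁻¹)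
    (hv : v = g * Q * g⁻¹) (w : FreeGroup (Fin 2)) :
    FreeGroup.lift ![FreeGroup.lift f u, FreeGroup.lift f v] w =
      FreeGroup.lift f g * FreeGroup.lift f (FreeGroup.lift ![P, Q] w) *
        (FreeGroup.lift f g)⁻¹ := by
  have h1 : FreeGroup.lift ![FreeGroup.lift f u, FreeGroup.lift f v] =
      (MulAut.conj (FreeGroup.lift f g)).toMonoidHom.comp
        ((FreeGroup.lift f).comp (FreeGroup.lift ![P, Q])) := by
    refine FreeGroup.ext_hom _ _ fun a => ?_
    fin_cases a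
    · simp [hu]
    · simp [hv]
  rw [h1]
  simp

/-- `basis_one`, `z = lift ![P, Q] w` satisfies `blk_value`, `z ≠ 1` by injectivity, and
`lift f z` is a conjugate of the value of `w`; `blk_ne_one`. -/
theorem no_short {f : Fin 2 → G} {L e s b ℓ : ℕ} {RR : Set (List (Letter 2))}
    (hy : Hyp2 f L e s b ℓ RR) {h : Fin 2 → FreeGroup (Fin 2)}
    (hh : Subgroup.closure (Set.range h) = ⊤) {w : FreeGroup (Fin 2)} (hw : w ≠ 1)
    (hl : w.norm ≤ ℓ) :
    FreeGroup.lift ![FreeGroup.lift f (h 0), FreeGroup.lift f (h 1)] w ≠ 1 := by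
  obtain ⟨X, Y, g, P, Q, hXY, h0, h1, hP, hQ, hinj⟩ := basis_one hh
  have hz : FreeGroup.lift ![P, Q] w ≠ 1 := by
    intro h2
    exact hw (hinj (h2.trans (map_one _).symm))
  have h3 := blk_ne_one hy hz (Bl4_mono (blk_value hP hQ w) hl)
  rw [Bl4_conj f g P Q _ _ h0 h1 w]
  intro h4
  apply h3
  rwa [conj_eq_one_iff] at h4

/-- The same for `z = P ^ i * (Q ^ j)⁻¹`, which is a concatenation of two blocks (`one_zpow`,
`one_inv`, `blk_mul`). -/
theorem no_two {f : Fin 2 → G} {L e s b ℓ : ℕ} {RR : Set (List (Letter 2))}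
    (hy : Hyp2 f L e s b ℓ RR) (hℓ : 2 ≤ ℓ) {h : Fin 2 → FreeGroup (Fin 2)}
    (hh : Subgroup.closure (Set.range h) = ⊤) (i j : ℤ) (hi : i ≠ 0) :
    (FreeGroup.lift f (h 0)) ^ i ≠ (FreeGroup.lift f (h 1)) ^ j := by
  obtain ⟨X, Y, g, P, Q, hXY, h0, h1, hP, hQ, hinj⟩ := basis_one hh
  set w : FreeGroup (Fin 2) := FreeGroup.of 0 ^ i * (FreeGroup.of 1 ^ j)⁻¹ with hwdef
  have hw : w ≠ 1 := by
    intro h2
    rw [hwdef, mul_inv_eq_one] at h2
    have h3 := congrArg (FreeGroup.lift ![Multiplicative.ofAdd (1 : ℤ), 1]) h2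
    rw [map_zpow, map_zpow, FreeGroup.lift_apply_of, FreeGroup.lift_apply_of] at h3
    simp only [Matrix.cons_val_zero, Matrix.cons_val_one, _root_.one_zpow] at h3
    rw [← ofAdd_zsmul, ofAdd_eq_one] at h3
    simp at h3
    exact hi h3
  have hval : FreeGroup.lift ![P, Q] w = P ^ i * (Q ^ j)⁻¹ := by
    rw [hwdef]
    simp
  have hz : FreeGroup.lift ![P, Q] w ≠ 1 := by
    intro h2
    exact hw (hinj (h2.trans (map_one _).symm))
  have hb1 : Blk X Y 1 (P ^ i).toWord := by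
    refine ⟨[(P ^ i).toWord], by simp, by simp, ?_⟩
    intro μ hμ
    rw [List.mem_singleton] at hμ
    rw [hμ]
    exact one_zpow hXY hP i
  have hb2 : Blk X Y (1 + 1) (P ^ i * (Q ^ j)⁻¹).toWord :=
    blk_mul hb1 (one_inv (one_zpow hXY hQ j))
  have h3 : FreeGroup.lift f (FreeGroup.lift ![P, Q] w) ≠ 1 := by
    refine blk_ne_one (X := X) (Y := Y) hy hz ?_
    rw [hval]
    exact Bl4_mono hb2 hℓ
  intro h4
  apply h3
  have h5 := Bl4_conj f g P Q _ _ h0 h1 w
  have h6 : FreeGroup.lift ![FreeGroup.lift f (h 0), FreeGroup.lift f (h 1)] w = 1 := by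
    rw [hwdef]
    simp [h4]
  rw [h6] at h5
  rwa [eq_comm, conj_eq_one_iff] at h5

end Pool.Agent.Helper32.OR2
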