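import Pool.Agent.Helper32.OR.Ct10

/-!
Choice of the window length with the stronger growth condition (project OR2, MP_d4e3d0_lc).
-/

namespace Pool.Agent.Helper32.OR2

open Pool.Agent.Helper32.OR

private theorem Cn1_sq_le (s : ℕ) : s * s ≤ 3 ^ s := by
  induction s with
  | zero => simp
  | succ s ih =>
    rcases Nat.lt_or_ge s 2 with h | h
    · interval_cases s <;> norm_num
    · rw [pow_succ]
      nlinarith

private theorem Cn1_exp (K : ℕ) :
    ∀ᶠ s : ℕ in Filter.atTop, 3 * K * s ^ 2 * 8 ^ (s / 2) ≤ 3 ^ s := by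
  have hr : |((Real.sqrt 8) / 3)| < 1 := by
    rw [abs_of_nonneg (by positivity), div_lt_one (by norm_num)]
    rw [Real.sqrt_lt' (by norm_num)]
    norm_num
  have h := tendsto_pow_const_mul_const_pow_of_abs_lt_one 2 hr
  have hpos : (0 : ℝ) < 1 / (3 * K + 1) := by positivity
  filter_upwards [h.eventually_lt_const hpos] with s hs
  rw [div_pow, ← mul_div_assoc, div_lt_div_iff₀ (by positivity) (by positivity)] at hs
  have h8 : ((8 ^ (s / 2) : ℕ) : ℝ) ≤ Real.sqrt 8 ^ s := by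
    push_cast
    have e : (8 : ℝ) = Real.sqrt 8 ^ 2 := by rw [Real.sq_sqrt (by norm_num)]
    have h1 : (1 : ℝ) ≤ Real.sqrt 8 := by
      rw [Real.one_le_sqrt]
      norm_num
    calc (8 : ℝ) ^ (s / 2) = (Real.sqrt 8 ^ 2) ^ (s / 2) := by rw [← e]
      _ = Real.sqrt 8 ^ (2 * (s / 2)) := by rw [pow_mul]
      _ ≤ Real.sqrt 8 ^ s := pow_le_pow_right₀ h1 (by omega)
  have h2 : ((3 * K * s ^ 2 * 8 ^ (s / 2) : ℕ) : ℝ) ≤ ((3 ^ s : ℕ) : ℝ) := by
    push_cast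
    push_cast at h8
    have h3 : (0 : ℝ) ≤ (s : ℝ) ^ 2 * Real.sqrt 8 ^ s := by positivity
    have h4 : 3 * (K : ℝ) * (s : ℝ) ^ 2 * 8 ^ (s / 2) ≤
        3 * (K : ℝ) * (s : ℝ) ^ 2 * Real.sqrt 8 ^ s :=
      mul_le_mul_of_nonneg_left h8 (by positivity)
    nlinarith
  exact_mod_cast h2

/-- Same choice as in `exists_window_length` (`Pool/Agent/Helper32/OR/Ct8.lean`): the least `s ≥ 1` with
`t * s ≤ 3 ^ s`. Then `3 ^ s ≤ 3 * s * t` for large `t`, and `3 * K * s ^ 2 * 8 ^ (s / 2) ≤ 3 ^ s` for large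
`s` because `8 < 9`. -/
theorem exists_window_length2 (K : ℕ) : ∃ s : ℕ → ℕ, (∀ t, 1 ≤ s t) ∧
    Filter.Tendsto s Filter.atTop Filter.atTop ∧
    ∀ᶠ t : ℕ in Filter.atTop, t * s t ≤ 3 ^ s t ∧ K * (s t * 8 ^ (s t / 2)) ≤ t := by
  have hex : ∀ t : ℕ, ∃ s, 1 ≤ s ∧ t * s ≤ 3 ^ s := fun t => by
    refine ⟨t + 1, by omega, ?_⟩
    calc t * (t + 1) ≤ (t + 1) * (t + 1) := Nat.mul_le_mul_right _ (by omega)
      _ ≤ 3 ^ (t + 1) := Cn1_sq_le _
  classical
  obtain ⟨s, hs⟩ : ∃ s : ℕ → ℕ, s = fun t => Nat.find (hex t) := ⟨_, rfl⟩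
  have h1 : ∀ t, 1 ≤ s t ∧ t * s t ≤ 3 ^ s t := fun t => by
    rw [hs]; exact Nat.find_spec (hex t)
  have hmin : ∀ t m, m < s t → ¬ (1 ≤ m ∧ t * m ≤ 3 ^ m) := fun t m hm => by
    rw [hs] at hm
    exact Nat.find_min (hex t) hm
  have htop : Filter.Tendsto s Filter.atTop Filter.atTop := by
    refine Filter.tendsto_atTop.2 fun M => ?_
    filter_upwards [Filter.eventually_gt_atTop (3 ^ M)] with t ht
    by_contra hlt
    push Not at hlt
    have h2 : t ≤ 3 ^ M := calc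
      t ≤ t * s t := Nat.le_mul_of_pos_right t (h1 t).1
      _ ≤ 3 ^ s t := (h1 t).2
      _ ≤ 3 ^ M := Nat.pow_le_pow_right (by omega) hlt.le
    omega
  refine ⟨s, fun t => (h1 t).1, htop, ?_⟩
  filter_upwards [htop.eventually (Cn1_exp K),
    htop.eventually (Filter.eventually_ge_atTop 2)] with t ht ht2
  refine ⟨(h1 t).2, ?_⟩
  have h2 := hmin t (s t - 1) (by omega)
  have h3 : 3 ^ (s t - 1) < t * (s t - 1) := by
    by_contra hc
    push Not at hc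
    exact h2 ⟨by omega, hc⟩
  have h4 : 3 ^ s t = 3 ^ (s t - 1) * 3 := by
    rw [← pow_succ]
    congr 1
    omega
  have h5 : 3 ^ s t ≤ 3 * s t * t := by
    rw [h4]
    have h6 : 3 ^ (s t - 1) ≤ t * s t := h3.le.trans (Nat.mul_le_mul_left t (by omega))
    calc 3 ^ (s t - 1) * 3 ≤ t * s t * 3 := Nat.mul_le_mul_right 3 h6
      _ = 3 * s t * t := by ring
  have h7 : 3 * s t * (K * (s t * 8 ^ (s t / 2))) ≤ 3 * s t * t := by
    refine le_trans (le_of_eq ?_) (ht.trans h5)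
    ring
  exact Nat.le_of_mul_le_mul_left h7 (by omega)

end Pool.Agent.Helper32.OR2
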