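import Pool.Agent.Helper32.OR2.Cn2

/-!
Good relators in two generators (project OR2, MP_d4e3d0_lc).
-/

namespace Pool.Agent.Helper32.OR2

open FreeGroup Pool.Agent.Helper32.OR

private theorem Cn3_pow (s : ℕ) : 2 ^ s ≤ 2 * 8 ^ (s / 2) := by
  have h1 : 2 ^ s ≤ 2 ^ (2 * (s / 2) + 1) := Nat.pow_le_pow_right (by omega) (by omega)
  have h2 : 2 ^ (2 * (s / 2) + 1) = 2 * 4 ^ (s / 2) := by
    rw [pow_succ, pow_mul]
    norm_num
    ring
  have h3 : 4 ^ (s / 2) ≤ 8 ^ (s / 2) := Nat.pow_le_pow_left (by omega) _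
  omega

/-- Same proof as `goodRel_of_generic` (`Pool/Agent/Helper32/OR/Co5.lean`), with a larger `K'`: the
condition `grow` of `GoodRel` follows from `9 * 2 ^ s ≤ 18 * 8 ^ (s / 2)`, and
`r.norm ≤ 2 * c.length`. -/
theorem goodRel2_of_generic2 (K : ℕ) : ∃ K' : ℕ, ∀ r : FreeGroup (Fin 2),
    Generic2 K' r → ∃ (c : List (Fin 2 × Bool)) (hc : c ≠ []) (s l0 : ℕ),
      GoodRel 2 K c hc s l0 ∧ K * (s * 8 ^ (s / 2)) ≤ c.length ∧
      Subgroup.normalClosure {r} = Subgroup.normalClosure {FreeGroup.mk c} := by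
  refine ⟨36 * K + 36, fun r hr => ?_⟩
  obtain ⟨s, hs, h1, h2, h3, h4, h5⟩ := hr
  have e2 : (36 * K + 36) * s = 36 * (K * s) + 36 * s := by ring
  rw [e2] at h2
  obtain ⟨u, c, hw, hu, hc, hcyc⟩ := exists_core r (by omega) h5
  have hlen : r.norm = 2 * u.length + c.length := by
    have h6 : r.norm = r.toWord.length := rfl
    rw [h6, hw, List.length_append, List.length_append, invRev_length]
    ring
  obtain ⟨B, hB⟩ : ∃ B, badCard r.toWord s = B := ⟨_, rfl⟩
  obtain ⟨M, hM⟩ : ∃ M, s * 8 ^ (s / 2) = M := ⟨_, rfl⟩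
  rw [hB] at h3
  rw [hM] at h4
  have e3 : (36 * K + 36) * B = 36 * (K * B) + 36 * B := by ring
  have e4 : (36 * K + 36) * M = 36 * (K * M) + 36 * M := by ring
  rw [e3] at h3
  rw [e4] at h4
  have hB' : badCard (u ++ c ++ invRev u) s = B := by rw [← hw]; exact hB
  have hsc := sc_of_bad u c (invRev u) hc hs (by rw [hB']; omega)
  rw [hB'] at hsc
  refine ⟨c, hc, s, B + 3 * s + 1, ?_, ?_, normalClosure_core r u c hw⟩
  · exact
      { cyc := hcyc
        s_pos := hs
        l0_pos := by omega
        len := by omega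
        s_le := by omega
        l0_le := by
          have e5 : K * (B + 3 * s + 1) = K * B + 3 * (K * s) + K := by ring
          rw [e5]
          omega
        sc := hsc
        bad_le := by
          intro i m hm
          have h7 := badCard_cycWord u c (invRev u) hc hs (by omega) i m hm
          rw [hB'] at h7
          have h8 : K * badCard (cycWord c hc i m) s ≤ K * (B + 3 * s) := Nat.mul_le_mul_left K h7
          have e5 : K * (B + 3 * s) = K * B + 3 * (K * s) := by ring
          omega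
        grow := by
          have h9 : s * (2 * 2 - 1) ^ 2 * (2 * 2 - 2) ^ s ≤ 18 * M := by
            have h10 := Cn3_pow s
            have h11 : s * 2 ^ s ≤ s * (2 * 8 ^ (s / 2)) := Nat.mul_le_mul_left s h10
            have h12 : s * (2 * 8 ^ (s / 2)) = 2 * M := by rw [← hM]; ring
            have h13 : s * (2 * 2 - 1) ^ 2 * (2 * 2 - 2) ^ s = 9 * (s * 2 ^ s) := by
              norm_num
              ring
            omega
          have h14 : K * (s * (2 * 2 - 1) ^ 2 * (2 * 2 - 2) ^ s) ≤ K * (18 * M) :=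
            Nat.mul_le_mul_left K h9
          have h15 : K * (18 * M) = 18 * (K * M) := by ring
          omega }
  · rw [hM]
    omega

end Pool.Agent.Helper32.OR2
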