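import Pool.Agent.Helper22.OR.Long

/-!
The number of steps whose edge is used more than once, with a general bound for the number of
windows (project OR2, MP_d4e3d0_lc).
-/

namespace Pool.Agent.Helper32.OR2

open Pool.Agent.Helper22.OR Pool.Agent.Helper22.OR.Gr

variable {n : ℕ}

/-- `nonplain_card` of `Pool/Agent/Helper22/OR/Win.lean` with the bound `c` instead of `4 * Q ^ s`
(same proof). -/
theorem nonplain_card' (Γ : Gr (Fin n)) (c : ℕ) {p : ℕ → Γ.D} {m s : ℕ}
    (hc : ∀ t b, 1 ≤ t → t < s → (nonplain_card_words Γ s t b).card ≤ c)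
    (hp : Γ.Pth p m) (B : Finset Γ.V) (S : Finset ℕ)
    (hS : ∀ i ∈ S, i + s ≤ m ∧ ∃ t, 0 < t ∧ t < s ∧ Γ.st (p (i + t)) ∈ B)
    (hinj : ∀ i ∈ S, ∀ j ∈ S, Γ.seg p i (i + s) = Γ.seg p j (j + s) → i = j) :
    S.card ≤ B.card * (s * c) := by
  have h1 : (S.image (fun i => Γ.seg p i (i + s))).card = S.card := by
    refine Finset.card_image_of_injOn fun i hi j hj hij => ?_
    exact hinj i hi j hj hij
  rw [← h1]
  have h2 : S.image (fun i => Γ.seg p i (i + s)) ⊆ B.biUnion (fun b => (Finset.Ico 1 s).biUnion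
      (fun t => nonplain_card_words Γ s t b)) := by
    intro w hw
    obtain ⟨i, hi, rfl⟩ := Finset.mem_image.mp hw
    obtain ⟨h3, t, ht, hts, hb⟩ := hS i hi
    obtain ⟨u, hu, v, hv, huv⟩ := window_word Γ p hp h3 ht hts
    refine Finset.mem_biUnion.mpr ⟨_, hb, Finset.mem_biUnion.mpr ⟨t, Finset.mem_Ico.mpr ⟨ht, hts⟩,
      ?_⟩⟩
    exact Finset.mem_image.mpr ⟨(u, v), Finset.mem_product.mpr ⟨hu, hv⟩, huv.symm⟩
  refine (Finset.card_le_card h2).trans (Finset.card_biUnion_le_card_mul _ _ _ fun b _ => ?_)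
  refine (Finset.card_biUnion_le_card_mul _ _ c fun t ht => ?_).trans ?_
  · obtain ⟨ht1, ht2⟩ := Finset.mem_Ico.mp ht
    exact hc t b ht1 ht2
  · refine Nat.mul_le_mul_right _ ?_
    rw [Nat.card_Ico]
    omega

/-- `multi_card` of `Pool/Agent/Helper22/OR/Win.lean` with the bound `c` instead of `4 * Q ^ s`
(same proof, with `nonplain_card'`). -/
theorem multi_card' (Γ : Gr (Fin n)) (c : ℕ) {p : ℕ → Γ.D} {m s : ℕ}
    (hc : ∀ t b, 1 ≤ t → t < s → (nonplain_card_words Γ s t b).card ≤ c)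
    (hp : Γ.Pth p m) (hs : 1 ≤ s) :
    (multi Γ p m).card ≤ 2 * s + 2 * ((Finset.univ.filter (fun v : Γ.V => 3 ≤ Γ.deg v)).card *
      (s * c) + (badw (Γ.seg p 0 m) s).card) := by
  classical
  have hlen : (Γ.seg p 0 m).length = m := by rw [seg_length, Nat.sub_zero]
  obtain ⟨bad, hbad⟩ : ∃ bad : Finset ℕ, bad = badw (Γ.seg p 0 m) s := ⟨_, rfl⟩
  obtain ⟨B, hB⟩ : ∃ B : Finset Γ.V, B = Finset.univ.filter (fun v : Γ.V => 3 ≤ Γ.deg v) :=
    ⟨_, rfl⟩
  have hmem : ∀ v, v ∈ B ↔ 3 ≤ Γ.deg v := fun v => by rw [hB]; simp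
  obtain ⟨X', hX'⟩ : ∃ X' : Finset ℕ, X' = ((Finset.range m).filter (fun i => i + s ≤ m ∧
    ∃ t, 0 < t ∧ t < s ∧ Γ.st (p (i + t)) ∈ B)) \ bad := ⟨_, rfl⟩
  have hXm : ∀ i, i ∈ X' ↔ (i < m ∧ i + s ≤ m ∧
      ∃ t, 0 < t ∧ t < s ∧ Γ.st (p (i + t)) ∈ B) ∧ i ∉ bad := by
    intro i
    rw [hX', Finset.mem_sdiff, Finset.mem_filter, Finset.mem_range]
  have hXc : X'.card ≤ B.card * (s * c) := by
    refine nonplain_card' Γ c hc hp B X' (fun i hi => ((hXm i).1 hi).1.2)
      (fun i hi j hj hij => ?_)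
    by_contra hne
    have hi1 := ((hXm i).1 hi).1.2.1
    have hj1 := ((hXm j).1 hj).1.2.1
    apply ((hXm i).1 hi).2
    rw [hbad]
    unfold badw
    refine (@Finset.mem_filter _ _ (_) _ _).2 ⟨?_, Or.inl ⟨j, ?_, fun h => hne h.symm, ?_⟩⟩
    · rw [hlen, Finset.mem_range]
      omega
    · rw [hlen, Finset.mem_range]
      omega
    · rw [win_seg Γ p hj1, win_seg Γ p hi1]
      exact hij.symm
  have hXX : (X' ∪ bad).card ≤ B.card * (s * c) + bad.card :=
    (Finset.card_union_le _ _).trans (Nat.add_le_add_right hXc _)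
  have hdeg : ∀ i, i + s ≤ m → i ∉ X' ∪ bad → ∀ t, 0 < t → t < s →
      Γ.deg (Γ.st (p (i + t))) ≤ 2 := by
    intro i hi hni t ht hts
    by_contra hcon
    rw [Finset.mem_union, not_or] at hni
    refine hni.1 ((hXm i).2 ⟨⟨by omega, hi, t, ht, hts, (hmem _).2 (by omega)⟩, hni.2⟩)
  have hsub : multi Γ p m ⊆ (Finset.range s ∪ Finset.Ico (m + 1 - s) (m + 1)) ∪
      ((X' ∪ bad) ∪ (X' ∪ bad).image (fun x => x + s - 1)) := by
    intro i hi
    unfold multi at hi
    obtain ⟨him0, j, hj, hji, he⟩ := (@Finset.mem_filter _ _ (_) _ _).1 hi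
    have him := Finset.mem_range.1 him0
    by_cases h1 : s ≤ i + 1
    · by_cases h2 : i + s ≤ m
      · rw [Finset.mem_union]
        right
        by_cases h3 : i ∈ X' ∪ bad
        · exact Finset.mem_union_left _ h3
        · apply Finset.mem_union_right
          have h4 : i + 1 - s ∈ X' ∪ bad := by
            by_contra h5
            have h6 : i + 1 - s + s ≤ m := by omega
            have h7 := multi_window Γ hp hs hj hji he h1 h2 (hdeg i h2 h3)
              (hdeg (i + 1 - s) h6 h5)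
            rw [← hbad] at h7
            rcases h7 with h7 | h7
            · exact h3 (Finset.mem_union_right _ h7)
            · exact h5 (Finset.mem_union_right _ h7)
          rw [Finset.mem_image]
          exact ⟨i + 1 - s, h4, by omega⟩
      · apply Finset.mem_union_left
        apply Finset.mem_union_right
        rw [Finset.mem_Ico]
        omega
    · apply Finset.mem_union_left
      apply Finset.mem_union_left
      rw [Finset.mem_range]
      omega
  have hcc := Finset.card_le_card hsub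
  have c1 := Finset.card_union_le (Finset.range s ∪ Finset.Ico (m + 1 - s) (m + 1))
    ((X' ∪ bad) ∪ (X' ∪ bad).image (fun x => x + s - 1))
  have c2 := Finset.card_union_le (Finset.range s) (Finset.Ico (m + 1 - s) (m + 1))
  have c3 := Finset.card_union_le (X' ∪ bad) ((X' ∪ bad).image (fun x => x + s - 1))
  have c4 : ((X' ∪ bad).image (fun x => x + s - 1)).card ≤ (X' ∪ bad).card :=
    Finset.card_image_le
  rw [Finset.card_range, Nat.card_Ico] at c2
  rw [← hB, ← hbad]
  omega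

end Pool.Agent.Helper32.OR2
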