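import Pool.Agent.Helper32.OR2.Gw4
import Pool.Agent.Helper32.OR2.Gw5

/-!
Paths without long runs in minimal graphs of rank two (project OR2, MP_d4e3d0_lc).
-/

namespace Pool.Agent.Helper32.OR2

open Pool.Agent.Helper22.OR Pool.Agent.Helper22.OR.Gr

/-- `run_bound`, `multi_card'` with `c = 18 * 8 ^ (s / 2)` (`nonplain_one2`), `branch_card`. -/
theorem short2 {H : Subgroup (FreeGroup (Fin 2))} {Γ : Gr (Fin 2)}
    (h : Γ.Mini FreeGroup.of H 2) (hH : H ≠ ⊤) {p : ℕ → Γ.D} {m : ℕ} (hp : Γ.Pth p m) (ℓ : ℕ)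
    (hℓ : ∀ a b, IsRun Γ p m a b → b - a ≤ ℓ) (s b : ℕ) (hs : 1 ≤ s)
    (hb : (badw (Γ.seg p 0 m) s).card ≤ b) :
    m ≤ 2 * s + 2 * (90 * (s * 8 ^ (s / 2)) + b) + 16 * ℓ := by
  have Gw6_run := run_bound h hp ℓ hℓ
  have h2 := multi_card' Γ (18 * 8 ^ (s / 2)) (p := p) (m := m) (s := s)
    (fun t b ht hts => nonplain_one2 h hH ht hts b) hp hs
  have h3 := branch_card h
  have h4 : (Finset.univ.filter (fun v : Γ.V => 3 ≤ Γ.deg v)).card *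
      (s * (18 * 8 ^ (s / 2))) ≤ 90 * (s * 8 ^ (s / 2)) := by
    calc (Finset.univ.filter (fun v : Γ.V => 3 ≤ Γ.deg v)).card * (s * (18 * 8 ^ (s / 2)))
        ≤ 5 * (s * (18 * 8 ^ (s / 2))) := Nat.mul_le_mul_right _ (by omega)
      _ = 90 * (s * 8 ^ (s / 2)) := by ring
  omega

end Pool.Agent.Helper32.OR2
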