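import Pool.Agent.Helper32.OR2.MkDefs

/-!
Marked graphs: the values in the group do not change (project OR2, MP_d4e3d0_lc).
-/

namespace Pool.Agent.Helper32.OR2

open Pool.Agent.Helper22.OR Pool.Agent.Helper22.OR.Gr

variable {n k : ℕ} {G : Type} [Group G]

private theorem Mk4_lv (f : Fin n → G) (a : Letter n) :
    FreeGroup.lift f (lv FreeGroup.of a) = lv f a := by
  rcases a with ⟨i, s⟩
  cases s
  · simp [lv]
  · simp [lv]

theorem lift_wv (f : Fin n → G) (w : List (Letter n)) :
    FreeGroup.lift f (wv FreeGroup.of w) = wv f w := by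
  induction w with
  | nil => simp [wv]
  | cons a w ih =>
    have h1 : wv (FreeGroup.of : Fin n → FreeGroup (Fin n)) (a :: w) =
        lv FreeGroup.of a * wv FreeGroup.of w := by simp [wv]
    have h2 : wv f (a :: w) = lv f a * wv f w := by simp [wv]
    rw [h1, h2, map_mul, ih, Mk4_lv]

private theorem Mk4_seg (Γ : Gr (Fin n)) (p : ℕ → Γ.D) {a t : ℕ} (h : a ≤ t) :
    Γ.seg p a (t + 1) = Γ.seg p a t ++ [Γ.lt (p t)] := by
  unfold Gr.seg
  rw [show t + 1 - a = (t - a) + 1 by omega, List.range'_concat, List.map_append]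
  simp only [List.map_cons, List.map_nil, one_mul]
  rw [show a + (t - a) = t by omega]

private theorem Mk4_wv (f : Fin n → G) (Γ : Gr (Fin n)) (p : ℕ → Γ.D) {a t : ℕ} (h : a ≤ t) :
    wv f (Γ.seg p a (t + 1)) = wv f (Γ.seg p a t) * lv f (Γ.lt (p t)) := by
  rw [Mk4_seg Γ p h, wv_append]
  simp [wv]

private theorem Mk4_app (Γ : Gr (Fin n)) (p : ℕ → Γ.D) {a b c : ℕ} (h : a ≤ b) (h' : b ≤ c) :
    Γ.seg p a c = Γ.seg p a b ++ Γ.seg p b c := by
  induction c, h' using Nat.le_induction with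
  | base => simp [seg]
  | succ c hc ih =>
    rw [Mk4_seg Γ p (h.trans hc), Mk4_seg Γ p hc, ih, List.append_assoc]

/-- The value of the way around is the value of the run. -/
private theorem Mk4_rnd (f : Fin n → G) (Γ : Gr (Fin n)) (p : ℕ → Γ.D) {m a b : ℕ} (hab : a ≤ b)
    (hbm : b ≤ m) (v : List (Letter n)) (hv : wv f (Γ.seg p 0 m ++ v) = 1) :
    FreeGroup.lift f (rnd Γ p m a b v) = wv f (Γ.seg p a b) := by
  have e1 : wv f (Γ.seg p 0 a) * wv f (Γ.seg p a b) * wv f (Γ.seg p b m) * wv f v = 1 := by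
    rw [← wv_append, ← wv_append, ← wv_append, ← Mk4_app Γ p (Nat.zero_le a) hab,
      ← Mk4_app Γ p (Nat.zero_le b) hbm]
    exact hv
  have e2 : wv f (Γ.seg p a b) = (wv f (Γ.seg p 0 a))⁻¹ *
      (wv f (Γ.seg p 0 a) * wv f (Γ.seg p a b) * wv f (Γ.seg p b m) * wv f v) * (wv f v)⁻¹ *
        (wv f (Γ.seg p b m))⁻¹ := by group
  rw [e2, e1, mul_one]
  simp only [rnd, map_mul, map_inv, lift_wv]

/-- The gauge before and after a step of the run. -/
private theorem Mk4_step (f : Fin n → G) {H : Subgroup (FreeGroup (Fin n))} {Γ : Gr (Fin n)}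
    (h : Γ.Mini FreeGroup.of H k) {p : ℕ → Γ.D} {m a b : ℕ} (hp : Γ.Pth p m)
    (hr : IsRun Γ p m a b) (v : List (Letter n)) (hv : wv f (Γ.seg p 0 m ++ v) = 1) {t : ℕ}
    (hat : a ≤ t) (htb : t < b) :
    FreeGroup.lift f (cgau FreeGroup.of Γ p a b (Γ.st (p t))) * lv f (Γ.lt (p t)) *
        (FreeGroup.lift f (cgau FreeGroup.of Γ p a b (Γ.en (p t))))⁻¹ =
      if t + 1 < b then 1 else FreeGroup.lift f (rnd Γ p m a b v) := by
  have hab := hr.lt
  have hbm := hr.le
  have hva : vx Γ p m a = Γ.st (p a) := by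
    unfold vx
    rw [if_pos (by omega)]
  have ha : vx Γ p m a ∉ rV Γ p a b := (run_vx h hp hr).2 a (by omega) (Or.inl le_rfl)
  have h2 : cgau FreeGroup.of Γ p a b (Γ.st (p t)) = wv FreeGroup.of (Γ.seg p a t) := by
    rcases Nat.eq_or_lt_of_le hat with h0 | h0
    · subst h0
      rw [cgau_outer FreeGroup.of Γ p a b _ (by rw [← hva]; exact ha)]
      simp [Gr.seg, wv]
    · exact cgau_inner h hp hr h0 htb
  rw [h2, lift_wv]
  rcases Nat.lt_or_ge (t + 1) b with h3 | h3
  · rw [if_pos h3, hp.chain t (by omega), cgau_inner h hp hr (by omega : a < t + 1) h3, lift_wv,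
      Mk4_wv f Γ p hat]
    group
  · have hbt : b = t + 1 := by omega
    have hb' : vx Γ p m b ∉ rV Γ p a b := (run_vx h hp hr).2 b hbm (Or.inr le_rfl)
    have hvb : Γ.en (p t) = vx Γ p m b := by
      unfold vx
      rcases Nat.lt_or_ge b m with h4 | h4
      · rw [if_pos h4, hbt]
        exact hp.chain t (by omega)
      · rw [if_neg (by omega), hbt, Nat.add_sub_cancel]
    rw [if_neg (by omega), cgau_outer FreeGroup.of Γ p a b (Γ.en (p t)) (by rw [hvb]; exact hb'),
      Mk4_rnd f Γ p hab.le hbm v hv, hbt, Mk4_wv f Γ p hat]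
    simp

/-- The new label of an edge has the same value in `G` as the old one, up to the gauge `cgau`
(the value of the run from its start to the vertex). For an edge outside the run both gauges are
trivial (`run_out`, `cgau_outer`); for an edge of the run argue as in `cut_phi`
(`Pool/Agent/Helper22/OR/Surg.lean`), with `hv` for the last one. (`Mini` is needed for a group
different from `G`, namely for the free group; `cgau_inner` and `cgau_outer` are stated for the
same group, so take the gauge `cgau FreeGroup.of` and apply `FreeGroup.lift f`.) -/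
theorem nu_value (f : Fin n → G) {H : Subgroup (FreeGroup (Fin n))} {Γ : Gr (Fin n)}
    (h : Γ.Mini FreeGroup.of H k) {p : ℕ → Γ.D} {m a b : ℕ} (hp : Γ.Pth p m)
    (hr : IsRun Γ p m a b) (v : List (Letter n)) (hv : wv f (Γ.seg p 0 m ++ v) = 1) (e : Γ.E) :
    FreeGroup.lift f (nu Γ p m a b v e) =
      FreeGroup.lift f (cgau FreeGroup.of Γ p a b (Γ.src e)) * f (Γ.lab e) *
        (FreeGroup.lift f (cgau FreeGroup.of Γ p a b (Γ.tgt e)))⁻¹ := by
  have hab := hr.lt
  have hbm := hr.le
  by_cases he : e ∈ rE Γ p a b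
  · obtain ⟨t, ht, rfl⟩ := Finset.mem_image.mp he
    rw [Finset.mem_Ico] at ht
    have h1 := Mk4_step f h hp hr v hv ht.1 ht.2
    have h2 : FreeGroup.lift f (nu Γ p m a b v (p t).1) =
        cond (p t).2 (if t + 1 < b then 1 else FreeGroup.lift f (rnd Γ p m a b v))
          (if t + 1 < b then 1 else FreeGroup.lift f (rnd Γ p m a b v))⁻¹ := by
      unfold nu
      by_cases h3 : t + 1 < b
      · have h4 : (p t).1 ≠ (p (b - 1)).1 := by
          intro h5
          have := hr.once t ht.1 ht.2 (b - 1) (by omega) h5.symm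
          omega
        rw [if_neg h4, if_pos he, if_pos h3]
        cases (p t).2 <;> simp
      · have h4 : t = b - 1 := by omega
        rw [← h4, if_pos rfl, if_neg h3]
        cases (p t).2 <;> simp
    rw [h2, ← h1]
    rcases hpt : p t with ⟨e, s⟩
    cases s
    · simp [st, en, lt, lv, mul_assoc]
    · simp [st, en, lt, lv, mul_assoc]
  · obtain ⟨h1, h2⟩ := run_out h hp hr e he
    have h3 : e ≠ (p (b - 1)).1 := by
      rintro rfl
      exact he (Finset.mem_image.2 ⟨b - 1, Finset.mem_Ico.2 ⟨by omega, by omega⟩, rfl⟩)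
    rw [cgau_outer _ Γ p a b _ h1, cgau_outer _ Γ p a b _ h2]
    unfold nu
    rw [if_neg h3, if_neg he]
    simp

/-- Induction on the path with `nu_value`; at the base the gauge is trivial (`run_vx`,
`cgau_outer`). -/
theorem pair_value (f : Fin n → G) {H : Subgroup (FreeGroup (Fin n))} {Γ : Gr (Fin n)}
    (h : Γ.Mini FreeGroup.of H k) {p : ℕ → Γ.D} {m a b : ℕ} (hp : Γ.Pth p m)
    (hr : IsRun Γ p m a b) (v : List (Letter n)) (hv : wv f (Γ.seg p 0 m ++ v) = 1)
    {y z : FreeGroup (Fin n)}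
    (hP : (lab2 Γ (pr Γ (nu Γ p m a b v))).P id Γ.base Γ.base (y, z)) :
    FreeGroup.lift f z = FreeGroup.lift f y := by
  have key : ∀ (x x' : (lab2 Γ (pr Γ (nu Γ p m a b v))).V)
      (g : FreeGroup (Fin n) × FreeGroup (Fin n)),
      (lab2 Γ (pr Γ (nu Γ p m a b v))).P id x x' g →
      FreeGroup.lift f g.2 = FreeGroup.lift f (cgau FreeGroup.of Γ p a b x) *
        FreeGroup.lift f g.1 * (FreeGroup.lift f (cgau FreeGroup.of Γ p a b x'))⁻¹ := by
    intro x x' g hg
    induction hg with
    | refl x => simp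
    | @fwd w g e _ ih =>
      have h1 := nu_value f h hp hr v hv e
      have h2 : FreeGroup.lift f (id ((lab2 Γ (pr Γ (nu Γ p m a b v))).lab e) * g).2 =
          FreeGroup.lift f (nu Γ p m a b v e) * FreeGroup.lift f g.2 := by
        rw [← map_mul]
        rfl
      have h3 : FreeGroup.lift f (id ((lab2 Γ (pr Γ (nu Γ p m a b v))).lab e) * g).1 =
          f (Γ.lab e) * FreeGroup.lift f g.1 := by
        rw [← FreeGroup.lift_apply_of (f := f) (x := Γ.lab e), ← map_mul]
        rfl
      rw [h2, h3, h1, ih]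
      change _ = FreeGroup.lift f (cgau FreeGroup.of Γ p a b (Γ.src e)) * _ * _
      change _ * (FreeGroup.lift f (cgau FreeGroup.of Γ p a b (Γ.tgt e)) * _ * _) = _
      group
    | @bwd w g e _ ih =>
      have h1 := nu_value f h hp hr v hv e
      have h2 : FreeGroup.lift f ((id ((lab2 Γ (pr Γ (nu Γ p m a b v))).lab e))⁻¹ * g).2 =
          (FreeGroup.lift f (nu Γ p m a b v e))⁻¹ * FreeGroup.lift f g.2 := by
        rw [← map_inv, ← map_mul]
        rfl
      have h3 : FreeGroup.lift f ((id ((lab2 Γ (pr Γ (nu Γ p m a b v))).lab e))⁻¹ * g).1 =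
          (f (Γ.lab e))⁻¹ * FreeGroup.lift f g.1 := by
        rw [← FreeGroup.lift_apply_of (f := f) (x := Γ.lab e), ← map_inv, ← map_mul]
        rfl
      rw [h2, h3, h1, ih]
      change _ = FreeGroup.lift f (cgau FreeGroup.of Γ p a b (Γ.tgt e)) * _ * _
      change _ * (FreeGroup.lift f (cgau FreeGroup.of Γ p a b (Γ.src e)) * _ * _) = _
      group
  have h1 := key Γ.base Γ.base (y, z) hP
  have hb := (run_vx h hp hr).1
  rw [cgau_outer _ Γ p a b _ hb] at h1
  simpa using h1

end Pool.Agent.Helper32.OR2
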