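import Pool.Agent.Helper32.OR2.Mk5

/-!
Marked graphs: the graph after surgery is good for the new lifts (project OR2, MP_d4e3d0_lc).
-/

namespace Pool.Agent.Helper32.OR2

open Pool.Agent.Helper22.OR Pool.Agent.Helper22.OR.Gr

variable {n k : ℕ} {G : Type} [Group G]

private theorem Mk6_dart {Γ : Gr (Fin n)} (ν : Γ.E → FreeGroup (Fin n)) (d : Γ.D) :
    (lab2 Γ ν).P id (Γ.st d) (Γ.en d) (dv Γ ν d) := by
  rcases d with ⟨e, c⟩
  cases c
  · exact P.edge' (f := id) (Γ := lab2 Γ ν) e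
  · exact P.edge (f := id) (Γ := lab2 Γ ν) e

private theorem Mk6_vx {Γ : Gr (Fin n)} {p : ℕ → Γ.D} {m i : ℕ} (hp : Γ.Pth p m) (hi : i < m) :
    vx Γ p m i = Γ.st (p i) ∧ vx Γ p m (i + 1) = Γ.en (p i) := by
  constructor
  · simp [vx, hi]
  · by_cases h : i + 1 < m
    · simp only [vx, if_pos h]
      exact (hp.chain i h).symm
    · simp only [vx, if_neg h, Nat.add_sub_cancel]

private theorem Mk6_seg {Γ : Gr (Fin n)} (p : ℕ → Γ.D) {a b : ℕ} (h : a ≤ b) :
    wv (FreeGroup.of : Fin n → FreeGroup (Fin n)) (Γ.seg p a (b + 1)) =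
      wv FreeGroup.of (Γ.seg p a b) * lv FreeGroup.of (Γ.lt (p b)) := by
  have h1 : b + 1 - a = (b - a) + 1 := by omega
  have h2 : a + (b - a) = b := by omega
  have h3 : Γ.seg p a (b + 1) = Γ.seg p a b ++ [Γ.lt (p b)] := by
    rw [seg, seg, h1, List.range'_concat, List.map_append]
    simp [h2]
  rw [h3, wv_append]
  simp [wv]

private theorem Mk6_out {Γ : Gr (Fin n)} {p : ℕ → Γ.D} {m a b : ℕ} (hp : Γ.Pth p m)
    (hr : IsRun Γ p m a b) (v : List (Letter n)) {i j : ℕ} (hij : i ≤ j) (hjm : j ≤ m)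
    (hE : ∀ t, i ≤ t → t < j → (p t).1 ∉ rE Γ p a b) :
    (lab2 Γ (nu Γ p m a b v)).P id (vx Γ p m i) (vx Γ p m j) (wv FreeGroup.of (Γ.seg p i j)) := by
  induction j, hij using Nat.le_induction with
  | base =>
    refine (P.refl _).congr ?_
    simp [seg, wv]
  | succ j hij ih =>
    have h1 := ih (by omega) (fun t h2 h3 => hE t h2 (by omega))
    have h2 := Mk6_dart (nu Γ p m a b v) (p j)
    obtain ⟨h3, h4⟩ := Mk6_vx hp (show j < m by omega)
    rw [nu_out hr v (p j) (hE j hij (by omega))] at h2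
    rw [h3] at h1
    rw [h4, Mk6_seg p hij]
    exact h1.trans h2

private theorem Mk6_run {Γ : Gr (Fin n)} {p : ℕ → Γ.D} {m a b : ℕ} (hp : Γ.Pth p m)
    (hr : IsRun Γ p m a b) (v : List (Letter n)) :
    (lab2 Γ (nu Γ p m a b v)).P id (vx Γ p m a) (vx Γ p m b) (rnd Γ p m a b v) := by
  have hlt := hr.lt
  have hle := hr.le
  have key : ∀ s, a + s < b → (lab2 Γ (nu Γ p m a b v)).P id (vx Γ p m a) (vx Γ p m (a + s)) 1 := by
    intro s
    induction s with
    | zero =>
      intro _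
      exact P.refl _
    | succ s ih =>
      intro hs
      have h1 := ih (by omega)
      have h2 := Mk6_dart (nu Γ p m a b v) (p (a + s))
      obtain ⟨h3, h4⟩ := Mk6_vx hp (show a + s < m by omega)
      rw [nu_run hr v (a + s) (by omega) (by omega), if_neg (by omega)] at h2
      rw [h3] at h1
      rw [show a + (s + 1) = a + s + 1 by omega, h4]
      exact (h1.trans h2).congr (mul_one _)
  have h1 := key (b - 1 - a) (by omega)
  have h2 := Mk6_dart (nu Γ p m a b v) (p (b - 1))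
  obtain ⟨h3, h4⟩ := Mk6_vx hp (show b - 1 < m by omega)
  rw [nu_run hr v (b - 1) (by omega) (by omega), if_pos rfl] at h2
  rw [show a + (b - 1 - a) = b - 1 by omega, h3] at h1
  rw [show b - 1 + 1 = b by omega] at h4
  rw [h4]
  exact (h1.trans h2).congr (one_mul _)

private theorem Mk6_notin {Γ : Gr (Fin n)} {p : ℕ → Γ.D} {m a b : ℕ}
    (hr : IsRun Γ p m a b) (t : ℕ) (htm : t < m) (ht : t < a ∨ b ≤ t) :
    (p t).1 ∉ rE Γ p a b := by
  intro hmem
  simp only [rE, Finset.mem_image, Finset.mem_Ico] at hmem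
  obtain ⟨t', ⟨h1, h2⟩, h3⟩ := hmem
  have := hr.once t' h1 h2 t htm h3.symm
  omega

/-- The path `p` backwards has the new value `wv v`: the new values along `p` are
`wv (seg 0 a) * rnd * wv (seg b m)` (`nu_run`, `nu_out`; the edges of the run are used only once, so
the other steps of `p` are outside the run). -/
theorem new_path {H : Subgroup (FreeGroup (Fin n))} {Γ : Gr (Fin n)}
    (h : Γ.Mini FreeGroup.of H k) {p : ℕ → Γ.D} {m a b : ℕ} (hp : Γ.Pth p m)
    (hr : IsRun Γ p m a b) (v : List (Letter n)) :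
    (lab2 Γ (nu Γ p m a b v)).P id (vx Γ p m m) (vx Γ p m 0) (wv FreeGroup.of v) := by
  have hlt := hr.lt
  have hle := hr.le
  have h1 := Mk6_out hp hr v (Nat.zero_le a) (by omega)
    (fun t _ h2 => Mk6_notin hr t (by omega) (Or.inl h2))
  have h2 := Mk6_run hp hr v
  have h3 := Mk6_out hp hr v hle le_rfl (fun t h1 h2 => Mk6_notin hr t h2 (Or.inr h1))
  refine ((h1.trans h2).trans h3).symm.congr ?_
  rw [rnd]
  group

/-- `Good.of_maps` with `φ = cphi`, `ψ` the inclusion and no gauges (`c = 1`, `d = 1`), as in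
`cut_good`: an edge outside the run keeps its label (`nu_out`); the steps of the run except the last
one have the new value 1 and are mapped to the start of the run; the last one has the new value
`rnd` (`nu_run`) and is mapped to the way around (`cut_rnd`); the new edge goes to the path `p`
backwards (`new_path`). The numbers of edges and vertices: `cut_card_E`, `cut_card_V`, `rE_card`,
`rV_card`. -/
theorem cut_good2 {H K : Subgroup (FreeGroup (Fin n))} {Γ : Gr (Fin n)}
    (h : Γ.Mini FreeGroup.of H k) {p : ℕ → Γ.D} {m a b : ℕ} (hp : Γ.Pth p m)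
    (hr : IsRun Γ p m a b) (v : List (Letter n))
    (hG : (lab2 Γ (nu Γ p m a b v)).Good id K k)
    (hout : ∀ e, e ∉ rE Γ p a b → Γ.src e ∉ rV Γ p a b ∧ Γ.tgt e ∉ rV Γ p a b)
    (hb : Γ.base ∉ rV Γ p a b) (hx : vx Γ p m 0 ∉ rV Γ p a b) (hy : vx Γ p m m ∉ rV Γ p a b) :
    (cut Γ (rE Γ p a b) (rV Γ p a b) hout hb ⟨vx Γ p m 0, hx⟩ ⟨vx Γ p m m, hy⟩ v).Good
      (wv FreeGroup.of) K k := by
  have hlt := hr.lt
  have hle := hr.le
  have ha : vx Γ p m a ∉ rV Γ p a b := (run_vx h hp hr).2 a (by omega) (Or.inl le_rfl)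
  have hb' : vx Γ p m b ∉ rV Γ p a b := (run_vx h hp hr).2 b hle (Or.inr le_rfl)
  have hph : ∀ x (hx' : x ∉ rV Γ p a b), cphi Γ p m a b ha x = ⟨x, hx'⟩ := fun x hx' => by
    unfold cphi
    rw [dif_neg hx']
  have hva : vx Γ p m a = Γ.st (p a) := (Mk6_vx hp (by omega)).1
  have hin : ∀ s, a < s → s < b → Γ.st (p s) ∈ rV Γ p a b := fun s h1 h2 =>
    Finset.mem_image.2 ⟨s, Finset.mem_Ioo.2 ⟨h1, h2⟩, rfl⟩
  have hci : ∀ s, a < s → s < b → cphi Γ p m a b ha (Γ.st (p s)) = ⟨vx Γ p m a, ha⟩ :=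
    fun s h1 h2 => by
      unfold cphi
      rw [dif_pos (hin s h1 h2)]
  have hst : ∀ t, a ≤ t → t < b → cphi Γ p m a b ha (Γ.st (p t)) = ⟨vx Γ p m a, ha⟩ := by
    intro t hat htb
    rcases Nat.eq_or_lt_of_le hat with h0 | h0
    · subst h0
      unfold cphi
      rw [dif_neg (by rw [← hva]; exact ha)]
      exact Subtype.ext hva.symm
    · exact hci t h0 htb
  have hrun : ∀ t, a ≤ t → t < b →
      (cut Γ (rE Γ p a b) (rV Γ p a b) hout hb ⟨vx Γ p m 0, hx⟩ ⟨vx Γ p m m, hy⟩ v).P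
        (wv FreeGroup.of) (cphi Γ p m a b ha (Γ.st (p t))) (cphi Γ p m a b ha (Γ.en (p t)))
        (dv Γ (nu Γ p m a b v) (p t)) := by
    intro t hat htb
    rw [hst t hat htb, nu_run hr v t hat htb]
    by_cases ht : t = b - 1
    · rw [if_pos ht]
      have h1 : Γ.en (p t) = vx Γ p m b := by
        rw [← (Mk6_vx hp (show t < m by omega)).2, ht, show b - 1 + 1 = b by omega]
      have h2 : cphi Γ p m a b ha (Γ.en (p t)) = ⟨vx Γ p m b, hb'⟩ := by
        unfold cphi
        rw [dif_neg (by rw [h1]; exact hb')]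
        exact Subtype.ext h1
      rw [h2]
      exact cut_rnd h hp hr v hout hb hx hy ha hb'
    · rw [if_neg ht, hp.chain t (by omega), hst (t + 1) (by omega) (by omega)]
      exact P.refl _
  have hnu : ∀ e : Γ.E, e ∉ rE Γ p a b → nu Γ p m a b v e = FreeGroup.of (Γ.lab e) :=
    fun e he => nu_out hr v (e, true) he
  have hf1 : ∀ e : Γ.E, wv (FreeGroup.of : Fin n → FreeGroup (Fin n)) [(Γ.lab e, true)] =
      FreeGroup.of (Γ.lab e) := fun e => by
    simp [wv, lv]
  refine Good.of_maps hG (cphi Γ p m a b ha) (fun _ => 1) Subtype.val (fun _ => 1)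
    ?_ ?_ ?_ rfl rfl rfl ?_ ?_
  · intro e
    by_cases he : e ∈ rE Γ p a b
    · obtain ⟨t, ht, rfl⟩ := Finset.mem_image.mp he
      rw [Finset.mem_Ico] at ht
      have h1 := hrun t ht.1 ht.2
      rcases hpt : p t with ⟨e, s⟩
      rw [hpt] at h1
      cases s
      · refine P.congr h1.symm ?_
        simp [dv, lab2]
      · refine P.congr h1 ?_
        simp [dv, lab2]
    · obtain ⟨h1, h2⟩ := hout e he
      have h3 := P.edge (f := wv FreeGroup.of) (Γ := cut Γ (rE Γ p a b) (rV Γ p a b) hout hb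
        ⟨vx Γ p m 0, hx⟩ ⟨vx Γ p m m, hy⟩ v) (some ⟨e, he⟩)
      have h4 : cphi Γ p m a b ha ((lab2 Γ (nu Γ p m a b v)).src e) = ⟨Γ.src e, h1⟩ := hph _ h1
      have h5 : cphi Γ p m a b ha ((lab2 Γ (nu Γ p m a b v)).tgt e) = ⟨Γ.tgt e, h2⟩ := hph _ h2
      rw [h4, h5]
      refine P.congr h3 ?_
      rw [one_mul, inv_one, mul_one]
      exact (hf1 e).trans (hnu e he).symm
  · intro e'
    cases e' with
    | none =>
      refine P.congr (new_path h hp hr v) ?_
      rw [one_mul, inv_one, mul_one]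
      rfl
    | some e =>
      have h3 := P.edge (f := id) (Γ := lab2 Γ (nu Γ p m a b v)) e.1
      refine P.congr h3 ?_
      rw [one_mul, inv_one, mul_one]
      exact (hnu e.1 e.2).trans (hf1 e.1).symm
  · exact hph _ hb
  · intro v'
    refine ⟨v'.1, 1, ?_⟩
    rw [hph v'.1 v'.2]
    exact P.refl _
  · have h1 := cut_card_E Γ (rE Γ p a b) (rV Γ p a b) hout hb ⟨vx Γ p m 0, hx⟩
      ⟨vx Γ p m m, hy⟩ v
    have h2 := cut_card_V Γ (rE Γ p a b) (rV Γ p a b) hout hb ⟨vx Γ p m 0, hx⟩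
      ⟨vx Γ p m m, hy⟩ v
    rw [rE_card hr] at h1
    rw [rV_card h hp hr] at h2
    have h3 := h.good.rank
    omega

end Pool.Agent.Helper32.OR2
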