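import Pool.Agent.Helper32.OR2.Mk3
import Pool.Agent.Helper32.OR2.Mk4
import Pool.Agent.Helper32.OR2.Mk6

/-!
Marked surgery (project OR2, MP_d4e3d0_lc).
-/

namespace Pool.Agent.Helper32.OR2

open Pool.Agent.Helper22.OR Pool.Agent.Helper22.OR.Gr

variable {n k : ℕ} {G : Type} [Group G]

/-- Surgery for marked graphs: take the new labels `nu` (`relabel_good` gives new lifts `h'`, with the
same values in `G` by `pair_value`), `cut_good2`, `subdivide` with `f = FreeGroup.of`, and count the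
edges as in the proof of `surgery` (`Pool/Agent/Helper22/OR/Surg.lean`). -/
theorem msurgery {f : Fin n → G} {g : Fin k → G} {Γ : Gr (Fin n)} {h : Fin k → FreeGroup (Fin n)}
    (hM : MMini f g Γ h) {p : ℕ → Γ.D} {m a b : ℕ} (hp : Γ.Pth p m) (hr : IsRun Γ p m a b)
    (v : List (Letter n)) (hv0 : v ≠ []) (hv : wv f (Γ.seg p 0 m ++ v) = 1) :
    b - a ≤ v.length := by
  have hmini := hM.mini
  have hlt := hr.lt
  have hle := hr.le
  have hout : ∀ e, e ∉ rE Γ p a b → Γ.src e ∉ rV Γ p a b ∧ Γ.tgt e ∉ rV Γ p a b :=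
    run_out hmini hp hr
  obtain ⟨hb, hvx⟩ := run_vx hmini hp hr
  have hx := hvx 0 (Nat.zero_le m) (Or.inl (Nat.zero_le a))
  have hy := hvx m le_rfl (Or.inr hle)
  obtain ⟨h', hpair, hG⟩ := relabel_good hmini.folded hM.good (nu Γ p m a b v)
  have hG2 := cut_good2 hmini hp hr v hG hout hb hx hy
  obtain ⟨Γ', h2, h3⟩ := subdivide FreeGroup.of _ (Subgroup.closure (Set.range h')) k (by
    intro e
    cases e with
    | none => exact hv0
    | some e => exact List.cons_ne_nil _ _) hG2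
  have hlift : ∀ i, FreeGroup.lift f (h' i) = g i := fun i => by
    rw [pair_value f hmini hp hr v hv (hpair i)]
    exact hM.lift i
  have h4 := hM.le Γ' h' hlift h2
  have h5 := cut_sum Γ (rE Γ p a b) (rV Γ p a b) hout hb ⟨vx Γ p m 0, hx⟩
    ⟨vx Γ p m m, hy⟩ v
  rw [rE_card hr] at h5
  omega

end Pool.Agent.Helper32.OR2
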