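import Pool.Agent.Helper32.OR2.Mk1
import Pool.Agent.Helper32.OR2.Mk7
import Pool.Agent.Helper32.OR2.Gw6

/-!
Two generators: a pair of elements generates a free group, or it lifts to a generating pair of the
free group (project OR2, MP_d4e3d0_lc).
-/

namespace Pool.Agent.Helper32.OR2

open Pool.Agent.Helper22.OR Pool.Agent.Helper22.OR.Gr

variable {G : Type} [Group G]

/-- The hypotheses for two generators: `ℓ` is the length of the relations considered. -/
structure Hyp2 (f : Fin 2 → G) (L e s b ℓ : ℕ) (RR : Set (List (Letter 2))) : Prop where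
  hyp : Hyp f L e s b RR
  grow : 2 * s + 2 * (90 * (s * 8 ^ (s / 2)) + b) + 17 * e < L
  mono : e + ℓ * (s + 2 ^ s + b) < L

/-- As in `no_long` and `lift_inj` (`Pool/Agent/Helper22/OR/Long.lean`): if `w ≠ 1` is trivial in `G`
then `hyp.green` gives a subword `ρ` of length `L - e` of `w.toWord` with `ρ ++ v ∈ RR`,
`|v| = e ≥ 1`; it is read by a path `p` (`walk_of_P`, `pth_of_walk`; `hM.mini.folded`), and
`short2` with `ℓ = e` (`msurgery`, `hyp.one`) and `hyp.bad` contradict `grow`. -/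
theorem lift_inj2 {f : Fin 2 → G} {L e s b ℓ : ℕ} {RR : Set (List (Letter 2))}
    (hy : Hyp2 f L e s b ℓ RR) {g : Fin 2 → G} {Γ : Gr (Fin 2)} {h : Fin 2 → FreeGroup (Fin 2)}
    (hM : MMini f g Γ h) (hH : Subgroup.closure (Set.range h) ≠ ⊤) (w : FreeGroup (Fin 2))
    (hw : w ∈ Subgroup.closure (Set.range h)) (h1 : FreeGroup.lift f w = 1) : w = 1 := by
  by_contra hne
  obtain ⟨x, ρ, y, v, hx, hR, hv⟩ := hy.hyp.green w hne h1
  have he := hy.hyp.he
  have hw' : Γ.P FreeGroup.of Γ.base Γ.base w := by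
    rw [← hM.good.im_eq] at hw
    exact mem_im.1 hw
  obtain ⟨l, hl, hlw⟩ := walk_of_P hM.mini.folded hw'
  rw [hx] at hlw
  obtain ⟨l12, l3, rfl, h12, -⟩ := List.map_eq_append_iff.mp hlw
  obtain ⟨l1, l2, rfl, -, h2⟩ := List.map_eq_append_iff.mp h12
  obtain ⟨a, ha, -⟩ := walk_append.mp hl
  obtain ⟨b', -, hb'⟩ := walk_append.mp ha
  have hlen := hy.hyp.len _ hR
  have hgrow := hy.grow
  rw [List.length_append] at hlen
  have hρlen : l2.length = ρ.length := by rw [← h2, List.length_map]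
  have hl2 : l2 ≠ [] := by
    intro h0
    rw [h0, List.length_nil] at hρlen
    omega
  have hred : FreeGroup.IsReduced (l2.map Γ.lt) := by
    have h3 : FreeGroup.IsReduced w.toWord := FreeGroup.isReduced_toWord
    rw [hx] at h3
    rw [h2]
    have h4 : List.IsChain (fun a b : Fin 2 × Bool => a.1 = b.1 → a.2 = b.2) (x ++ ρ ++ y) := h3
    exact h4.left_of_append.right_of_append
  obtain ⟨p, hp, hs⟩ := pth_of_walk hb' hl2 hred
  have hv0 : v ≠ [] := by
    intro h0
    rw [h0, List.length_nil] at hv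
    omega
  have hs' : Γ.seg p 0 l2.length = ρ := by rw [hs, h2]
  have hℓ : ∀ a b, IsRun Γ p l2.length a b → b - a ≤ e := by
    intro a b hr
    have h6 := msurgery hM hp hr v hv0 (by rw [hs']; exact hy.hyp.one _ hR)
    rwa [hv] at h6
  have h5 := short2 hM.mini hH hp e hℓ s b hy.hyp.hs (by rw [hs']; exact hy.hyp.bad _ _ hR)
  rw [hρlen] at h5
  omega

end Pool.Agent.Helper32.OR2
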