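import Pool.Agent.Helper32.OR2.Pl1

/-!
Bijections which preserve the short two variable relations (project OR2, MP_d4e3d0_lc).
-/

namespace Pool.Agent.Helper32.OR2

open FirstOrder Pool.Agent.Helper32.OR

/-- A term without variables has the value `1` in every group. -/
private theorem Pl2_closed {β : Type*} [DecidableEq β] (t : grpLang.Term β)
    (h : t.varFinset = ∅) (G : Type) [Group G] (v : β → G) : t.realize v = 1 := by
  induction t with
  | var b =>
    simp [Language.Term.varFinset] at h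
  | @func l f ts ih =>
    have hsub : ∀ i, (ts i).varFinset = ∅ := by
      intro i
      rw [Finset.eq_empty_iff_forall_notMem] at h ⊢
      intro z hz
      apply h z
      simp only [Language.Term.varFinset, Finset.mem_biUnion, Finset.mem_univ, true_and]
      exact ⟨i, hz⟩
    have hw := fun i => ih i (hsub i)
    change GrpFun l at f
    cases f with
    | one => rfl
    | inv =>
      change ((ts 0).realize v)⁻¹ = 1
      rw [hw 0, inv_one]
    | mul =>
      change (ts 0).realize v * (ts 1).realize v = 1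
      rw [hw 0, hw 1, mul_one]

/-- A finite set with at most two elements is empty or contained in a pair. -/
private theorem Pl2_pair {β : Type*} [DecidableEq β] (s : Finset β) (h : s.card ≤ 2) :
    s = ∅ ∨ ∃ x y : β, s ⊆ {x, y} := by
  rcases s.eq_empty_or_nonempty with h0 | ⟨x, hx⟩
  · exact Or.inl h0
  · right
    have h1 : (s.erase x).card ≤ 1 := by
      rw [Finset.card_erase_of_mem hx]
      omega
    have : Nonempty β := ⟨x⟩
    obtain ⟨y, hy⟩ := Finset.card_le_one_iff_subset_singleton.1 h1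
    refine ⟨x, y, fun z hz => ?_⟩
    by_cases hzx : z = x
    · rw [hzx]
      exact Finset.mem_insert_self _ _
    · exact Finset.mem_insert_of_mem (hy (Finset.mem_erase.2 ⟨hzx, hz⟩))

/-- The case of an equation between two terms. -/
private theorem Pl2_equal {G H : Type} [Group G] [Group H] (e : G ≃ H) (ℓ : ℕ)
    (he : ∀ (a b : G) (w : FreeGroup (Fin 2)), w.norm ≤ ℓ → (FreeGroup.lift ![a, b] w = 1 ↔
      FreeGroup.lift ![e a, e b] w = 1)) {β : Type*} [DecidableEq β]
    (t₁ t₂ : grpLang.Term β) (h : (t₁.varFinset ∪ t₂.varFinset).card ≤ 2)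
    (hl : tlen t₁ + tlen t₂ ≤ ℓ) (v : β → G) :
    t₁.realize v = t₂.realize v ↔ t₁.realize (e ∘ v) = t₂.realize (e ∘ v) := by
  rcases Pl2_pair _ h with h0 | ⟨x, y, hxy⟩
  · rw [Finset.union_eq_empty] at h0
    rw [Pl2_closed t₁ h0.1, Pl2_closed t₂ h0.2, Pl2_closed t₁ h0.1, Pl2_closed t₂ h0.2]
    exact ⟨fun _ => rfl, fun _ => rfl⟩
  · obtain ⟨w₁, hw₁, h₁⟩ := exists_word_le t₁ x y (Finset.subset_union_left.trans hxy)
    obtain ⟨w₂, hw₂, h₂⟩ := exists_word_le t₂ x y (Finset.subset_union_right.trans hxy)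
    have hn : (w₁ * w₂⁻¹).norm ≤ ℓ := by
      refine (FreeGroup.norm_mul_le _ _).trans ?_
      rw [FreeGroup.norm_inv_eq]
      omega
    have h3 := he (v x) (v y) (w₁ * w₂⁻¹) hn
    rw [map_mul, map_inv, mul_inv_eq_one, map_mul, map_inv, mul_inv_eq_one] at h3
    rw [h₁, h₂, h₁, h₂]
    exact h3

/-- `realize_iff_of_equiv` of `Pool/Agent/Helper32/OR/B2.lean` for short formulas (same proof, with
`exists_word_le`; the word `w₁ * w₂⁻¹` has length at most `tlen t₁ + tlen t₂`). -/
theorem realize_iff_short {G H : Type} [Group G] [Group H] (e : G ≃ H) (ℓ : ℕ)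
    (he : ∀ (a b : G) (w : FreeGroup (Fin 2)), w.norm ≤ ℓ → (FreeGroup.lift ![a, b] w = 1 ↔
      FreeGroup.lift ![e a, e b] w = 1)) {α : Type*} [DecidableEq α] {k : ℕ}
    (φ : grpLang.BoundedFormula α k) (hφ : TwoVar φ) (hs : Short ℓ φ) (v : α → G)
    (xs : Fin k → G) : φ.Realize v xs ↔ φ.Realize (e ∘ v) (e ∘ xs) := by
  induction φ with
  | falsum => exact Iff.rfl
  | equal t₁ t₂ =>
    change t₁.realize (Sum.elim v xs) = t₂.realize (Sum.elim v xs) ↔
      t₁.realize (Sum.elim (e ∘ v) (e ∘ xs)) = t₂.realize (Sum.elim (e ∘ v) (e ∘ xs))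
    rw [← Sum.comp_elim]
    exact Pl2_equal e ℓ he t₁ t₂ hφ hs _
  | rel R ts => exact R.elim
  | imp φ ψ ih₁ ih₂ =>
    rw [Language.BoundedFormula.realize_imp, Language.BoundedFormula.realize_imp]
    exact imp_congr (ih₁ hφ.1 hs.1 xs) (ih₂ hφ.2 hs.2 xs)
  | all φ ih =>
    rw [Language.BoundedFormula.realize_all, Language.BoundedFormula.realize_all]
    constructor
    · intro h b
      have h1 := (ih hφ hs (Fin.snoc xs (e.symm b))).1 (h (e.symm b))
      rw [Fin.comp_snoc, e.apply_symm_apply] at h1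
      exact h1
    · intro h a
      rw [ih hφ hs (Fin.snoc xs a), Fin.comp_snoc]
      exact h (e a)

theorem sentence_iff_short {G H : Type} [Group G] [Group H] (e : G ≃ H) (ℓ : ℕ)
    (he : ∀ (a b : G) (w : FreeGroup (Fin 2)), w.norm ≤ ℓ → (FreeGroup.lift ![a, b] w = 1 ↔
      FreeGroup.lift ![e a, e b] w = 1)) (φ : grpLang.Sentence) (hφ : TwoVar φ) (hs : Short ℓ φ) :
    G ⊨ φ ↔ H ⊨ φ := by
  have h := realize_iff_short e ℓ he φ hφ hs (default : Empty → G) (default : Fin 0 → G)
  have h1 : e ∘ (default : Empty → G) = default := Subsingleton.elim _ _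
  have h2 : e ∘ (default : Fin 0 → G) = default := Subsingleton.elim _ _
  rw [h1, h2] at h
  exact h

end Pool.Agent.Helper32.OR2
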