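import Pool.Agent.Helper32.OR2.PlDefs

/-!
Bijections which preserve the short two variable relations (project OR2, MP_d4e3d0_lc).
-/

namespace Pool.Agent.Helper32.OR2

open FirstOrder Pool.Agent.Helper32.OR

/-- If `a * b ^ k` and `a * b ^ (k + m)` commute, then `m = 0`. -/
private theorem Pl3_aux {ℓ : ℕ} {G : Type} [Group G] (h : PairsL ℓ G) {a b : G} (hab : a * b ≠ b * a)
    (k m : ℕ) (hc : (a * b ^ k) * (a * b ^ (k + m)) = (a * b ^ (k + m)) * (a * b ^ k)) :
    m = 0 := by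
  by_contra hm
  have hb : b ≠ 1 := by
    rintro rfl
    exact hab (by rw [mul_one, one_mul])
  have hbm : b ^ m ≠ 1 := by
    intro h1
    have h2 : b ^ (m : ℤ) = 1 := by rw [zpow_natCast, h1]
    rcases h.tf b m h2 with h3 | h3
    · exact hm (by exact_mod_cast h3)
    · exact hb h3
  obtain ⟨u, -, hu⟩ := h.cen (b ^ m) hbm
  have h1 : b ∈ Subgroup.zpowers u := (hu b).1 (by rw [← pow_succ, ← pow_succ'])
  have h2 : a * b ^ k ∈ Subgroup.zpowers u := by
    refine (hu _).1 ?_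
    have e : a * b ^ (k + m) = (a * b ^ k) * b ^ m := by rw [pow_add, mul_assoc]
    rw [e] at hc
    have h3 : (a * b ^ k) * ((a * b ^ k) * b ^ m) = (a * b ^ k) * (b ^ m * (a * b ^ k)) := by
      rw [hc, mul_assoc]
    exact (mul_left_cancel h3).symm
  obtain ⟨i, hi⟩ := Subgroup.mem_zpowers_iff.1 h1
  obtain ⟨j, hj⟩ := Subgroup.mem_zpowers_iff.1 h2
  have h4 : (a * b ^ k) * b = b * (a * b ^ k) := by
    have h5 : u ^ j * u ^ i = u ^ i * u ^ j := by rw [← zpow_add, ← zpow_add, add_comm]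
    rw [hi, hj] at h5
    exact h5
  apply hab
  have h6 : a * b * b ^ k = b * a * b ^ k := by
    calc a * b * b ^ k = a * b ^ k * b := by rw [mul_assoc, ← pow_succ', pow_succ, ← mul_assoc]
      _ = b * (a * b ^ k) := h4
      _ = b * a * b ^ k := by rw [mul_assoc]
  exact mul_right_cancel h6

/-- Infinitely many centralizers, as in `Pool/Agent/Helper32/OR/St2.lean`. -/
theorem PairsL.infinite_centralizers {ℓ : ℕ} {G : Type} [Group G] (h : PairsL ℓ G) :
    Set.Infinite {C : Subgroup G | ∃ a : G, a ≠ 1 ∧ C = Subgroup.centralizer {a}} := by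
  obtain ⟨a, b, hab⟩ := h.noncomm
  have key : ∀ k l : ℕ, k ≤ l →
      Subgroup.centralizer {a * b ^ k} = Subgroup.centralizer {a * b ^ l} → k = l := by
    intro k l hkl he
    obtain ⟨m, rfl⟩ := Nat.exists_eq_add_of_le hkl
    have h1 : a * b ^ k ∈ Subgroup.centralizer {a * b ^ (k + m)} := by
      rw [← he, Subgroup.mem_centralizer_singleton_iff]
    rw [Subgroup.mem_centralizer_singleton_iff] at h1
    have h2 := Pl3_aux h hab k m h1
    omega
  refine Set.infinite_of_injective_forall_mem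
    (f := fun k : ℕ => Subgroup.centralizer ({a * b ^ k} : Set G)) ?_ ?_
  · intro k l hkl
    rcases le_total k l with h1 | h1
    · exact key k l h1 hkl
    · exact (key l k h1 hkl.symm).symm
  · intro k
    refine ⟨a * b ^ k, ?_, rfl⟩
    intro h1
    apply hab
    have h2 : a = (b ^ k)⁻¹ := eq_inv_of_mul_eq_one_left h1
    rw [h2]
    exact ((Commute.refl b).pow_left k).inv_left

/-- The set of the centralizers of nontrivial elements. -/
private def Pl3_C (G : Type) [Group G] : Set (Subgroup G) :=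
  {C : Subgroup G | ∃ a : G, a ≠ 1 ∧ C = Subgroup.centralizer {a}}

private theorem Pl3_gen {ℓ : ℕ} {G : Type} [Group G] (h : PairsL ℓ G) (C : Pl3_C G) :
    ∃ u : G, u ≠ 1 ∧ (C : Subgroup G) = Subgroup.zpowers u := by
  obtain ⟨C, a, ha, rfl⟩ := C
  obtain ⟨u, hu, hx⟩ := h.cen a ha
  refine ⟨u, hu, ?_⟩
  ext x
  rw [← hx x]
  show x ∈ Subgroup.centralizer {a} ↔ _
  rw [Subgroup.mem_centralizer_iff]
  simp

private theorem Pl3_sub {ℓ : ℕ} {G : Type} [Group G] (h : PairsL ℓ G) {a b : G} (ha : a ≠ 1)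
    (hab : a * b = b * a) (x : G) (hx : a * x = x * a) : b * x = x * b := by
  obtain ⟨u, _, hc⟩ := h.cen a ha
  obtain ⟨i, hi⟩ := (hc b).1 hab
  obtain ⟨j, hj⟩ := (hc x).1 hx
  simp only at hi hj
  rw [← hi, ← hj, ← zpow_add, ← zpow_add, add_comm]

private theorem Pl3_cent_eq {ℓ : ℕ} {G : Type} [Group G] (h : PairsL ℓ G) {a b : G} (ha : a ≠ 1)
    (hb : b ≠ 1) (hab : a * b = b * a) :
    Subgroup.centralizer {a} = Subgroup.centralizer {b} := by
  ext x
  rw [Subgroup.mem_centralizer_iff, Subgroup.mem_centralizer_iff]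
  simp only [Set.mem_singleton_iff, forall_eq]
  exact ⟨Pl3_sub h ha hab x, Pl3_sub h hb hab.symm x⟩

/-- The chosen generator of a centralizer. -/
private noncomputable def Pl3_u {ℓ : ℕ} {G : Type} [Group G] (h : PairsL ℓ G) (C : Pl3_C G) : G :=
  (Pl3_gen h C).choose

private theorem Pl3_u_ne {ℓ : ℕ} {G : Type} [Group G] (h : PairsL ℓ G) (C : Pl3_C G) : Pl3_u h C ≠ 1 :=
  (Pl3_gen h C).choose_spec.1

private theorem Pl3_u_eq {ℓ : ℕ} {G : Type} [Group G] (h : PairsL ℓ G) (C : Pl3_C G) :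
    (C : Subgroup G) = Subgroup.zpowers (Pl3_u h C) :=
  (Pl3_gen h C).choose_spec.2

private theorem Pl3_pow {ℓ : ℕ} {G : Type} [Group G] (h : PairsL ℓ G) (C : Pl3_C G) (k : ℤ) :
    Pl3_u h C ^ k = 1 ↔ k = 0 := by
  constructor
  · intro hk
    exact (h.tf _ _ hk).resolve_right (Pl3_u_ne h C)
  · rintro rfl
    exact zpow_zero _

/-- Elements of the group in terms of generators and exponents. -/
private noncomputable def Pl3_P {ℓ : ℕ} {G : Type} [Group G] (h : PairsL ℓ G) :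
    Option (Pl3_C G × {i : ℤ // i ≠ 0}) → G
  | none => 1
  | some (C, i) => Pl3_u h C ^ (i : ℤ)

private theorem Pl3_cent {ℓ : ℕ} {G : Type} [Group G] (h : PairsL ℓ G) (C : Pl3_C G) (i : ℤ) (hi : i ≠ 0) :
    (C : Subgroup G) = Subgroup.centralizer {Pl3_u h C ^ i} := by
  have h1 : Pl3_u h C ^ i ≠ 1 := fun hh => hi ((Pl3_pow h C i).1 hh)
  have h2 := Pl3_u_eq h C
  obtain ⟨a, ha, hC⟩ := C.2
  have h3 : Pl3_u h C ^ i ∈ (C : Subgroup G) := by
    rw [h2]
    exact Subgroup.zpow_mem_zpowers _ _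
  rw [hC, Subgroup.mem_centralizer_iff] at h3
  have h4 := h3 a rfl
  conv_lhs => rw [hC]
  exact Pl3_cent_eq h ha h1 h4

private theorem Pl3_comm {ℓ : ℕ} {G : Type} [Group G] (h : PairsL ℓ G) (C D : Pl3_C G) (i j : ℤ)
    (hi : i ≠ 0) (hj : j ≠ 0)
    (hc : Pl3_u h C ^ i * Pl3_u h D ^ j = Pl3_u h D ^ j * Pl3_u h C ^ i) : C = D := by
  have h1 : Pl3_u h C ^ i ≠ 1 := fun hh => hi ((Pl3_pow h C i).1 hh)
  have h2 : Pl3_u h D ^ j ≠ 1 := fun hh => hj ((Pl3_pow h D j).1 hh)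
  apply Subtype.ext
  rw [Pl3_cent h C i hi, Pl3_cent h D j hj]
  exact Pl3_cent_eq h h1 h2 hc

private theorem Pl3_bij {ℓ : ℕ} {G : Type} [Group G] (h : PairsL ℓ G) : Function.Bijective (Pl3_P h) := by
  constructor
  · rintro (_ | ⟨C, i, hi⟩) (_ | ⟨D, j, hj⟩) hh
    · rfl
    · exact absurd ((Pl3_pow h D j).1 hh.symm) hj
    · exact absurd ((Pl3_pow h C i).1 hh) hi
    · have hh' : Pl3_u h C ^ i = Pl3_u h D ^ j := hh
      have hCD : C = D := Pl3_comm h C D i j hi hj (by rw [hh'])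
      subst hCD
      have h3 : Pl3_u h C ^ (i - j) = 1 := by rw [zpow_sub, hh', mul_inv_cancel]
      have h4 := (Pl3_pow h C _).1 h3
      have h5 : i = j := by omega
      subst h5
      rfl
  · intro x
    by_cases hx : x = 1
    · exact ⟨none, hx.symm⟩
    · have h0 : (Subgroup.centralizer {x} : Subgroup G) ∈ Pl3_C G := ⟨x, hx, rfl⟩
      have h1 : x ∈ ((⟨Subgroup.centralizer {x}, h0⟩ : Pl3_C G) : Subgroup G) := by
        show x ∈ Subgroup.centralizer {x}
        rw [Subgroup.mem_centralizer_iff]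
        simp
      rw [Pl3_u_eq h] at h1
      obtain ⟨i, hi⟩ := h1
      simp only at hi
      refine ⟨some (⟨Subgroup.centralizer {x}, h0⟩, ⟨i, ?_⟩), hi⟩
      rintro rfl
      rw [zpow_zero] at hi
      exact hx hi.symm

private theorem Pl3_same {ℓ : ℕ} {G H : Type} [Group G] [Group H] (hG : PairsL ℓ G) (hH : PairsL ℓ H)
    (C : Pl3_C G) (D : Pl3_C H) (i j : ℤ) (w : FreeGroup (Fin 2)) :
    FreeGroup.lift ![Pl3_u hG C ^ i, Pl3_u hG C ^ j] w = 1 ↔
      FreeGroup.lift ![Pl3_u hH D ^ i, Pl3_u hH D ^ j] w = 1 := by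
  obtain ⟨α, β, hw⟩ := lift_zpow w
  rw [hw G, hw H, Pl3_pow, Pl3_pow]

private theorem Pl3_noncomm {ℓ : ℕ} {G : Type} [Group G] (hG : PairsL ℓ G) (a b : G)
    (hab : a * b ≠ b * a) (w : FreeGroup (Fin 2)) (hl : w.norm ≤ ℓ) :
    FreeGroup.lift ![a, b] w = 1 ↔ w = 1 := by
  constructor
  · intro h1
    by_contra hw
    exact hab (hG.rel a b w hw hl h1)
  · rintro rfl
    exact map_one _

private theorem Pl3_countable {G : Type} [Group G] [Countable G] : (Pl3_C G).Countable := by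
  have h1 : Pl3_C G ⊆ Set.range (fun a : G => (Subgroup.centralizer {a} : Subgroup G)) := by
    rintro C ⟨a, _, rfl⟩
    exact ⟨a, rfl⟩
  exact (Set.countable_range _).mono h1

/-- The bijection between the centralizers. -/
private theorem Pl3_E {ℓ : ℕ} {G H : Type} [Group G] [Group H] [Countable G] [Countable H]
    (hG : PairsL ℓ G) (hH : PairsL ℓ H) : Nonempty (Pl3_C G ≃ Pl3_C H) := by
  have i1 : Infinite (Pl3_C G) := (hG.infinite_centralizers).to_subtype
  have i2 : Infinite (Pl3_C H) := (hH.infinite_centralizers).to_subtype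
  have c1 : Countable (Pl3_C G) := Pl3_countable.to_subtype
  have c2 : Countable (Pl3_C H) := Pl3_countable.to_subtype
  obtain ⟨d1⟩ := nonempty_denumerable (Pl3_C G)
  obtain ⟨d2⟩ := nonempty_denumerable (Pl3_C H)
  exact ⟨Denumerable.equiv₂ _ _⟩

private theorem Pl3_main {ℓ : ℕ} {G H : Type} [Group G] [Group H] (hG : PairsL ℓ G) (hH : PairsL ℓ H)
    (E : Pl3_C G ≃ Pl3_C H) (o p : Option (Pl3_C G × {i : ℤ // i ≠ 0})) (w : FreeGroup (Fin 2))
    (hl : w.norm ≤ ℓ) :
    FreeGroup.lift ![Pl3_P hG o, Pl3_P hG p] w = 1 ↔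
      FreeGroup.lift ![Pl3_P hH (o.map (Prod.map E id)), Pl3_P hH (p.map (Prod.map E id))] w
        = 1 := by
  obtain ⟨C0⟩ : Nonempty (Pl3_C G) := by
    obtain ⟨a, b, hab⟩ := hG.noncomm
    have ha : a ≠ 1 := by
      rintro rfl
      exact hab (by rw [one_mul, mul_one])
    exact ⟨⟨_, a, ha, rfl⟩⟩
  rcases o with _ | ⟨C, i, hi⟩ <;> rcases p with _ | ⟨D, j, hj⟩
  · have := Pl3_same hG hH C0 (E C0) 0 0 w
    rw [zpow_zero, zpow_zero] at this
    exact this
  · have := Pl3_same hG hH D (E D) 0 j w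
    rw [zpow_zero, zpow_zero] at this
    exact this
  · have := Pl3_same hG hH C (E C) i 0 w
    rw [zpow_zero, zpow_zero] at this
    exact this
  · by_cases hCD : C = D
    · subst hCD
      exact Pl3_same hG hH C (E C) i j w
    · have h1 := Pl3_noncomm hG (Pl3_P hG (some (C, ⟨i, hi⟩))) (Pl3_P hG (some (D, ⟨j, hj⟩)))
        (fun hh => hCD (Pl3_comm hG C D i j hi hj hh)) w hl
      have h2 := Pl3_noncomm hH (Pl3_P hH (some (E C, ⟨i, hi⟩))) (Pl3_P hH (some (E D, ⟨j, hj⟩)))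
        (fun hh => hCD (E.injective (Pl3_comm hH (E C) (E D) i j hi hj hh))) w hl
      exact h1.trans h2.symm

/-- Same proof as `Pairs.exists_equiv` (`Pool/Agent/Helper32/OR/St2.lean`, `St4.lean`, which use `rel`
only for two elements that do not commute). -/
theorem PairsL.exists_equiv {G H : Type} [Group G] [Group H] [Countable G] [Countable H] {ℓ : ℕ}
    (hG : PairsL ℓ G) (hH : PairsL ℓ H) : ∃ e : G ≃ H, ∀ (a b : G) (w : FreeGroup (Fin 2)),
      w.norm ≤ ℓ → (FreeGroup.lift ![a, b] w = 1 ↔ FreeGroup.lift ![e a, e b] w = 1) := by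
  obtain ⟨E⟩ := Pl3_E hG hH
  let PG := Equiv.ofBijective _ (Pl3_bij hG)
  let PH := Equiv.ofBijective _ (Pl3_bij hH)
  let M : Option (Pl3_C G × {i : ℤ // i ≠ 0}) ≃ Option (Pl3_C H × {i : ℤ // i ≠ 0}) :=
    Equiv.optionCongr (Equiv.prodCongr E (Equiv.refl _))
  refine ⟨(PG.symm.trans M).trans PH, fun a b w hl => ?_⟩
  obtain ⟨o, rfl⟩ := PG.surjective a
  obtain ⟨p, rfl⟩ := PG.surjective b
  have h1 : ∀ q, ((PG.symm.trans M).trans PH) (PG q) = Pl3_P hH (q.map (Prod.map E id)) := by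
    intro q
    simp only [Equiv.trans_apply, Equiv.symm_apply_apply]
    rcases q with _ | ⟨C, i⟩ <;> rfl
  rw [h1, h1]
  exact Pl3_main hG hH E o p w hl

end Pool.Agent.Helper32.OR2
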