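import Pool.Agent.Helper32.OR2.Pl4

/-!
The one-relator group with two generators has the properties `PairsL` (project OR2, MP_d4e3d0_lc).
-/

namespace Pool.Agent.Helper32.OR2

open Pool.Agent.Helper22.OR Pool.Agent.Helper32.OR

variable {G : Type} [Group G]

private theorem Pl5_pow (i j : ℤ)
    (h : (FreeGroup.of 0 : FreeGroup (Fin 2)) ^ i = (FreeGroup.of 1) ^ j) : i = 0 := by
  have h1 := congrArg (FreeGroup.lift ![Multiplicative.ofAdd (1 : ℤ), 1]) h
  rw [map_zpow, map_zpow, FreeGroup.lift_apply_of, FreeGroup.lift_apply_of] at h1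
  simp only [Matrix.cons_val_zero, Matrix.cons_val_one, _root_.one_zpow] at h1
  have h2 := congrArg Multiplicative.toAdd h1
  simpa using h2

private theorem Pl5_comm {x y : G} (h : x * y = y * x) : ∀ p q : G,
    p ∈ Subgroup.closure {x, y} → q ∈ Subgroup.closure {x, y} → p * q = q * p := by
  intro p q hp hq
  have hcen : Subgroup.closure ({x, y} : Set G) ≤ Subgroup.centralizer {x, y} := by
    rw [Subgroup.closure_le]
    rintro z (rfl | hz)
    · rintro w (rfl | hw)
      · rfl
      · rw [Set.mem_singleton_iff] at hw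
        subst hw
        exact h.symm
    · rw [Set.mem_singleton_iff] at hz
      subst hz
      rintro w (rfl | hw)
      · exact h
      · rw [Set.mem_singleton_iff] at hw
        subst hw
        rfl
  exact Subgroup.closure_le_centralizer_centralizer _ hq p (hcen hp)

/-- Two commuting elements generate a cyclic group: `trichotomy`; they are not free generators; in the
third case `x` and `y` generate `G` (`hy.hyp.surj`), which is not abelian (`noncomm`). -/
theorem cyclic_of_comm {f : Fin 2 → G} {L e s b ℓ : ℕ} {RR : Set (List (Letter 2))}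
    (hy : Hyp2 f L e s b ℓ RR) (x y : G) (h : x * y = y * x) :
    ∃ z : G, Subgroup.closure {x, y} = Subgroup.zpowers z := by
  rcases trichotomy hy x y with h1 | h1 | ⟨g, hg, h0, h1⟩
  · exact h1
  · exfalso
    have h2 : (FreeGroup.of 0 : FreeGroup (Fin 2)) * FreeGroup.of 1 =
        FreeGroup.of 1 * FreeGroup.of 0 := by
      apply h1
      rw [map_mul, map_mul, FreeGroup.lift_apply_of, FreeGroup.lift_apply_of]
      exact h
    have h3 := congrArg FreeGroup.toWord h2
    rw [FreeGroup.toWord_mul, FreeGroup.toWord_mul, FreeGroup.toWord_of, FreeGroup.toWord_of] at h3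
    revert h3
    decide
  · exfalso
    obtain ⟨p, q, hpq⟩ := noncomm hy.hyp le_rfl
    apply hpq
    have hall : ∀ p : G, p ∈ Subgroup.closure {x, y} := by
      intro p
      obtain ⟨w, rfl⟩ := hy.hyp.surj p
      have hw : w ∈ Subgroup.closure (Set.range g) := by
        rw [hg]
        exact Subgroup.mem_top w
      have hm : FreeGroup.lift f w ∈ (Subgroup.closure (Set.range g)).map (FreeGroup.lift f) :=
        ⟨w, hw, rfl⟩
      rw [MonoidHom.map_closure] at hm
      refine Subgroup.closure_mono ?_ hm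
      rintro _ ⟨_, ⟨i, rfl⟩, rfl⟩
      fin_cases i
      · exact Or.inl h0
      · exact Or.inr h1
    exact Pl5_comm h p q (hall p) (hall q)

/-- `⟨a, x⟩ = ⟨z⟩`, `⟨a, y⟩ = ⟨z'⟩` (`cyclic_of_comm`), `a = z ^ i = z' ^ j` with `i, j ≠ 0`. By
`trichotomy` for `z`, `z'`: they are not free generators, and they do not lift to a generating pair by
`no_two`; so they generate a cyclic group. -/
theorem comm_trans {f : Fin 2 → G} {L e s b ℓ : ℕ} {RR : Set (List (Letter 2))}
    (hy : Hyp2 f L e s b ℓ RR) (hℓ : 2 ≤ ℓ) (a x y : G) (ha : a ≠ 1) (hx : a * x = x * a)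
    (hy' : a * y = y * a) : x * y = y * x := by
  obtain ⟨z, hz⟩ := cyclic_of_comm hy a x hx
  obtain ⟨z', hz'⟩ := cyclic_of_comm hy a y hy'
  have az : a ∈ Subgroup.zpowers z := hz ▸ Subgroup.subset_closure (Or.inl rfl)
  have az' : a ∈ Subgroup.zpowers z' := hz' ▸ Subgroup.subset_closure (Or.inl rfl)
  have xz : x ∈ Subgroup.zpowers z := hz ▸ Subgroup.subset_closure (Or.inr rfl)
  have yz' : y ∈ Subgroup.zpowers z' := hz' ▸ Subgroup.subset_closure (Or.inr rfl)
  obtain ⟨i, hi⟩ := Subgroup.mem_zpowers_iff.1 az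
  obtain ⟨j, hj⟩ := Subgroup.mem_zpowers_iff.1 az'
  have hi0 : i ≠ 0 := by
    rintro rfl
    exact ha (by rw [← hi, zpow_zero])
  rcases trichotomy hy z z' with ⟨w, hw⟩ | h1 | ⟨g, hg, h0, h1⟩
  · have h2 : Subgroup.zpowers z ≤ Subgroup.zpowers w := by
      rw [← hw, Subgroup.zpowers_le]
      exact Subgroup.subset_closure (Or.inl rfl)
    have h3 : Subgroup.zpowers z' ≤ Subgroup.zpowers w := by
      rw [← hw, Subgroup.zpowers_le]
      exact Subgroup.subset_closure (Or.inr rfl)
    obtain ⟨p, hp⟩ := Subgroup.mem_zpowers_iff.1 (h2 xz)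
    obtain ⟨q, hq⟩ := Subgroup.mem_zpowers_iff.1 (h3 yz')
    rw [← hp, ← hq, ← zpow_add, ← zpow_add, add_comm]
  · exfalso
    apply hi0
    apply Pl5_pow i j
    apply h1
    rw [map_zpow, map_zpow, FreeGroup.lift_apply_of, FreeGroup.lift_apply_of]
    exact hi.trans hj.symm
  · exfalso
    apply no_two hy hℓ hg i j hi0
    rw [h0, h1]
    exact hi.trans hj.symm

/-- As `pairs_cen` (`Pool/Agent/Helper22/OR/Out.lean`): let `⟨u⟩ ∋ a` be a maximal cyclic subgroup
(`maximal` with `k = 1`, `n = 2`). If `x` commutes with `a` then so does `u`, so `x`, `u` commute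
(`comm_trans`) and generate a cyclic group containing `⟨u⟩`, hence equal to it. -/
theorem pairsL_cen {f : Fin 2 → G} {L e s b ℓ : ℕ} {RR : Set (List (Letter 2))}
    (hy : Hyp2 f L e s b ℓ RR) (hℓ : 2 ≤ ℓ) (a : G) (ha : a ≠ 1) :
    ∃ u : G, u ≠ 1 ∧ ∀ x : G, a * x = x * a ↔ x ∈ Subgroup.zpowers u := by
  obtain ⟨M, hM, haM, hmax⟩ := maximal hy.hyp (k := 1) (by omega) (Subgroup.closure {a})
    ⟨fun _ => a, by rw [Set.range_const]⟩
  obtain ⟨g, hg⟩ := hM
  have hone : ∀ w : G, Gen 1 (Subgroup.zpowers w) := by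
    intro w
    refine ⟨fun _ => w, ?_⟩
    rw [Set.range_const, Subgroup.zpowers_eq_closure]
  have hMu : M = Subgroup.zpowers (g 0) := by
    rw [← hg, Subgroup.zpowers_eq_closure]
    congr 1
    ext y
    constructor
    · rintro ⟨i, rfl⟩
      rw [Subsingleton.elim i 0]
      rfl
    · intro hy'
      exact ⟨0, hy'.symm⟩
  have haz : a ∈ Subgroup.zpowers (g 0) := by
    rw [← hMu]
    exact haM (Subgroup.subset_closure rfl)
  obtain ⟨p, hp⟩ := Subgroup.mem_zpowers_iff.1 haz
  refine ⟨g 0, ?_, fun x => ⟨fun hx => ?_, fun hx => ?_⟩⟩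
  · intro h1
    apply ha
    rw [← hp, h1, _root_.one_zpow]
  · have hau : a * g 0 = g 0 * a := by
      rw [← hp, ← zpow_add_one, ← zpow_one_add, add_comm]
    obtain ⟨w, hw⟩ := cyclic_of_comm hy (g 0) x (comm_trans hy hℓ a (g 0) x ha hau hx)
    have h1 : M ≤ Subgroup.zpowers w := by
      rw [hMu, ← hw, Subgroup.zpowers_le]
      exact Subgroup.subset_closure (Or.inl rfl)
    have h2 := hmax _ (hone w) h1
    rw [← hMu, ← h2, ← hw]
    exact Subgroup.subset_closure (Or.inr rfl)
  · obtain ⟨q, rfl⟩ := Subgroup.mem_zpowers_iff.1 hx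
    rw [← hp, ← zpow_add, ← zpow_add, add_comm]

theorem pairsL_of_hyp2 {f : Fin 2 → G} {L e s b ℓ : ℕ} {RR : Set (List (Letter 2))}
    (hy : Hyp2 f L e s b ℓ RR) (hℓ : 2 ≤ ℓ) : PairsL ℓ G :=
  ⟨pairsL_rel hy, pairsL_tf hy.hyp, pairsL_cen hy hℓ, noncomm hy.hyp le_rfl⟩

end Pool.Agent.Helper32.OR2
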