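import Pool.Agent.Helper32.OR2.Cn3
import Pool.Agent.Helper32.OR2.Pl2
import Pool.Agent.Helper32.OR2.Pl3
import Pool.Agent.Helper32.OR2.Pl5

/-!
Assembly: random one-relator groups with two generators (project OR2, MP_d4e3d0_lc).
-/

namespace Pool.Agent.Helper32.OR2

open FreeGroup Filter FirstOrder Pool.Agent.Helper22.OR Pool.Agent.Helper32.OR

private theorem Fin2_pow {s : ℕ} (hs : 1 ≤ s) : 2 ^ s ≤ 2 * (s * 8 ^ (s / 2)) := by
  have h1 : s ≤ 2 * (s / 2) + 1 := by omega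
  calc 2 ^ s ≤ 2 ^ (2 * (s / 2) + 1) := Nat.pow_le_pow_right (by norm_num) h1
    _ = 2 * 4 ^ (s / 2) := by rw [pow_succ, pow_mul]; norm_num; ring
    _ ≤ 2 * 8 ^ (s / 2) := Nat.mul_le_mul_left _ (Nat.pow_le_pow_left (by norm_num) _)
    _ ≤ 2 * (s * 8 ^ (s / 2)) := Nat.mul_le_mul_left _ (Nat.le_mul_of_pos_left _ hs)

private theorem Fin2_grow {ℓ K s l0 L b X : ℕ} (hK : 1000 * (ℓ + 1) ≤ K) (hL0 : 0 < L)
    (hs : K * s ≤ L) (hl : K * l0 ≤ L) (hl0 : 1 ≤ l0) (hb : K * b ≤ L) (hX : K * X ≤ L) :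
    2 * s + 2 * (90 * X + b) + 17 * (3 * l0 + 2) < L := by
  refine lt_of_mul_lt_mul_left (a := K) ?_ (Nat.zero_le K)
  have h1 : 1000 * L ≤ K * L := Nat.mul_le_mul_right _ (by omega)
  have h2 : K ≤ K * l0 := Nat.le_mul_of_pos_right _ hl0
  calc K * (2 * s + 2 * (90 * X + b) + 17 * (3 * l0 + 2))
      = 2 * (K * s) + 180 * (K * X) + 2 * (K * b) + 51 * (K * l0) + 34 * K := by ring
    _ < 1000 * L := by omega
    _ ≤ K * L := h1

private theorem Fin2_mono {ℓ K s l0 L b X : ℕ} (hK : 1000 * (ℓ + 1) ≤ K) (hL0 : 0 < L)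
    (hs : K * s ≤ L) (hl : K * l0 ≤ L) (hl0 : 1 ≤ l0) (hb : K * b ≤ L) (hX : K * X ≤ L)
    (h2 : 2 ^ s ≤ 2 * X) : 3 * l0 + 2 + ℓ * (s + 2 ^ s + b) < L := by
  refine lt_of_mul_lt_mul_left (a := K) ?_ (Nat.zero_le K)
  have h1 : 1000 * (ℓ + 1) * L ≤ K * L := Nat.mul_le_mul_right _ hK
  have h3 : K ≤ K * l0 := Nat.le_mul_of_pos_right _ hl0
  have h4 : K * (s + 2 ^ s + b) ≤ 4 * L := by
    calc K * (s + 2 ^ s + b) ≤ K * (s + 2 * X + b) := Nat.mul_le_mul_left _ (by omega)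
      _ = K * s + 2 * (K * X) + K * b := by ring
      _ ≤ 4 * L := by omega
  have h5 : ℓ * (K * (s + 2 ^ s + b)) ≤ ℓ * (4 * L) := Nat.mul_le_mul_left _ h4
  calc K * (3 * l0 + 2 + ℓ * (s + 2 ^ s + b))
      = 3 * (K * l0) + 2 * K + ℓ * (K * (s + 2 ^ s + b)) := by ring
    _ ≤ 5 * L + ℓ * (4 * L) := by omega
    _ < 1000 * (ℓ + 1) * L := by nlinarith
    _ ≤ K * L := h1

/-- `hyp_of_goodRel` gives `hyp` with `L = c.length`, `e = 3 * l0 + 2`, `b = c.length / K`; the numerical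
conditions follow if `K` is large (`K = 1000 * (ℓ + 1)` is enough): `K * l0`, `K * s`,
`K * (s * 8 ^ (s / 2))`, `K ≤ c.length`, and `2 ^ s ≤ 2 * 8 ^ (s / 2)`. -/
theorem hyp2_of_goodRel (ℓ : ℕ) {c : List (Fin 2 × Bool)} {hc : c ≠ []} {K s l0 : ℕ}
    (hK : 1000 * (ℓ + 1) ≤ K) (h : GoodRel 2 K c hc s l0)
    (hg : K * (s * 8 ^ (s / 2)) ≤ c.length) :
    Hyp2 (gens c) c.length (3 * l0 + 2) s (c.length / K) ℓ (RRset c hc) := by
  have hK0 : 0 < K := by omega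
  have hL := h.len
  have hL0 : 0 < c.length := by omega
  have hs := h.s_le
  have hl := h.l0_le
  have hl0 := h.l0_pos
  have hs0 := h.s_pos
  have hb : K * (c.length / K) ≤ c.length := Nat.mul_div_le c.length K
  have h2 : 2 ^ s ≤ 2 * (s * 8 ^ (s / 2)) := Fin2_pow hs0
  refine ⟨hyp_of_goodRel le_rfl (by omega) h, ?_, ?_⟩
  · exact Fin2_grow hK hL0 hs hl hl0 hb hg
  · exact Fin2_mono hK hL0 hs hl hl0 hb hg h2

theorem hyp2_congr {c : List (Fin 2 × Bool)} {L e s b ℓ : ℕ} {RR : Set (List (Letter 2))}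
    (h : Hyp2 (gens c) L e s b ℓ RR) (N : Subgroup (FreeGroup (Fin 2))) [N.Normal]
    (hN : N = Subgroup.normalClosure {FreeGroup.mk c}) :
    Hyp2 (fun i => (QuotientGroup.mk (FreeGroup.of i) : FreeGroup (Fin 2) ⧸ N)) L e s b ℓ RR := by
  subst hN
  exact h

theorem aas_hyp2 (ℓ : ℕ) : AAS 2 (fun r => ∃ (L e s b : ℕ) (RR : Set (List (Letter 2))),
    Hyp2 (fun i => (PresentedGroup.of i : OneRel r)) L e s b ℓ RR) := by
  obtain ⟨K', hK'⟩ := goodRel2_of_generic2 (1000 * (ℓ + 1))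
  refine aas_mono (generic2_aas K') ?_
  intro r hr
  obtain ⟨c, hc, s, l0, hg, hgr, hN⟩ := hK' r hr
  exact ⟨_, _, _, _, _, hyp2_congr (hyp2_of_goodRel ℓ le_rfl hg hgr) _ hN⟩

theorem aas_pairsL (ℓ : ℕ) : AAS 2 (fun r => PairsL ℓ (OneRel r)) := by
  refine aas_mono (aas_hyp2 (ℓ + 2)) ?_
  rintro r ⟨L, e, s, b, RR, h⟩
  have h1 := pairsL_of_hyp2 h (by omega)
  exact ⟨fun a b w hw hl => h1.rel a b w hw (by omega), h1.tf, h1.cen, h1.noncomm⟩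

theorem pairsL_free (ℓ : ℕ) : PairsL ℓ (FreeGroup (Fin 2)) := by
  have h := pairs_free 2 le_rfl
  exact ⟨fun a b w hw _ => h.rel a b w hw, h.tf, h.cen, h.noncomm⟩

/-- The bijections for two generators. -/
theorem aas_equiv (ℓ : ℕ) : AAS 2 (fun r => ∃ e : OneRel r ≃ FreeGroup (Fin 2),
    ∀ (a b : OneRel r) (w : FreeGroup (Fin 2)), w.norm ≤ ℓ →
      (FreeGroup.lift ![a, b] w = 1 ↔ FreeGroup.lift ![e a, e b] w = 1)) :=
  aas_mono (aas_pairsL ℓ) (fun _ h => h.exists_equiv (pairsL_free ℓ))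

/-- Uniformly for all formulas with bounded equations. -/
theorem aas_short (ℓ : ℕ) : AAS 2 (fun r => ∀ φ : grpLang.Sentence, TwoVar φ → Short ℓ φ →
    (OneRel r ⊨ φ ↔ FreeGroup (Fin 2) ⊨ φ)) :=
  aas_mono (aas_equiv ℓ) (fun _ ⟨e, he⟩ φ hφ hs => sentence_iff_short e ℓ he φ hφ hs)

theorem two_generators (φ : grpLang.Sentence) (hφ : TwoVar φ) :
    (FreeGroup (Fin 2) ⊨ φ → Tendsto (fun t => prob 2 t φ) atTop (nhds 1)) ∧
    (¬ (FreeGroup (Fin 2) ⊨ φ) → Tendsto (fun t => prob 2 t φ) atTop (nhds 0)) := by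
  obtain ⟨ℓ, hℓ⟩ := exists_short φ
  constructor
  · intro h
    exact aas_mono (aas_short ℓ) (fun r hr => (hr φ hφ hℓ).2 h)
  · intro h
    exact aas_not (aas_mono (aas_short ℓ) (fun r hr h1 => h ((hr φ hφ hℓ).1 h1)))

end Pool.Agent.Helper32.OR2
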