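import Pool.Agent.Helper22.OR.Long

/-!
Growth of the paths in minimal graphs of rank two with labels in `Fin 2` (project OR2,
MP_d4e3d0_lc, the case of two generators).
-/

namespace Pool.Agent.Helper32.OR2

open Pool.Agent.Helper22.OR Pool.Agent.Helper22.OR.Gr

/-- There are four letters and different darts at a vertex have different letters. -/
theorem deg_le_four {Γ : Gr (Fin 2)} (hf : Γ.Folded) (v : Γ.V) : Γ.deg v ≤ 4 := by
  have h1 : (Finset.univ.filter (fun d : Γ.D => Γ.st d = v)).card ≤
      (Finset.univ : Finset (Letter 2)).card := by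
    refine Finset.card_le_card_of_injOn Γ.lt (fun _ _ => Finset.mem_coe.2 (Finset.mem_univ _)) ?_
    intro d hd d' hd' hl
    have h2 := (Finset.mem_filter.1 (Finset.mem_coe.1 hd)).2
    have h3 := (Finset.mem_filter.1 (Finset.mem_coe.1 hd')).2
    exact hf d d' (h2.trans h3.symm) hl
  have h4 : (Finset.univ : Finset (Letter 2)).card = 4 := rfl
  rw [h4] at h1
  exact h1

/-- By `deg_sum` (`k = 2`) and `deg_pos`: if two different vertices had degree 4 then, if one of
them is the base, the sum over the other vertices is `0`; otherwise it is at least 4 and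
`1 ≤ deg base`. -/
theorem deg_four_unique {G : Type} [Group G] {f : Fin 2 → G} {H : Subgroup G} {Γ : Gr (Fin 2)}
    (h : Γ.Mini f H 2) {u v : Γ.V} (hu : Γ.deg u = 4) (hv : Γ.deg v = 4) : u = v := by
  by_contra hne
  have h1 := deg_sum h
  by_cases hub : u = Γ.base
  · subst hub
    have h3 : Γ.deg v - 2 ≤ ∑ v ∈ Finset.univ.erase Γ.base, (Γ.deg v - 2) :=
      Finset.single_le_sum (f := fun v => Γ.deg v - 2) (fun _ _ => Nat.zero_le _)
        (Finset.mem_erase.mpr ⟨fun h => hne h.symm, Finset.mem_univ _⟩)
    omega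
  · by_cases hvb : v = Γ.base
    · subst hvb
      have h3 : Γ.deg u - 2 ≤ ∑ v ∈ Finset.univ.erase Γ.base, (Γ.deg v - 2) :=
        Finset.single_le_sum (f := fun v => Γ.deg v - 2) (fun _ _ => Nat.zero_le _)
          (Finset.mem_erase.mpr ⟨hub, Finset.mem_univ _⟩)
      omega
    · have h2 := (deg_pos h.good u hub).2
      have h3 : ∑ w ∈ ({u, v} : Finset Γ.V), (Γ.deg w - 2) ≤
          ∑ w ∈ Finset.univ.erase Γ.base, (Γ.deg w - 2) := by
        refine Finset.sum_le_sum_of_subset ?_
        intro w hw
        rw [Finset.mem_insert, Finset.mem_singleton] at hw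
        rcases hw with rfl | rfl
        · exact Finset.mem_erase.mpr ⟨hub, Finset.mem_univ _⟩
        · exact Finset.mem_erase.mpr ⟨hvb, Finset.mem_univ _⟩
      rw [Finset.sum_pair hne] at h3
      omega

end Pool.Agent.Helper32.OR2
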