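import Pool.Agent.Helper22.OR.Long

/-!
Growth of the paths in minimal graphs of rank two with labels in `Fin 2` (project OR2,
MP_d4e3d0_lc, the case of two generators).
-/

namespace Pool.Agent.Helper32.OR2

open Pool.Agent.Helper22.OR Pool.Agent.Helper22.OR.Gr

private theorem Gw2_closed {Γ : Gr (Fin 2)} {v : Γ.V} (hv : ∀ d : Γ.D, Γ.st d = v → Γ.en d = v)
    {u w : Γ.V} {g : FreeGroup (Fin 2)} (hP : Γ.P FreeGroup.of u w g) : u = v → w = v := by
  induction hP with
  | refl v' => exact id
  | fwd e _ ih =>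
    intro h
    exact ih (hv (e, true) h)
  | bwd e _ ih =>
    intro h
    exact ih (hv (e, false) h)

private theorem Gw2_even {Γ : Gr (Fin 2)} (T : Finset Γ.D) (hT : ∀ d ∈ T, Γ.dinv d ∈ T) :
    T.card ≠ 3 := by
  intro h3
  have h1 : ∑ d ∈ T, (1 : ZMod 2) = 0 :=
    Finset.sum_involution (fun d _ => Γ.dinv d) (fun d _ => by decide)
      (fun d _ _ => Γ.dinv_ne d) (fun d hd => hT d hd) (fun d _ => Γ.dinv_dinv d)
  rw [Finset.sum_const, h3] at h1
  exact absurd h1 (by decide)

/-- A vertex `v` of degree 4 such that all darts at `v` except possibly `d0` end at `v`. The inverse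
darts of the three other darts are darts at `v`, and three darts cannot be closed under inversion
(`dinv_dinv`, `dinv_ne`), so `d0` is the inverse of one of them and also ends at `v`. By
connectedness (`h.good.conn`) `v` is the only vertex, in particular `v = base`. The four darts have
four different letters (`h.folded`), so `of 0` and `of 1` belong to `Γ.im FreeGroup.of = H`. -/
theorem top_of_loops {H : Subgroup (FreeGroup (Fin 2))} {Γ : Gr (Fin 2)}
    (h : Γ.Mini FreeGroup.of H 2) (d0 : Γ.D) (h4 : Γ.deg (Γ.st d0) = 4)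
    (hl : ∀ d : Γ.D, Γ.st d = Γ.st d0 → d ≠ d0 → Γ.en d = Γ.st d0) : H = ⊤ := by
  classical
  have h0 : Γ.en d0 = Γ.st d0 := by
    by_contra hne
    refine Gw2_even ((Finset.univ.filter (fun d : Γ.D => Γ.st d = Γ.st d0)).erase d0) ?_ ?_
    · intro d hd
      rw [Finset.mem_erase, Finset.mem_filter] at hd ⊢
      obtain ⟨h1, -, h2⟩ := hd
      refine ⟨fun h3 => hne ?_, Finset.mem_univ _, ?_⟩
      · rw [← h2, ← Γ.en_dinv d, h3]
      · rw [Γ.st_dinv]
        exact hl d h2 h1
    · have h5 : (Finset.univ.filter (fun d : Γ.D => Γ.st d = Γ.st d0)).card = 4 := h4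
      have h6 : d0 ∈ Finset.univ.filter (fun d : Γ.D => Γ.st d = Γ.st d0) :=
        Finset.mem_filter.mpr ⟨Finset.mem_univ _, rfl⟩
      rw [Finset.card_erase_of_mem h6, h5]
  have hv : ∀ d : Γ.D, Γ.st d = Γ.st d0 → Γ.en d = Γ.st d0 := by
    intro d hd
    by_cases h1 : d = d0
    · rw [h1]
      exact h0
    · exact hl d hd h1
  have hb : Γ.base = Γ.st d0 := by
    obtain ⟨g, hg⟩ := h.good.conn (Γ.st d0)
    exact Gw2_closed hv hg.symm rfl
  have hf : Γ.Folded := h.folded
  -- all letters occur at the base vertex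
  have hsurj : ∀ a : Letter 2, ∃ d : Γ.D, Γ.st d = Γ.st d0 ∧ Γ.lt d = a := by
    intro a
    have h5 : (Finset.univ.filter (fun d : Γ.D => Γ.st d = Γ.st d0)).card = 4 := h4
    have h6 : ((Finset.univ.filter (fun d : Γ.D => Γ.st d = Γ.st d0)).image Γ.lt).card = 4 := by
      rw [Finset.card_image_of_injOn, h5]
      intro d hd d' hd' he
      have e1 : Γ.st d = Γ.st d0 := (Finset.mem_filter.mp hd).2
      have e2 : Γ.st d' = Γ.st d0 := (Finset.mem_filter.mp hd').2
      exact hf d d' (e1.trans e2.symm) he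
    have h7 : (Finset.univ.filter (fun d : Γ.D => Γ.st d = Γ.st d0)).image Γ.lt = Finset.univ := by
      apply Finset.eq_univ_of_card
      rw [h6]
      rfl
    have h8 : a ∈ (Finset.univ.filter (fun d : Γ.D => Γ.st d = Γ.st d0)).image Γ.lt := by
      rw [h7]
      exact Finset.mem_univ a
    obtain ⟨d, hd, he⟩ := Finset.mem_image.mp h8
    exact ⟨d, (Finset.mem_filter.mp hd).2, he⟩
  have him : ∀ i : Fin 2, FreeGroup.of i ∈ H := by
    intro i
    obtain ⟨d, hd, he⟩ := hsurj (i, true)
    have h5 := P.dart (f := FreeGroup.of) d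
    rw [he, hd, hv d hd, ← hb] at h5
    rw [← h.good.im_eq]
    exact h5
  rw [eq_top_iff, ← FreeGroup.closure_range_of, Subgroup.closure_le]
  rintro _ ⟨i, rfl⟩
  exact him i

end Pool.Agent.Helper32.OR2
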