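import Pool.Agent.Helper32.OR2.Gw1
import Pool.Agent.Helper32.OR2.Gw2

/-!
Growth of the paths in minimal graphs of rank two with labels in `Fin 2` (project OR2,
MP_d4e3d0_lc, the case of two generators).
-/

namespace Pool.Agent.Helper32.OR2

open Pool.Agent.Helper22.OR Pool.Agent.Helper22.OR.Gr

/-- the darts that may follow `d` -/
private def Gw3_nx (Γ : Gr (Fin 2)) (d : Γ.D) : Finset Γ.D :=
  Finset.univ.filter (fun d' : Γ.D => Γ.st d' = Γ.en d ∧ d' ≠ Γ.dinv d)

private theorem Gw3_nx_card (Γ : Gr (Fin 2)) (d : Γ.D) :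
    (Gw3_nx Γ d).card = Γ.deg (Γ.en d) - 1 := by
  have h2 : Gw3_nx Γ d =
      (Finset.univ.filter (fun d' : Γ.D => Γ.st d' = Γ.en d)).erase (Γ.dinv d) := by
    ext d'
    simp only [Gw3_nx, Finset.mem_filter, Finset.mem_univ, true_and, Finset.mem_erase]
    exact and_comm
  have h3 : Γ.dinv d ∈ Finset.univ.filter (fun d' : Γ.D => Γ.st d' = Γ.en d) := by
    simp
  rw [h2, Finset.card_erase_of_mem h3]
  rfl

private theorem Gw3_succ (Γ : Gr (Fin 2)) (i : ℕ) (d : Γ.D) :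
    (cont Γ (i + 1) d).card ≤ ∑ d' ∈ Gw3_nx Γ d, (cont Γ i d').card := by
  calc (cont Γ (i + 1) d).card
      ≤ ∑ d' ∈ Gw3_nx Γ d, ((cont Γ i d').image (List.cons d')).card := by
        rw [cont]
        exact Finset.card_biUnion_le
    _ ≤ ∑ d' ∈ Gw3_nx Γ d, (cont Γ i d').card :=
        Finset.sum_le_sum (fun d' _ => Finset.card_image_le)

private theorem Gw3_one (Γ : Gr (Fin 2)) (d : Γ.D) :
    (cont Γ 1 d).card ≤ Γ.deg (Γ.en d) - 1 := by
  refine (Gw3_succ Γ 0 d).trans ?_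
  have h1 : ∑ d' ∈ Gw3_nx Γ d, (cont Γ 0 d').card = (Gw3_nx Γ d).card := by
    simp [cont]
  rw [h1, Gw3_nx_card]

/-- The number of two step continuations of a dart `d` is
`∑ (deg (en d') - 1)` over the darts `d' ≠ dinv d` with `st d' = en d`. If the degree of `en d` is at
most 3 there are at most two `d'` and the sum is at most `2 * 3`. If it is 4 there are three, and
not all of them end at a vertex of degree 4 (such a vertex is `en d` by `deg_four_unique`, and
`top_of_loops` with `d0 = dinv d`), so the sum is at most `3 + 3 + 2`. -/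
theorem cont_two {H : Subgroup (FreeGroup (Fin 2))} {Γ : Gr (Fin 2)}
    (h : Γ.Mini FreeGroup.of H 2) (hH : H ≠ ⊤) (d : Γ.D) : (cont Γ 2 d).card ≤ 8 := by
  have hdeg := deg_le_four h.folded
  have h3 : ∀ d' : Γ.D, (cont Γ 1 d').card ≤ 3 := fun d' => by
    have h1 := Gw3_one Γ d'
    have h2 := hdeg (Γ.en d')
    omega
  refine (Gw3_succ Γ 1 d).trans ?_
  have hc := Gw3_nx_card Γ d
  rcases Nat.lt_or_ge (Γ.deg (Γ.en d)) 4 with h4 | h4
  · calc ∑ d' ∈ Gw3_nx Γ d, (cont Γ 1 d').card ≤ ∑ _d' ∈ Gw3_nx Γ d, 3 :=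
          Finset.sum_le_sum fun d' _ => h3 d'
      _ = (Gw3_nx Γ d).card * 3 := by rw [Finset.sum_const, smul_eq_mul]
      _ ≤ 8 := by omega
  · have h4' : Γ.deg (Γ.en d) = 4 := le_antisymm (hdeg _) h4
    have hex : ∃ d' ∈ Gw3_nx Γ d, Γ.deg (Γ.en d') ≠ 4 := by
      by_contra hno
      push Not at hno
      refine hH (top_of_loops h (Γ.dinv d) (by rw [st_dinv]; exact h4') ?_)
      intro d' hd' hne
      rw [st_dinv] at hd' ⊢
      have hmem : d' ∈ Gw3_nx Γ d := by
        rw [Gw3_nx, Finset.mem_filter]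
        exact ⟨Finset.mem_univ _, hd', hne⟩
      exact deg_four_unique h (hno d' hmem) h4'
    obtain ⟨d1, hd1, hne⟩ := hex
    rw [← Finset.add_sum_erase _ _ hd1]
    have h5 : (cont Γ 1 d1).card ≤ 2 := by
      have h1 := Gw3_one Γ d1
      have h2 := hdeg (Γ.en d1)
      omega
    have h6 : ∑ d' ∈ (Gw3_nx Γ d).erase d1, (cont Γ 1 d').card ≤
        ((Gw3_nx Γ d).erase d1).card * 3 := by
      calc ∑ d' ∈ (Gw3_nx Γ d).erase d1, (cont Γ 1 d').card
          ≤ ∑ _d' ∈ (Gw3_nx Γ d).erase d1, 3 := Finset.sum_le_sum fun d' _ => h3 d'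
        _ = ((Gw3_nx Γ d).erase d1).card * 3 := by rw [Finset.sum_const, smul_eq_mul]
    rw [Finset.card_erase_of_mem hd1] at h6
    omega

end Pool.Agent.Helper32.OR2
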