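import Pool.Agent.Helper32.OR2.Gw3

/-!
Growth of the paths in minimal graphs of rank two with labels in `Fin 2` (project OR2,
MP_d4e3d0_lc, the case of two generators).
-/

namespace Pool.Agent.Helper32.OR2

open Pool.Agent.Helper22.OR Pool.Agent.Helper22.OR.Gr

open Classical in
/-- the continuations of a pair of darts -/
private noncomputable def Gw4_ext (Γ : Gr (Fin 2)) (i : ℕ) : List Γ.D → Finset (List Γ.D)
  | [d', d''] => (cont Γ i d'').image (fun w => d' :: d'' :: w)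
  | _ => ∅

private theorem Gw4_sub (Γ : Gr (Fin 2)) (i : ℕ) (d : Γ.D) :
    cont Γ (i + 2) d ⊆ (cont Γ 2 d).biUnion (Gw4_ext Γ i) := by
  intro w hw
  rw [cont, Finset.mem_biUnion] at hw
  obtain ⟨d', hd', hw⟩ := hw
  obtain ⟨w', hw', rfl⟩ := Finset.mem_image.mp hw
  rw [cont, Finset.mem_biUnion] at hw'
  obtain ⟨d'', hd'', hw'⟩ := hw'
  obtain ⟨w'', hw'', rfl⟩ := Finset.mem_image.mp hw'
  refine Finset.mem_biUnion.mpr ⟨[d', d''], ?_, ?_⟩
  · rw [cont, Finset.mem_biUnion]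
    refine ⟨d', hd', Finset.mem_image.mpr ⟨[d''], ?_, rfl⟩⟩
    rw [cont, Finset.mem_biUnion]
    exact ⟨d'', hd'', Finset.mem_image.mpr ⟨[], by simp [cont], rfl⟩⟩
  · exact Finset.mem_image.mpr ⟨w'', hw'', rfl⟩

private theorem Gw4_ext_card (Γ : Gr (Fin 2)) (i M : ℕ) (hM : ∀ d, (cont Γ i d).card ≤ M)
    (l : List Γ.D) : (Gw4_ext Γ i l).card ≤ M := by
  match l with
  | [] => simp [Gw4_ext]
  | [_] => simp [Gw4_ext]
  | [d', d''] => exact Finset.card_image_le.trans (hM d'')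
  | _ :: _ :: _ :: _ => simp [Gw4_ext]

/-- Induction in steps of two: `cont Γ (i + 2) d` is a union over the pairs of continuing darts, i.e.
over `cont Γ 2 d`, of sets which inject into some `cont Γ i d'`; `cont Γ 1 d` has at most 3 elements
(`deg_le_four`, `cont_card` with `Q = 3`). -/
theorem cont_card2 {H : Subgroup (FreeGroup (Fin 2))} {Γ : Gr (Fin 2)}
    (h : Γ.Mini FreeGroup.of H 2) (hH : H ≠ ⊤) (i : ℕ) (d : Γ.D) :
    (cont Γ i d).card ≤ 3 * 8 ^ (i / 2) := by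
  induction i using Nat.strong_induction_on generalizing d with
  | _ i ih =>
    match i, ih with
    | 0, _ => simp [cont]
    | 1, _ =>
      refine (cont_card Γ 3 (fun v => ?_) 1 d).trans (by norm_num)
      exact deg_le_four h.folded v
    | i + 2, ih =>
      have h1 := Finset.card_le_card (Gw4_sub Γ i d)
      have h2 : ((cont Γ 2 d).biUnion (Gw4_ext Γ i)).card ≤
          (cont Γ 2 d).card * (3 * 8 ^ (i / 2)) := by
        refine Finset.card_biUnion_le_card_mul _ _ _ fun l _ => ?_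
        exact Gw4_ext_card Γ i _ (fun d' => ih i (by omega) d') l
      have h3 := cont_two h hH d
      have e : (i + 2) / 2 = i / 2 + 1 := by omega
      rw [e, pow_succ]
      calc (cont Γ (i + 2) d).card ≤ (cont Γ 2 d).card * (3 * 8 ^ (i / 2)) := h1.trans h2
        _ ≤ 8 * (3 * 8 ^ (i / 2)) := Nat.mul_le_mul_right _ h3
        _ = 3 * (8 ^ (i / 2) * 8) := by ring

theorem from_card2 {H : Subgroup (FreeGroup (Fin 2))} {Γ : Gr (Fin 2)}
    (h : Γ.Mini FreeGroup.of H 2) (hH : H ≠ ⊤) (i : ℕ) (v : Γ.V) :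
    (from' Γ i v).card ≤ 12 * 8 ^ (i / 2) := by
  have h1 : (Finset.univ.filter (fun d : Γ.D => Γ.st d = v)).card ≤ 4 := deg_le_four h.folded v
  calc (from' Γ i v).card
      ≤ ∑ d ∈ Finset.univ.filter (fun d : Γ.D => Γ.st d = v),
          ((cont Γ i d).image (List.cons d)).card := by
        rw [from']
        exact Finset.card_biUnion_le
    _ ≤ ∑ d ∈ Finset.univ.filter (fun d : Γ.D => Γ.st d = v), 3 * 8 ^ (i / 2) :=
        Finset.sum_le_sum (fun d _ => Finset.card_image_le.trans (cont_card2 h hH i d))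
    _ = (Finset.univ.filter (fun d : Γ.D => Γ.st d = v)).card * (3 * 8 ^ (i / 2)) := by
        rw [Finset.sum_const, smul_eq_mul]
    _ ≤ 4 * (3 * 8 ^ (i / 2)) := Nat.mul_le_mul_right _ h1
    _ = 12 * 8 ^ (i / 2) := by ring

/-- `144 * 8 ^ ((t - 1) / 2 + (s - t - 1) / 2) ≤ 18 * 8 ^ (s / 2)`. -/
theorem nonplain_one2 {H : Subgroup (FreeGroup (Fin 2))} {Γ : Gr (Fin 2)}
    (h : Γ.Mini FreeGroup.of H 2) (hH : H ≠ ⊤) {s t : ℕ} (ht : 1 ≤ t) (hts : t < s) (b : Γ.V) :
    (nonplain_card_words Γ s t b).card ≤ 18 * 8 ^ (s / 2) := by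
  unfold nonplain_card_words
  refine Finset.card_image_le.trans ?_
  rw [Finset.card_product]
  refine (Nat.mul_le_mul (from_card2 h hH (t - 1) b) (from_card2 h hH (s - t - 1) b)).trans ?_
  have e1 : 8 ^ ((t - 1) / 2) * 8 ^ ((s - t - 1) / 2) * 8 ≤ 8 ^ (s / 2) := by
    rw [← pow_add, ← pow_succ]
    exact Nat.pow_le_pow_right (by norm_num) (by omega)
  calc 12 * 8 ^ ((t - 1) / 2) * (12 * 8 ^ ((s - t - 1) / 2))
      = 18 * (8 ^ ((t - 1) / 2) * 8 ^ ((s - t - 1) / 2) * 8) := by ring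
    _ ≤ 18 * 8 ^ (s / 2) := Nat.mul_le_mul_left _ e1

end Pool.Agent.Helper32.OR2
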