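import Pool.Agent.Helper32.OR2.MkDefs

/-!
Marked graphs (project OR2, MP_d4e3d0_lc).
-/

namespace Pool.Agent.Helper32.OR2

open Pool.Agent.Helper22.OR Pool.Agent.Helper22.OR.Gr

variable {n k : ℕ} {G : Type} [Group G]

/-- Lifts exist by surjectivity; graphs exist by `exists_good FreeGroup.of` (the lift of
`FreeGroup.of` is the identity); take the smallest number of edges (as in `exists_mini`). -/
theorem exists_mmini (f : Fin n → G) (hf : Function.Surjective (FreeGroup.lift f))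
    (g : Fin k → G) : ∃ (Γ : Gr (Fin n)) (h : Fin k → FreeGroup (Fin n)), MMini f g Γ h := by
  classical
  choose h0 hh0 using fun i => hf (g i)
  have hs : Function.Surjective (FreeGroup.lift (FreeGroup.of : Fin n → FreeGroup (Fin n))) := by
    intro x
    exact ⟨x, FreeGroup.lift_of_apply x⟩
  obtain ⟨Γ0, hΓ0⟩ := exists_good (FreeGroup.of : Fin n → FreeGroup (Fin n)) hs h0
  have hex : ∃ m : ℕ, ∃ (Γ : Gr (Fin n)) (h : Fin k → FreeGroup (Fin n)),
      (∀ i, FreeGroup.lift f (h i) = g i) ∧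
      Γ.Good FreeGroup.of (Subgroup.closure (Set.range h)) k ∧ Fintype.card Γ.E = m :=
    ⟨_, Γ0, h0, hh0, hΓ0, rfl⟩
  obtain ⟨Γ, h, h1, h2, h3⟩ := Nat.find_spec hex
  refine ⟨Γ, h, h1, h2, ?_⟩
  intro Γ' h' h4 h5
  rw [h3]
  exact Nat.find_min' hex ⟨Γ', h', h4, h5, rfl⟩

end Pool.Agent.Helper32.OR2
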