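import Pool.Agent.Helper32.OR2.MkDefs

/-!
Marked graphs: in a folded graph the old value of a path determines the new one (project OR2,
MP_d4e3d0_lc).
-/

namespace Pool.Agent.Helper32.OR2

open Pool.Agent.Helper22.OR Pool.Agent.Helper22.OR.Gr

variable {n k : ℕ} {M : Type} [Group M]

private theorem Mk2_step {Γ : Gr (Fin n)} (hf : Γ.Folded) (ν : Γ.E → M) {v : Γ.V} (d : Γ.D)
    {w : FreeGroup (Fin n)} {x : M} {l : List Γ.D} (h1 : walk Γ (Γ.en d) l v)
    (h2 : l.map Γ.lt = w.toWord) (h0 : (l.map (dv Γ ν)).prod = x) :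
    ∃ l' : List Γ.D, walk Γ (Γ.st d) l' v ∧
      l'.map Γ.lt = (FreeGroup.mk [Γ.lt d] * w).toWord ∧
      (l'.map (dv Γ ν)).prod = dv Γ ν d * x := by
  have h3 : (FreeGroup.mk [Γ.lt d] * w).toWord = FreeGroup.reduce (Γ.lt d :: l.map Γ.lt) := by
    conv_lhs => rw [← FreeGroup.mk_toWord (x := w), FreeGroup.mul_mk, FreeGroup.toWord_mk]
    rw [h2]
    rfl
  have h4 : FreeGroup.reduce (l.map Γ.lt) = l.map Γ.lt := by
    rw [h2, FreeGroup.reduce_toWord]
  rw [h3, FreeGroup.reduce.cons, h4, ← h0]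
  cases l with
  | nil => exact ⟨[d], ⟨rfl, h1⟩, rfl, by simp⟩
  | cons d' l =>
    obtain ⟨h5, h6⟩ := h1
    change ∃ l' : List Γ.D, walk Γ (Γ.st d) l' v ∧ (l'.map Γ.lt =
      if (Γ.lt d).1 = (Γ.lt d').1 ∧ (Γ.lt d).2 = !(Γ.lt d').2 then l.map Γ.lt
      else Γ.lt d :: Γ.lt d' :: l.map Γ.lt) ∧ _
    split_ifs with h
    · have h7 : d' = Γ.dinv d := by
        apply hf
        · rw [h5, st_dinv]
        · rw [lt_dinv]
          refine Prod.ext h.1.symm ?_
          change (Γ.lt d').2 = !(Γ.lt d).2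
          rw [h.2, Bool.not_not]
      refine ⟨l, ?_, rfl, ?_⟩
      · rw [h7, en_dinv] at h6
        exact h6
      · rw [h7, List.map_cons, List.prod_cons, ← mul_assoc]
        have h8 : dv Γ ν d * dv Γ ν (Γ.dinv d) = 1 := by
          rcases d with ⟨e, b⟩
          cases b
          · exact inv_mul_cancel (ν e)
          · exact mul_inv_cancel (ν e)
        rw [h8, one_mul]
    · exact ⟨d :: d' :: l, ⟨rfl, h5, h6⟩, rfl, by simp⟩

private theorem Mk2_aux {Γ : Gr (Fin n)} (hf : Γ.Folded) (ν : Γ.E → M)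
    (u v : (lab2 Γ (pr Γ ν)).V) (z : FreeGroup (Fin n) × M)
    (h : (lab2 Γ (pr Γ ν)).P id u v z) :
    ∃ l : List Γ.D, walk Γ u l v ∧ l.map Γ.lt = z.1.toWord ∧ (l.map (dv Γ ν)).prod = z.2 := by
  induction h with
  | refl v => exact ⟨[], rfl, FreeGroup.toWord_one.symm, rfl⟩
  | fwd e _ ih =>
    obtain ⟨l, h1, h2, h3⟩ := ih
    exact Mk2_step hf ν (e, true) h1 h2 h3
  | bwd e _ ih =>
    obtain ⟨l, h1, h2, h3⟩ := ih
    exact Mk2_step hf ν (e, false) h1 h2 h3

/-- Same proof as `walk_of_P` in `Pool/Agent/Helper22/OR/Read.lean` (induction; adding a step either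
lengthens the reduced word or cancels its first letter, and then by foldedness the step is the
inverse of the first dart of the list, so that the new values cancel, too). -/
theorem walk_pair {Γ : Gr (Fin n)} (hf : Γ.Folded) (ν : Γ.E → M) {u v : Γ.V}
    {z : FreeGroup (Fin n) × M} (h : (lab2 Γ (pr Γ ν)).P id u v z) :
    ∃ l : List Γ.D, walk Γ u l v ∧ l.map Γ.lt = z.1.toWord ∧ (l.map (dv Γ ν)).prod = z.2 :=
  Mk2_aux hf ν u v z h

/-- The old value determines the new one: the path back and forth has old value 1, so by `walk_pair`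
its new value is 1. -/
theorem pair_unique {Γ : Gr (Fin n)} (hf : Γ.Folded) (ν : Γ.E → M) {u v : Γ.V}
    {y : FreeGroup (Fin n)} {z z' : M} (h : (lab2 Γ (pr Γ ν)).P id u v (y, z))
    (h' : (lab2 Γ (pr Γ ν)).P id u v (y, z')) : z = z' := by
  obtain ⟨l, -, h2, h3⟩ := walk_pair hf ν (h.trans h'.symm)
  have h4 : ((y, z) * (y, z')⁻¹ : FreeGroup (Fin n) × M).1 = 1 := mul_inv_cancel y
  rw [h4, FreeGroup.toWord_one, List.map_eq_nil_iff] at h2
  rw [h2] at h3
  have h5 : (1 : M) = z * z'⁻¹ := h3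
  exact (mul_inv_eq_one.1 h5.symm)

end Pool.Agent.Helper32.OR2
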