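import Pool.Agent.Helper32.OR2.Mk2

/-!
Marked graphs: new labels give new lifts (project OR2, MP_d4e3d0_lc).
-/

namespace Pool.Agent.Helper32.OR2

open Pool.Agent.Helper22.OR Pool.Agent.Helper22.OR.Gr

variable {n k : ℕ} {M : Type} [Group M]

private theorem Mk3_fst (Γ : Gr (Fin n)) (ν : Γ.E → M) {u v : (lab2 Γ (pr Γ ν)).V}
    {p : FreeGroup (Fin n) × M} (h : (lab2 Γ (pr Γ ν)).P id u v p) :
    Γ.P FreeGroup.of u v p.1 := by
  induction h with
  | refl v => exact P.refl (Γ := Γ) v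
  | fwd e _ ih => exact P.fwd (Γ := Γ) e ih
  | bwd e _ ih => exact P.bwd (Γ := Γ) e ih

private theorem Mk3_snd (Γ : Gr (Fin n)) (ν : Γ.E → M) {u v : (lab2 Γ (pr Γ ν)).V}
    {p : FreeGroup (Fin n) × M} (h : (lab2 Γ (pr Γ ν)).P id u v p) :
    (lab2 Γ ν).P id u v p.2 := by
  induction h with
  | refl v => exact P.refl (Γ := lab2 Γ ν) v
  | fwd e _ ih => exact P.fwd (Γ := lab2 Γ ν) e ih
  | bwd e _ ih => exact P.bwd (Γ := lab2 Γ ν) e ih

private theorem Mk3_old (Γ : Gr (Fin n)) (ν : Γ.E → M) {u v : (lab2 Γ ν).V} {z : M}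
    (h : (lab2 Γ ν).P id u v z) :
    ∃ y : FreeGroup (Fin n), (lab2 Γ (pr Γ ν)).P id u v (y, z) := by
  induction h with
  | refl v => exact ⟨1, P.refl (Γ := lab2 Γ (pr Γ ν)) v⟩
  | fwd e _ ih =>
    obtain ⟨y, hy⟩ := ih
    exact ⟨_, P.fwd (Γ := lab2 Γ (pr Γ ν)) e hy⟩
  | bwd e _ ih =>
    obtain ⟨y, hy⟩ := ih
    exact ⟨_, P.bwd (Γ := lab2 Γ (pr Γ ν)) e hy⟩

/-- A path with an old value has a new value. -/
theorem exists_new (Γ : Gr (Fin n)) (ν : Γ.E → M) {u v : Γ.V} {y : FreeGroup (Fin n)}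
    (h : Γ.P FreeGroup.of u v y) : ∃ z, (lab2 Γ (pr Γ ν)).P id u v (y, z) := by
  induction h with
  | refl v => exact ⟨1, P.refl (Γ := lab2 Γ (pr Γ ν)) v⟩
  | fwd e _ ih =>
    obtain ⟨z, hz⟩ := ih
    exact ⟨_, P.fwd (Γ := lab2 Γ (pr Γ ν)) e hz⟩
  | bwd e _ ih =>
    obtain ⟨z, hz⟩ := ih
    exact ⟨_, P.bwd (Γ := lab2 Γ (pr Γ ν)) e hz⟩

/-- A path with a new value has an old value. -/
theorem exists_old (Γ : Gr (Fin n)) (ν : Γ.E → M) {u v : Γ.V} {z : M}
    (h : (lab2 Γ ν).P id u v z) : ∃ y, (lab2 Γ (pr Γ ν)).P id u v (y, z) :=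
  Mk3_old Γ ν h

/-- The projections of a pair of values. -/
theorem pair_fst (Γ : Gr (Fin n)) (ν : Γ.E → M) {u v : Γ.V} {y : FreeGroup (Fin n)} {z : M}
    (h : (lab2 Γ (pr Γ ν)).P id u v (y, z)) : Γ.P FreeGroup.of u v y :=
  Mk3_fst Γ ν h

theorem pair_snd (Γ : Gr (Fin n)) (ν : Γ.E → M) {u v : Γ.V} {y : FreeGroup (Fin n)} {z : M}
    (h : (lab2 Γ (pr Γ ν)).P id u v (y, z)) : (lab2 Γ ν).P id u v z :=
  Mk3_snd Γ ν h

/-- Choose `h' i` with `(h i, h' i)` in the pair graph (`exists_new`). `conn` and `rank` are clear.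
For `im_eq`: the new values of loops at the base lie in `closure (range h')`, because for such
a value `z` there is an old value `y` (`exists_old`), `y ∈ closure (range h)`, by
`Subgroup.closure_induction` there is `z' ∈ closure (range h')` with the pair `(y, z')`, and
`z = z'` by `pair_unique`. -/
theorem relabel_good {Γ : Gr (Fin n)} (hf : Γ.Folded) {h : Fin k → FreeGroup (Fin n)}
    (hG : Γ.Good FreeGroup.of (Subgroup.closure (Set.range h)) k) (ν : Γ.E → M) :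
    ∃ h' : Fin k → M, (∀ i, (lab2 Γ (pr Γ ν)).P id Γ.base Γ.base (h i, h' i)) ∧
      (lab2 Γ ν).Good id (Subgroup.closure (Set.range h')) k := by
  have h1 : ∀ i, ∃ z, (lab2 Γ (pr Γ ν)).P id Γ.base Γ.base (h i, z) := fun i => by
    refine exists_new Γ ν ?_
    have h2 : h i ∈ Γ.im FreeGroup.of := by
      rw [hG.im_eq]
      exact Subgroup.subset_closure ⟨i, rfl⟩
    exact h2
  choose h' hh' using h1
  refine ⟨h', hh', ?_, hG.rank, ?_⟩
  · intro v
    obtain ⟨g, hg⟩ := hG.conn v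
    obtain ⟨z, hz⟩ := exists_new Γ ν hg
    exact ⟨z, pair_snd Γ ν hz⟩
  · apply le_antisymm
    · intro z hz
      obtain ⟨y, hy⟩ := exists_old Γ ν (show (lab2 Γ ν).P id Γ.base Γ.base z from hz)
      have hy' : y ∈ Subgroup.closure (Set.range h) := by
        rw [← hG.im_eq]
        exact pair_fst Γ ν hy
      have key : ∃ z' ∈ Subgroup.closure (Set.range h'),
          (lab2 Γ (pr Γ ν)).P id Γ.base Γ.base (y, z') := by
        clear hy
        induction hy' using Subgroup.closure_induction with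
        | mem x hx =>
          obtain ⟨i, rfl⟩ := hx
          exact ⟨h' i, Subgroup.subset_closure ⟨i, rfl⟩, hh' i⟩
        | one => exact ⟨1, Subgroup.one_mem _, P.refl (Γ := lab2 Γ (pr Γ ν)) _⟩
        | mul x y _ _ hx hy =>
          obtain ⟨a, ha, ha'⟩ := hx
          obtain ⟨b, hb, hb'⟩ := hy
          exact ⟨a * b, Subgroup.mul_mem _ ha hb, P.trans ha' hb'⟩
        | inv x _ hx =>
          obtain ⟨a, ha, ha'⟩ := hx
          exact ⟨a⁻¹, Subgroup.inv_mem _ ha, P.symm ha'⟩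
      obtain ⟨z', hz', hp⟩ := key
      rw [pair_unique hf ν hy hp]
      exact hz'
    · rw [Subgroup.closure_le]
      rintro _ ⟨i, rfl⟩
      exact pair_snd Γ ν (hh' i)

end Pool.Agent.Helper32.OR2
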