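import Pool.Agent.Helper32.OR2.MkDefs

/-!
Marked graphs: the new labels and the graph after surgery (project OR2, MP_d4e3d0_lc).
-/

namespace Pool.Agent.Helper32.OR2

open Pool.Agent.Helper22.OR Pool.Agent.Helper22.OR.Gr

variable {n k : ℕ} {G : Type} [Group G]

/-- The new values of the darts of the run. -/
theorem nu_run {Γ : Gr (Fin n)} {p : ℕ → Γ.D} {m a b : ℕ} (hr : IsRun Γ p m a b)
    (v : List (Letter n)) (t : ℕ) (hat : a ≤ t) (htb : t < b) :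
    dv Γ (nu Γ p m a b v) (p t) = if t = b - 1 then rnd Γ p m a b v else 1 := by
  have hle := hr.le
  split_ifs with ht
  · subst ht
    unfold dv nu
    rw [if_pos rfl]
    cases (p (b - 1)).2
    · simp
    · simp
  · have h1 : (p t).1 ≠ (p (b - 1)).1 := fun h =>
      ht (hr.once (b - 1) (by omega) (by omega) t (by omega) h)
    have h2 : (p t).1 ∈ rE Γ p a b := by
      unfold rE
      exact Finset.mem_image.2 ⟨t, Finset.mem_Ico.2 ⟨hat, htb⟩, rfl⟩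
    unfold dv nu
    rw [if_neg h1, if_pos h2]
    cases (p t).2
    · simp
    · simp

/-- The new values of the darts outside the run. -/
theorem nu_out {Γ : Gr (Fin n)} {p : ℕ → Γ.D} {m a b : ℕ} (hr : IsRun Γ p m a b)
    (v : List (Letter n)) (d : Γ.D) (hd : d.1 ∉ rE Γ p a b) :
    dv Γ (nu Γ p m a b v) d = lv FreeGroup.of (Γ.lt d) := by
  have hlt := hr.lt
  have h1 : d.1 ≠ (p (b - 1)).1 := by
    intro h
    apply hd
    rw [h]
    unfold rE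
    exact Finset.mem_image.2 ⟨b - 1, Finset.mem_Ico.2 ⟨by omega, by omega⟩, rfl⟩
  unfold dv nu
  rw [if_neg h1, if_neg hd]
  rfl

/-- In the graph after surgery one can go around the run: `p_0 … p_{a-1}` backwards, the new edge
backwards, `p_b … p_{m-1}` backwards (`cut_steps` with `f = FreeGroup.of`, as in the first part of
the proof of `cut_round`). -/
theorem cut_rnd {H : Subgroup (FreeGroup (Fin n))} {Γ : Gr (Fin n)}
    (h : Γ.Mini FreeGroup.of H k) {p : ℕ → Γ.D} {m a b : ℕ} (hp : Γ.Pth p m)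
    (hr : IsRun Γ p m a b) (v : List (Letter n))
    (hout : ∀ e, e ∉ rE Γ p a b → Γ.src e ∉ rV Γ p a b ∧ Γ.tgt e ∉ rV Γ p a b)
    (hb : Γ.base ∉ rV Γ p a b) (hx : vx Γ p m 0 ∉ rV Γ p a b) (hy : vx Γ p m m ∉ rV Γ p a b)
    (ha : vx Γ p m a ∉ rV Γ p a b) (hb' : vx Γ p m b ∉ rV Γ p a b) :
    (cut Γ (rE Γ p a b) (rV Γ p a b) hout hb ⟨vx Γ p m 0, hx⟩ ⟨vx Γ p m m, hy⟩ v).P
      (wv FreeGroup.of) ⟨vx Γ p m a, ha⟩ ⟨vx Γ p m b, hb'⟩ (rnd Γ p m a b v) := by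
  have hm : 0 < m := lt_of_le_of_lt (Nat.zero_le a) (lt_of_lt_of_le hr.lt hr.le)
  have hE : ∀ t, t < m → (t < a ∨ b ≤ t) → (p t).1 ∉ rE Γ p a b := by
    intro t htm ht hmem
    simp only [rE, Finset.mem_image, Finset.mem_Ico] at hmem
    obtain ⟨t', ⟨h1, h2⟩, h3⟩ := hmem
    have := hr.once t' h1 h2 t htm h3.symm
    omega
  have hab := hr.lt
  have hbm := hr.le
  have h1 := cut_steps FreeGroup.of Γ (rE Γ p a b) (rV Γ p a b) hout hb ⟨vx Γ p m 0, hx⟩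
    ⟨vx Γ p m m, hy⟩ v hp (Nat.zero_le a) (by omega) hm (fun t _ h2 => hE t (by omega) (Or.inl h2))
    hx ha
  have h2 := cut_steps FreeGroup.of Γ (rE Γ p a b) (rV Γ p a b) hout hb ⟨vx Γ p m 0, hx⟩
    ⟨vx Γ p m m, hy⟩ v hp hbm le_rfl hm (fun t h1 h2 => hE t h2 (Or.inr h1)) hb' hy
  have h3 := P.edge' (f := wv FreeGroup.of)
    (Γ := cut Γ (rE Γ p a b) (rV Γ p a b) hout hb ⟨vx Γ p m 0, hx⟩ ⟨vx Γ p m m, hy⟩ v) none
  have h4 : (cut Γ (rE Γ p a b) (rV Γ p a b) hout hb ⟨vx Γ p m 0, hx⟩ ⟨vx Γ p m m, hy⟩ v).P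
      (wv FreeGroup.of) ⟨vx Γ p m 0, hx⟩ ⟨vx Γ p m m, hy⟩ (wv FreeGroup.of v)⁻¹ := h3
  exact (h1.symm.trans h4).trans h2.symm

end Pool.Agent.Helper32.OR2
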