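import Pool.Agent.Helper22.OR.Long

/-!
Marked graphs: the lifts of a tuple of elements to the free group for which the graph of the
generated subgroup has the smallest number of edges (project OR2, MP_d4e3d0_lc).
-/

namespace Pool.Agent.Helper32.OR2

open Pool.Agent.Helper22.OR Pool.Agent.Helper22.OR.Gr

variable {n k : ℕ} {G : Type} [Group G]

/-- `h` lifts `g`, the graph `Γ` carries the subgroup generated by `h`, and the number of edges is
the smallest one for all lifts of `g` and all graphs. -/
structure MMini (f : Fin n → G) (g : Fin k → G) (Γ : Gr (Fin n)) (h : Fin k → FreeGroup (Fin n)) :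
    Prop where
  lift : ∀ i, FreeGroup.lift f (h i) = g i
  good : Γ.Good FreeGroup.of (Subgroup.closure (Set.range h)) k
  le : ∀ (Γ' : Gr (Fin n)) (h' : Fin k → FreeGroup (Fin n)), (∀ i, FreeGroup.lift f (h' i) = g i) →
    Γ'.Good FreeGroup.of (Subgroup.closure (Set.range h')) k →
      Fintype.card Γ.E ≤ Fintype.card Γ'.E

theorem MMini.mini {f : Fin n → G} {g : Fin k → G} {Γ : Gr (Fin n)} {h : Fin k → FreeGroup (Fin n)}
    (hM : MMini f g Γ h) : Γ.Mini FreeGroup.of (Subgroup.closure (Set.range h)) k :=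
  ⟨hM.good, fun Γ' hΓ' => hM.le Γ' h hM.lift hΓ'⟩

/-- the same graph with other labels -/
def lab2 {α β : Type} (Γ : Gr α) (μ : Γ.E → β) : Gr β where
  V := Γ.V
  E := Γ.E
  src := Γ.src
  tgt := Γ.tgt
  lab := μ
  base := Γ.base

/-- the value of a dart for the labels `ν` -/
def dv {α : Type} {M : Type} [Group M] (Γ : Gr α) (ν : Γ.E → M) (d : Γ.D) : M :=
  cond d.2 (ν d.1) (ν d.1)⁻¹

/-- the old label and the new label -/
def pr {M : Type} (Γ : Gr (Fin n)) (ν : Γ.E → M) (e : Γ.E) : FreeGroup (Fin n) × M :=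
  (FreeGroup.of (Γ.lab e), ν e)

/-- the value of the way around the run: back to the start of the path, `v` backwards, back to the
end of the run -/
def rnd (Γ : Gr (Fin n)) (p : ℕ → Γ.D) (m a b : ℕ) (v : List (Letter n)) : FreeGroup (Fin n) :=
  (wv FreeGroup.of (Γ.seg p 0 a))⁻¹ * (wv FreeGroup.of v)⁻¹ * (wv FreeGroup.of (Γ.seg p b m))⁻¹

open Classical in
/-- the new labels: `1` on the run `a, …, b-1`, except for the last step which gets the value of the
way around -/
noncomputable def nu (Γ : Gr (Fin n)) (p : ℕ → Γ.D) (m a b : ℕ) (v : List (Letter n)) (e : Γ.E) :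
    FreeGroup (Fin n) :=
  if e = (p (b - 1)).1 then cond (p (b - 1)).2 (rnd Γ p m a b v) (rnd Γ p m a b v)⁻¹
  else if e ∈ rE Γ p a b then 1 else FreeGroup.of (Γ.lab e)

end Pool.Agent.Helper32.OR2
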