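import Pool.Agent.Helper32.OR2.NiDefs

/-!
Generating pairs of the free group of rank two (project OR2, MP_d4e3d0_lc).
-/

namespace Pool.Agent.Helper32.OR2

open Pool.Agent.Helper22.OR

/-- If `l ++ m` and `m ++ r` are reduced and `m ≠ []` then `l ++ m ++ r` is reduced. -/
theorem reduced_glue {N : ℕ} {l m r : List (Fin N × Bool)} (h1 : FreeGroup.IsReduced (l ++ m))
    (h2 : FreeGroup.IsReduced (m ++ r)) (hm : m ≠ []) : FreeGroup.IsReduced (l ++ m ++ r) := by
  unfold FreeGroup.IsReduced at *
  rw [List.isChain_append] at h2 ⊢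
  refine ⟨h1, h2.2.1, ?_⟩
  rw [List.getLast?_append_of_ne_nil _ hm]
  exact h2.2.2

private theorem Ni1_left {N : ℕ} {l r : List (Fin N × Bool)} (h : FreeGroup.IsReduced (l ++ r)) :
    FreeGroup.IsReduced l := by
  unfold FreeGroup.IsReduced at *
  exact (List.isChain_append.1 h).1

private theorem Ni1_right {N : ℕ} {l r : List (Fin N × Bool)} (h : FreeGroup.IsReduced (l ++ r)) :
    FreeGroup.IsReduced r := by
  unfold FreeGroup.IsReduced at *
  exact (List.isChain_append.1 h).2.1

/-- Induction on `l` from the right: the reduced word of the product ends with the middle and the end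
of the last factor, and the part before it has at least `l.length` letters. In the step
`z = δ ++ m c ++ β c` (word) is multiplied by `y d`; the word of `y c * y d` is
`α c ++ m c ++ γ ++ m d ++ β d`, so in the group `β c * y d = γ * m d * β d`, and
`δ ++ m c ++ γ ++ m d ++ β d` is reduced by `reduced_glue` (its two parts are parts of reduced
words). -/
theorem mid_word {u v : FreeGroup (Fin 2)} {α m β : Letter 2 → List (Letter 2)}
    (hm : ∀ c, m c ≠ []) (h1 : ∀ c, (lv ![u, v] c).toWord = α c ++ m c ++ β c)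
    (h2 : ∀ c d, d ≠ linv c → ∃ γ, (lv ![u, v] c * lv ![u, v] d).toWord =
      α c ++ m c ++ γ ++ m d ++ β d) (l : List (Letter 2)) (c : Letter 2)
    (hl : FreeGroup.IsReduced (l ++ [c])) :
    ∃ δ, (wv ![u, v] (l ++ [c])).toWord = δ ++ m c ++ β c ∧ l.length ≤ δ.length := by
  induction l using List.reverseRecOn generalizing c with
  | nil =>
    refine ⟨α c, ?_, by simp⟩
    have h : wv ![u, v] ([] ++ [c]) = lv ![u, v] c := by simp [wv]
    rw [h, h1]
  | append_singleton l d ih =>
    obtain ⟨δ, hδ, hlen⟩ := ih d (Ni1_left hl)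
    have hcd : c ≠ linv d := by
      rintro rfl
      have h3 : FreeGroup.IsReduced [d, linv d] := by
        have h4 : l ++ [d] ++ [linv d] = l ++ [d, linv d] := by simp
        rw [h4] at hl
        exact Ni1_right hl
      unfold FreeGroup.IsReduced at h3
      rw [List.isChain_pair] at h3
      have h5 := h3 rfl
      simp [linv] at h5
    obtain ⟨γ, hγ⟩ := h2 d c hcd
    -- the product
    have hw : wv ![u, v] (l ++ [d] ++ [c]) = wv ![u, v] (l ++ [d]) * lv ![u, v] c := by
      simp [wv, mul_assoc]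
    have e1 : wv ![u, v] (l ++ [d]) = FreeGroup.mk δ * FreeGroup.mk (m d) * FreeGroup.mk (β d) := by
      rw [FreeGroup.mul_mk, FreeGroup.mul_mk, ← hδ, FreeGroup.mk_toWord]
    have e2 : lv ![u, v] d = FreeGroup.mk (α d) * FreeGroup.mk (m d) * FreeGroup.mk (β d) := by
      rw [FreeGroup.mul_mk, FreeGroup.mul_mk, ← h1, FreeGroup.mk_toWord]
    have e3 : lv ![u, v] d * lv ![u, v] c = FreeGroup.mk (α d) * FreeGroup.mk (m d) *
        FreeGroup.mk (γ ++ m c ++ β c) := by
      rw [FreeGroup.mul_mk, FreeGroup.mul_mk]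
      have h6 : α d ++ m d ++ (γ ++ m c ++ β c) = α d ++ m d ++ γ ++ m c ++ β c := by
        simp [List.append_assoc]
      rw [h6, ← hγ, FreeGroup.mk_toWord]
    have e4 : FreeGroup.mk (β d) * lv ![u, v] c = FreeGroup.mk (γ ++ m c ++ β c) := by
      rw [e2, mul_assoc (FreeGroup.mk (α d) * FreeGroup.mk (m d))] at e3
      exact mul_left_cancel e3
    have e5 : wv ![u, v] (l ++ [d] ++ [c]) = FreeGroup.mk (δ ++ m d ++ (γ ++ m c ++ β c)) := by
      rw [hw, e1, mul_assoc, e4, FreeGroup.mul_mk, FreeGroup.mul_mk]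
    have r1 : FreeGroup.IsReduced (δ ++ m d) := by
      have h7 : FreeGroup.IsReduced (δ ++ m d ++ β d) := hδ ▸ FreeGroup.isReduced_toWord
      exact Ni1_left h7
    have r2 : FreeGroup.IsReduced (m d ++ (γ ++ m c ++ β c)) := by
      have h7 : FreeGroup.IsReduced (α d ++ m d ++ γ ++ m c ++ β c) :=
        hγ ▸ FreeGroup.isReduced_toWord
      have h8 : α d ++ m d ++ γ ++ m c ++ β c = α d ++ (m d ++ (γ ++ m c ++ β c)) := by
        simp [List.append_assoc]
      rw [h8] at h7
      exact Ni1_right h7
    refine ⟨δ ++ m d ++ γ, ?_, ?_⟩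
    · rw [e5, FreeGroup.toWord_mk, (reduced_glue r1 r2 (hm d)).reduce_eq]
      simp [List.append_assoc]
    · have h9 : 1 ≤ (m d).length := List.length_pos_iff.2 (hm d)
      simp only [List.length_append, List.length_cons, List.length_nil]
      omega

end Pool.Agent.Helper32.OR2
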