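import Pool.Agent.Helper32.OR2.NiDefs

/-!
Generating pairs of the free group of rank two: least counterexamples (project OR2, MP_d4e3d0_lc).
-/

namespace Pool.Agent.Helper32.OR2

open Pool.Agent.Helper22.OR

variable {S : FreeGroup (Fin 2) → FreeGroup (Fin 2) → Prop}

private theorem Ni3_le {u v u' v' : FreeGroup (Fin 2)} (h : Subgroup.closure {u, v} = ⊤)
    (hu : u ∈ Subgroup.closure {u', v'}) (hv : v ∈ Subgroup.closure {u', v'}) :
    Subgroup.closure {u', v'} = ⊤ := by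
  refine top_le_iff.1 ?_
  rw [← h, Subgroup.closure_le]
  intro x hx
  rcases hx with rfl | hx
  · exact hu
  · rw [Set.mem_singleton_iff.1 hx]
    exact hv

/-- The moves preserve generating pairs. -/
theorem gen_moves {u v : FreeGroup (Fin 2)} (h : Subgroup.closure {u, v} = ⊤) :
    Subgroup.closure {u⁻¹, v} = ⊤ ∧ Subgroup.closure {v, u} = ⊤ ∧
    Subgroup.closure {u * v, v} = ⊤ ∧ Subgroup.closure {u * v⁻¹, v} = ⊤ ∧
    ∀ g : FreeGroup (Fin 2), Subgroup.closure {g * u * g⁻¹, g * v * g⁻¹} = ⊤ := by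
  have hu : ∀ a b : FreeGroup (Fin 2), a ∈ Subgroup.closure {a, b} := fun a b =>
    Subgroup.subset_closure (Set.mem_insert _ _)
  have hv : ∀ a b : FreeGroup (Fin 2), b ∈ Subgroup.closure {a, b} := fun a b =>
    Subgroup.subset_closure (Set.mem_insert_of_mem _ (Set.mem_singleton _))
  refine ⟨?_, ?_, ?_, ?_, ?_⟩
  · refine Ni3_le h ?_ (hv _ _)
    have h1 := Subgroup.inv_mem _ (hu u⁻¹ v)
    rwa [inv_inv] at h1
  · exact Ni3_le h (hv _ _) (hu _ _)
  · refine Ni3_le h ?_ (hv _ _)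
    have h1 := Subgroup.mul_mem _ (hu (u * v) v) (Subgroup.inv_mem _ (hv (u * v) v))
    rwa [mul_inv_cancel_right] at h1
  · refine Ni3_le h ?_ (hv _ _)
    have h1 := Subgroup.mul_mem _ (hu (u * v⁻¹) v) (hv (u * v⁻¹) v)
    rwa [inv_mul_cancel_right] at h1
  · intro g
    have h1 := MonoidHom.map_closure (MulAut.conj g).toMonoidHom {u, v}
    rw [h, Set.image_pair, Subgroup.map_top_of_surjective _ (MulAut.conj g).surjective] at h1
    exact h1.symm

/-- The inverse moves also preserve the property. -/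
theorem Closed.iff_moves (hS : Closed S) (u v : FreeGroup (Fin 2)) :
    (S u⁻¹ v ↔ S u v) ∧ (S u v⁻¹ ↔ S u v) ∧ (S v u ↔ S u v) ∧ (S (u * v) v ↔ S u v) ∧
    (S (u * v⁻¹) v ↔ S u v) ∧ ∀ g, S (g * u * g⁻¹) (g * v * g⁻¹) ↔ S u v := by
  have i1 : ∀ a b, S a b → S a b⁻¹ := fun a b h =>
    hS.swap _ _ (hS.inv _ _ (hS.swap _ _ h))
  have i2 : ∀ a b, S a b → S (a * b⁻¹) b := by
    intro a b h
    have h1 := i1 _ _ (hS.mul _ _ (i1 _ _ h))
    rwa [inv_inv] at h1
  refine ⟨⟨fun h => ?_, hS.inv u v⟩, ⟨fun h => ?_, i1 u v⟩, ⟨hS.swap v u, hS.swap u v⟩,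
    ⟨fun h => ?_, hS.mul u v⟩, ⟨fun h => ?_, i2 u v⟩, fun g => ⟨fun h => ?_, hS.conj g u v⟩⟩
  · have h1 := hS.inv _ _ h
    rwa [inv_inv] at h1
  · have h1 := i1 _ _ h
    rwa [inv_inv] at h1
  · have h1 := i2 _ _ h
    rwa [mul_inv_cancel_right] at h1
  · have h1 := hS.mul _ _ h
    rwa [inv_mul_cancel_right] at h1
  · have h1 := hS.conj g⁻¹ _ _ h
    have e : ∀ x : FreeGroup (Fin 2), g⁻¹ * (g * x * g⁻¹) * g⁻¹⁻¹ = x := fun x => by group
    rwa [e, e] at h1

/-- Least counterexamples after inversion, swap, or a conjugation that does not increase the total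
length. -/
theorem Least.moves (hS : Closed S) {u v : FreeGroup (Fin 2)} (h : Least S u v) :
    Least S u⁻¹ v ∧ Least S u v⁻¹ ∧ Least S v u ∧
    ∀ g : FreeGroup (Fin 2), (g * u * g⁻¹).norm + (g * v * g⁻¹).norm ≤ u.norm + v.norm →
      Least S (g * u * g⁻¹) (g * v * g⁻¹) := by
  have hi := hS.iff_moves u v
  have hg := gen_moves h.gen
  refine ⟨⟨hg.1, fun h1 => h.no (hi.1.1 h1), fun u' v' h1 h2 => ?_⟩,
    ⟨?_, fun h1 => h.no (hi.2.1.1 h1), fun u' v' h1 h2 => ?_⟩,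
    ⟨hg.2.1, fun h1 => h.no (hi.2.2.1.1 h1), fun u' v' h1 h2 => ?_⟩, fun g hn =>
    ⟨hg.2.2.2.2 g, fun h1 => h.no ((hi.2.2.2.2.2 g).1 h1), fun u' v' h1 h2 => ?_⟩⟩
  · rw [FreeGroup.norm_inv_eq]
    exact h.le u' v' h1 h2
  · exact (gen_moves (gen_moves hg.2.1).1).2.1
  · rw [FreeGroup.norm_inv_eq]
    exact h.le u' v' h1 h2
  · rw [add_comm]
    exact h.le u' v' h1 h2
  · exact hn.trans (h.le u' v' h1 h2)

private theorem Ni3_bounds (hS : Closed S) {u v : FreeGroup (Fin 2)} (h : Least S u v) :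
    u.norm ≤ (u * v).norm ∧ v.norm ≤ (u * v).norm := by
  constructor
  · have h1 := h.le _ _ (gen_moves h.gen).2.2.1
      (fun h1 => h.no ((hS.iff_moves u v).2.2.2.1.1 h1))
    omega
  · have h2 : Least S v⁻¹ u⁻¹ := (((h.moves hS).1.moves hS).2.1.moves hS).2.2.1
    have h1 := h2.le _ _ (gen_moves h2.gen).2.2.1
      (fun h1 => h2.no ((hS.iff_moves v⁻¹ u⁻¹).2.2.2.1.1 h1))
    rw [← mul_inv_rev, FreeGroup.norm_inv_eq, FreeGroup.norm_inv_eq, FreeGroup.norm_inv_eq] at h1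
    omega

/-- A conjugation does not decrease the total length, and a product is at least as long as both
factors. -/
theorem Least.bounds (hS : Closed S) {u v : FreeGroup (Fin 2)} (h : Least S u v) :
    (∀ g : FreeGroup (Fin 2), u.norm + v.norm ≤ (g * u * g⁻¹).norm + (g * v * g⁻¹).norm) ∧
    u.norm ≤ (u * v).norm ∧ v.norm ≤ (u * v).norm ∧
    u.norm ≤ (u⁻¹ * v).norm ∧ v.norm ≤ (u⁻¹ * v).norm := by
  have b := Ni3_bounds hS h
  have b' := Ni3_bounds hS (h.moves hS).1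
  rw [FreeGroup.norm_inv_eq] at b'
  refine ⟨fun g => ?_, b.1, b.2, b'.1, b'.2⟩
  exact h.le _ _ ((gen_moves h.gen).2.2.2.2 g)
    (fun h1 => h.no (((hS.iff_moves u v).2.2.2.2.2 g).1 h1))

private theorem Ni3_one {v : FreeGroup (Fin 2)} (h : Subgroup.closure {1, v} = ⊤) : False := by
  have h1 : ∀ x : FreeGroup (Fin 2), ∃ k : ℤ, v ^ k = x := by
    intro x
    have h2 : x ∈ Subgroup.closure {1, v} := by
      rw [h]
      exact Subgroup.mem_top x
    have h3 : Subgroup.closure {1, v} ≤ Subgroup.zpowers v := by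
      rw [Subgroup.closure_le]
      intro y hy
      rcases hy with rfl | hy
      · exact Subgroup.one_mem _
      · rw [Set.mem_singleton_iff.1 hy]
        exact Subgroup.mem_zpowers v
    exact Subgroup.mem_zpowers_iff.1 (h3 h2)
  obtain ⟨a, ha⟩ := h1 (FreeGroup.of 0)
  obtain ⟨b, hb⟩ := h1 (FreeGroup.of 1)
  have h2 : FreeGroup.of (0 : Fin 2) * FreeGroup.of 1 = FreeGroup.of 1 * FreeGroup.of 0 := by
    rw [← ha, ← hb, ← zpow_add, ← zpow_add, add_comm]
  have h3 := congrArg (FreeGroup.lift (fun i : Fin 2 => if i = 0 then Equiv.swap (0 : Fin 3) 1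
    else Equiv.swap 1 2)) h2
  rw [map_mul, map_mul, FreeGroup.lift_apply_of, FreeGroup.lift_apply_of] at h3
  exact absurd h3 (by decide)

/-- `u`, `v` are not trivial: otherwise the free group of rank 2 would be generated by one element. -/
theorem gen_ne_one {u v : FreeGroup (Fin 2)} (h : Subgroup.closure {u, v} = ⊤) : u ≠ 1 ∧ v ≠ 1 := by
  constructor
  · intro h1
    rw [h1] at h
    exact Ni3_one h
  · intro h1
    rw [h1] at h
    exact Ni3_one (gen_moves h).2.1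

end Pool.Agent.Helper32.OR2
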