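import Pool.Agent.Helper32.OR2.NiDefs

/-!
Lengths of conjugates (project OR2, MP_d4e3d0_lc).
-/

namespace Pool.Agent.Helper32.OR2

open Pool.Agent.Helper22.OR

private theorem Ni4_word {L : List (Letter 2)} (h : FreeGroup.IsReduced L) :
    (FreeGroup.mk L).toWord = L := by
  rw [FreeGroup.toWord_mk, h.reduce_eq]

private theorem Ni4_norm {L : List (Letter 2)} (h : FreeGroup.IsReduced L) :
    (FreeGroup.mk L).norm = L.length := by
  unfold FreeGroup.norm
  rw [Ni4_word h]

private theorem Ni4_linv_linv (x : Letter 2) : linv (linv x) = x := by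
  obtain ⟨a, b⟩ := x
  simp [linv]

private theorem Ni4_linv_ne (x : Letter 2) : x ≠ linv x := by
  obtain ⟨a, b⟩ := x
  simp [linv]

private theorem Ni4_rel {a b : Letter 2} : (a.1 = b.1 → a.2 = b.2) ↔ a ≠ linv b := by
  obtain ⟨a, s⟩ := a
  obtain ⟨b, t⟩ := b
  simp only [linv, ne_eq, Prod.mk.injEq, not_and]
  refine imp_congr_right fun _ => ?_
  cases s <;> cases t <;> simp

private theorem Ni4_hd_inv (u : FreeGroup (Fin 2)) (x : Letter 2) :
    hd u⁻¹ = some x ↔ ∃ m, u.toWord = m ++ [linv x] := by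
  unfold hd
  rw [FreeGroup.toWord_inv]
  unfold FreeGroup.invRev
  rw [List.head?_reverse, List.getLast?_map, Option.map_eq_some_iff]
  constructor
  · rintro ⟨a, ha, hax⟩
    obtain ⟨m, hm⟩ := List.getLast?_eq_some_iff.1 ha
    refine ⟨m, ?_⟩
    rw [hm, ← hax]
    simp [linv]
  · rintro ⟨m, hm⟩
    refine ⟨linv x, ?_, ?_⟩
    · rw [hm]
      simp
    · simp [linv]

private theorem Ni4_hd (u : FreeGroup (Fin 2)) (x : Letter 2) :
    hd u = some x ↔ ∃ m, u.toWord = x :: m := by
  unfold hd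
  rw [List.head?_eq_some_iff]

private theorem Ni4_mk_inv (x : Letter 2) : (FreeGroup.mk [x])⁻¹ = FreeGroup.mk [linv x] := by
  rw [FreeGroup.inv_mk]
  simp [FreeGroup.invRev, linv]

private theorem Ni4_mk_mul (x : Letter 2) : FreeGroup.mk [linv x] * FreeGroup.mk [x] = 1 := by
  rw [← Ni4_mk_inv, inv_mul_cancel]

private theorem Ni4_cons (x : Letter 2) (L : List (Letter 2)) :
    FreeGroup.mk (x :: L) = FreeGroup.mk [x] * FreeGroup.mk L := by
  rw [FreeGroup.mul_mk, List.singleton_append]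

private theorem Ni4_end {u : FreeGroup (Fin 2)} {x : Letter 2} (h1 : hd u ≠ some x)
    {m : List (Letter 2)} (hm : u.toWord = m ++ [linv x]) :
    (FreeGroup.mk [x])⁻¹ * u * FreeGroup.mk [x] = FreeGroup.mk (linv x :: m) ∧
      FreeGroup.IsReduced (linv x :: m) := by
  have hr : FreeGroup.IsReduced (m ++ [linv x]) := hm ▸ FreeGroup.isReduced_toWord
  have hu : u = FreeGroup.mk m * FreeGroup.mk [linv x] := by
    rw [FreeGroup.mul_mk, ← hm, FreeGroup.mk_toWord]
  refine ⟨?_, ?_⟩
  · rw [Ni4_cons (linv x) m, hu, Ni4_mk_inv, mul_assoc, mul_assoc, Ni4_mk_mul, mul_one]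
  · have h2 : FreeGroup.IsReduced m := (List.isChain_append.1 hr).1
    cases m with
    | nil => exact FreeGroup.IsReduced.singleton
    | cons a l =>
      refine List.isChain_cons_cons.2 ⟨?_, h2⟩
      rw [Ni4_rel]
      intro h3
      apply h1
      rw [Ni4_hd]
      refine ⟨l ++ [linv x], ?_⟩
      have h4 : x = a := by
        have := congrArg linv h3
        rwa [Ni4_linv_linv, Ni4_linv_linv] at this
      rw [hm, h4]
      rfl

/-- Conjugation by the inverse of a letter `x`: the length decreases by 2 if both `u` and `u⁻¹` start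
with `x` (and then `u ≠ 1` is not a letter, `u = x ⋯ x⁻¹`). -/
theorem norm_conj_both {u : FreeGroup (Fin 2)} {x : Letter 2} (h1 : hd u = some x)
    (h2 : hd u⁻¹ = some x) :
    ((FreeGroup.mk [x])⁻¹ * u * (FreeGroup.mk [x])).norm + 2 = u.norm := by
  obtain ⟨m, hm⟩ := (Ni4_hd u x).1 h1
  obtain ⟨k, hk⟩ := (Ni4_hd_inv u x).1 h2
  have hr : FreeGroup.IsReduced (x :: m) := hm ▸ FreeGroup.isReduced_toWord
  have h3 : ∃ l, m = l ++ [linv x] := by
    cases k with
    | nil =>
      rw [hm] at hk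
      simp only [List.nil_append, List.cons.injEq] at hk
      exact absurd hk.1 (Ni4_linv_ne x)
    | cons a l =>
      rw [hm] at hk
      simp only [List.cons_append, List.cons.injEq] at hk
      exact ⟨l, hk.2⟩
  obtain ⟨l, rfl⟩ := h3
  have hl : FreeGroup.IsReduced l := by
    have h4 : FreeGroup.IsReduced (l ++ [linv x]) := List.IsChain.of_cons hr
    exact (List.isChain_append.1 h4).1
  have hu : u = FreeGroup.mk [x] * (FreeGroup.mk l * FreeGroup.mk [linv x]) := by
    rw [FreeGroup.mul_mk, FreeGroup.mul_mk, List.singleton_append, ← hm, FreeGroup.mk_toWord]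
  have h5 : (FreeGroup.mk [x])⁻¹ * u * FreeGroup.mk [x] = FreeGroup.mk l := by
    rw [hu, inv_mul_cancel_left, mul_assoc, Ni4_mk_mul, mul_one]
  rw [h5, Ni4_norm hl]
  unfold FreeGroup.norm
  rw [hm]
  simp

/-- The length stays the same if exactly one of `u`, `u⁻¹` starts with `x`. -/
theorem norm_conj_one {u : FreeGroup (Fin 2)} {x : Letter 2}
    (h : (hd u = some x ∧ hd u⁻¹ ≠ some x) ∨ (hd u ≠ some x ∧ hd u⁻¹ = some x)) :
    ((FreeGroup.mk [x])⁻¹ * u * (FreeGroup.mk [x])).norm = u.norm := by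
  rcases h with ⟨h1, h2⟩ | ⟨h1, h2⟩
  · obtain ⟨m, hm⟩ := (Ni4_hd u x).1 h1
    have hr : FreeGroup.IsReduced (x :: m) := hm ▸ FreeGroup.isReduced_toWord
    have hu : u = FreeGroup.mk [x] * FreeGroup.mk m := by
      rw [← Ni4_cons, ← hm, FreeGroup.mk_toWord]
    have h5 : (FreeGroup.mk [x])⁻¹ * u * FreeGroup.mk [x] = FreeGroup.mk (m ++ [x]) := by
      rw [hu, inv_mul_cancel_left, FreeGroup.mul_mk]
    have h6 : FreeGroup.IsReduced (m ++ [x]) := by
      refine List.isChain_append.2 ⟨List.IsChain.of_cons hr, FreeGroup.IsReduced.singleton, ?_⟩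
      intro a ha b hb
      simp only [List.head?_cons, Option.mem_def, Option.some.injEq] at hb
      subst hb
      rw [Ni4_rel]
      rintro rfl
      apply h2
      rw [Ni4_hd_inv]
      obtain ⟨l, rfl⟩ := List.getLast?_eq_some_iff.1 ha
      exact ⟨x :: l, hm⟩
    rw [h5, Ni4_norm h6]
    unfold FreeGroup.norm
    rw [hm]
    simp
  · obtain ⟨m, hm⟩ := (Ni4_hd_inv u x).1 h2
    obtain ⟨h3, h4⟩ := Ni4_end h1 hm
    rw [h3, Ni4_norm h4]
    unfold FreeGroup.norm
    rw [hm]
    simp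

/-- If `u` does not start with `x` but `u⁻¹` does (so `u` ends with `x⁻¹`), the word of the conjugate is
`x⁻¹` followed by the word of `u` without its last letter. -/
theorem toWord_conj_end {u : FreeGroup (Fin 2)} {x : Letter 2} (h1 : hd u ≠ some x)
    (h2 : hd u⁻¹ = some x) :
    ((FreeGroup.mk [x])⁻¹ * u * (FreeGroup.mk [x])).toWord = linv x :: u.toWord.dropLast := by
  obtain ⟨m, hm⟩ := (Ni4_hd_inv u x).1 h2
  obtain ⟨h3, h4⟩ := Ni4_end h1 hm
  rw [h3, Ni4_word h4, hm, List.dropLast_concat]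

end Pool.Agent.Helper32.OR2
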