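import Pool.Agent.Helper32.OR2.NiDefs

/-!
Middles: the case of an element which is not cyclically reduced (project OR2, MP_d4e3d0_lc).
-/

namespace Pool.Agent.Helper32.OR2

open Pool.Agent.Helper22.OR

private theorem Ni5_invRev_append (l l' : List (Letter 2)) :
    FreeGroup.invRev (l ++ l') = FreeGroup.invRev l' ++ FreeGroup.invRev l := by
  simp [FreeGroup.invRev]

private theorem Ni5_dec {x : FreeGroup (Fin 2)} (hx : x ≠ 1) : ∃ A M : List (Letter 2), M ≠ [] ∧
    FreeGroup.IsCyclicallyReduced M ∧ x.toWord = A ++ M ++ FreeGroup.invRev A := by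
  have h0 : FreeGroup.IsReduced x.toWord := FreeGroup.isReduced_toWord
  have h1 := FreeGroup.reduceCyclically.isCyclicallyReduced h0
  have h2 := FreeGroup.reduceCyclically.conj_conjugator_reduceCyclically x.toWord
  refine ⟨_, _, fun h => ?_, h1, h2.symm⟩
  rw [h, List.append_nil] at h2
  apply hx
  rw [← FreeGroup.mk_toWord (x := x), ← h2, ← FreeGroup.mul_mk, ← FreeGroup.inv_mk,
    mul_inv_cancel]

private theorem Ni5_inv {x : FreeGroup (Fin 2)} {A M : List (Letter 2)}
    (h : x.toWord = A ++ M ++ FreeGroup.invRev A) :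
    x⁻¹.toWord = A ++ FreeGroup.invRev M ++ FreeGroup.invRev A := by
  rw [FreeGroup.toWord_inv, h, Ni5_invRev_append, Ni5_invRev_append, FreeGroup.invRev_invRev,
    List.append_assoc]

private theorem Ni5_sq {x : FreeGroup (Fin 2)} {A M : List (Letter 2)}
    (hM : FreeGroup.IsCyclicallyReduced M) (h : x.toWord = A ++ M ++ FreeGroup.invRev A) :
    (x * x).toWord = A ++ (M ++ M) ++ FreeGroup.invRev A := by
  have h1 : FreeGroup.IsReduced (A ++ M ++ FreeGroup.invRev A) := by
    rw [← h]
    exact FreeGroup.isReduced_toWord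
  have h2 := FreeGroup.IsReduced.append_flatten_replicate_append hM h1 (n := 2) (by norm_num)
  have h3 : (List.replicate 2 M).flatten = M ++ M := by simp [List.replicate]
  rw [h3] at h2
  have h4 : x * x = FreeGroup.mk (A ++ (M ++ M) ++ FreeGroup.invRev A) := by
    have h5 : x = FreeGroup.mk A * FreeGroup.mk M * (FreeGroup.mk A)⁻¹ := by
      rw [FreeGroup.inv_mk, FreeGroup.mul_mk, FreeGroup.mul_mk, ← h, FreeGroup.mk_toWord]
    rw [← FreeGroup.mul_mk, ← FreeGroup.mul_mk, ← FreeGroup.mul_mk, ← FreeGroup.inv_mk, h5]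
    group
  rw [h4, FreeGroup.toWord_mk, h2.reduce_eq]

private theorem Ni5_hd_inv (x : FreeGroup (Fin 2)) : hd x⁻¹ = x.toWord.getLast?.map linv := by
  unfold hd
  rw [FreeGroup.toWord_inv]
  unfold FreeGroup.invRev
  rw [List.head?_reverse, List.getLast?_map]
  rfl

private theorem Ni5_mul {x y : FreeGroup (Fin 2)} (h : hd x⁻¹ ≠ hd y) :
    (x * y).toWord = x.toWord ++ y.toWord := by
  have h1 : FreeGroup.IsReduced (x.toWord ++ y.toWord) := by
    have hx : FreeGroup.IsReduced x.toWord := FreeGroup.isReduced_toWord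
    have hy : FreeGroup.IsReduced y.toWord := FreeGroup.isReduced_toWord
    unfold FreeGroup.IsReduced at *
    rw [List.isChain_append]
    refine ⟨hx, hy, fun a ha b hb hab => ?_⟩
    by_contra hne
    apply h
    rw [Ni5_hd_inv, Option.mem_def.1 ha]
    unfold hd
    rw [Option.mem_def.1 hb]
    change some (a.1, !a.2) = some b
    congr 1
    refine Prod.ext hab ?_
    change (!a.2) = b.2
    cases ha2 : a.2 <;> cases hb2 : b.2 <;> simp_all
  have h2 : x * y = FreeGroup.mk (x.toWord ++ y.toWord) := by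
    rw [← FreeGroup.mul_mk, FreeGroup.mk_toWord, FreeGroup.mk_toWord]
  rw [h2, FreeGroup.toWord_mk, h1.reduce_eq]

private theorem Ni5_linv (f : Fin 2 → FreeGroup (Fin 2)) (c : Letter 2) :
    lv f (linv c) = (lv f c)⁻¹ := by
  rcases c with ⟨i, b⟩
  cases b
  · simp [lv, linv]
  · simp [lv, linv]

/-- `u = d * u' * d⁻¹`, `v = c * v' * c⁻¹` with `u'`, `v'` nonempty and cyclically reduced (`c`, `d` may be
empty). If neither `u` nor `u⁻¹` has the same first letter as `v` or as `v⁻¹` then `Mid u v` holds with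
`α = d, c`, the middles `u'^±1`, `v'^±1`, `β = d⁻¹, c⁻¹`. (For `u * u` the product is `d u' u' d⁻¹`; for
`u * v` it is `d u' d⁻¹ c v' c⁻¹`, reduced because the last letter of `u` is inverse to the first
letter of `u⁻¹`, which differs from the first letter of `v`; etc.) In particular this covers the
case of four different first letters (`c = d = []`). Use
`FreeGroup.reduceCyclically.conj_conjugator_reduceCyclically` for the decomposition. -/
theorem mid_cross {u v : FreeGroup (Fin 2)} (hu : u ≠ 1) (hv : v ≠ 1) (h1 : hd u ≠ hd v)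
    (h2 : hd u ≠ hd v⁻¹) (h3 : hd u⁻¹ ≠ hd v) (h4 : hd u⁻¹ ≠ hd v⁻¹) : Mid u v := by
  have hne : ∀ i : Fin 2, ![u, v] i ≠ 1 := by
    intro i
    fin_cases i
    · exact hu
    · exact hv
  choose A M hM hC hw using fun i : Fin 2 => Ni5_dec (hne i)
  have hh : ∀ c d : Letter 2, c.1 ≠ d.1 → hd (lv ![u, v] c) ≠ hd (lv ![u, v] d) := by
    rintro ⟨i, b⟩ ⟨j, b'⟩ hij
    fin_cases i <;> fin_cases j <;> cases b <;> cases b' <;>
      first
        | exact absurd rfl hij
        | exact h1
        | exact h2
        | exact h3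
        | exact h4
        | exact h1.symm
        | exact h2.symm
        | exact h3.symm
        | exact h4.symm
  have hword : ∀ c : Letter 2, (lv ![u, v] c).toWord =
      A c.1 ++ cond c.2 (M c.1) (FreeGroup.invRev (M c.1)) ++ FreeGroup.invRev (A c.1) := by
    rintro ⟨i, b⟩
    cases b
    · exact Ni5_inv (hw i)
    · exact hw i
  refine ⟨fun c => A c.1, fun c => cond c.2 (M c.1) (FreeGroup.invRev (M c.1)),
    fun c => FreeGroup.invRev (A c.1), ?_, hword, ?_⟩
  · rintro ⟨i, b⟩ h
    cases b
    · apply hM i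
      have h5 := congrArg FreeGroup.invRev h
      simpa using h5
    · exact hM i h
  · intro c d hd'
    by_cases hcd : c.1 = d.1
    · have e : d = c := by
        rcases c with ⟨i, b⟩
        rcases d with ⟨j, b'⟩
        simp only at hcd
        subst hcd
        cases b <;> cases b' <;> simp_all [linv]
      subst e
      refine ⟨[], ?_⟩
      rcases d with ⟨i, b⟩
      cases b
      · have h5 := Ni5_inv (x := ![u, v] i * ![u, v] i) (Ni5_sq (hC i) (hw i))
        rw [Ni5_invRev_append] at h5
        have h6 : lv ![u, v] (i, false) * lv ![u, v] (i, false) =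
            (![u, v] i * ![u, v] i)⁻¹ := by
          simp [lv]
        rw [h6, h5]
        simp
      · have h5 := Ni5_sq (hC i) (hw i)
        have h6 : lv ![u, v] (i, true) * lv ![u, v] (i, true) = ![u, v] i * ![u, v] i := rfl
        rw [h6, h5]
        simp
    · refine ⟨FreeGroup.invRev (A c.1) ++ A d.1, ?_⟩
      have h5 : hd (lv ![u, v] c)⁻¹ ≠ hd (lv ![u, v] d) := by
        rw [← Ni5_linv]
        exact hh (linv c) d hcd
      rw [Ni5_mul h5, hword c, hword d]
      simp only [List.append_assoc]

end Pool.Agent.Helper32.OR2
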