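import Pool.Agent.Helper32.OR2.NiDefs

/-!
Middles: the case of a common initial part (project OR2, MP_d4e3d0_lc).
-/

namespace Pool.Agent.Helper32.OR2

open Pool.Agent.Helper22.OR

private theorem Ni6_left {N : ℕ} {l r : List (Fin N × Bool)} (h : FreeGroup.IsReduced (l ++ r)) :
    FreeGroup.IsReduced l := by
  unfold FreeGroup.IsReduced at *
  exact (List.isChain_append.1 h).1

private theorem Ni6_right {N : ℕ} {l r : List (Fin N × Bool)} (h : FreeGroup.IsReduced (l ++ r)) :
    FreeGroup.IsReduced r := by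
  unfold FreeGroup.IsReduced at *
  exact (List.isChain_append.1 h).2.1

private theorem Ni6_glue {N : ℕ} {p q : List (Fin N × Bool)} (hp : FreeGroup.IsReduced p)
    (hq : FreeGroup.IsReduced q) (h : (FreeGroup.invRev p).head? ≠ q.head?) :
    FreeGroup.IsReduced (p ++ q) := by
  unfold FreeGroup.IsReduced at *
  rw [List.isChain_append]
  refine ⟨hp, hq, ?_⟩
  intro x hx y hy h1
  by_contra h2
  apply h
  unfold FreeGroup.invRev
  rw [List.head?_reverse, List.getLast?_map]
  rw [Option.mem_def] at hx hy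
  rw [hx, hy]
  simp only [Option.map_some, Option.some.injEq]
  refine Prod.ext h1 ?_
  revert h2
  simp only
  cases x.2 <;> cases y.2 <;> simp

private theorem Ni6_app {N : ℕ} (p q : List (Fin N × Bool)) :
    FreeGroup.invRev (p ++ q) = FreeGroup.invRev q ++ FreeGroup.invRev p := by
  simp [FreeGroup.invRev]

private theorem Ni6_gen {g : Fin 2 → FreeGroup (Fin 2)} {w : Fin 2 → List (Letter 2)}
    {c : List (Letter 2)} (hg : ∀ i, (g i).toWord = c ++ w i) (hw : ∀ i, w i ≠ [])
    (h1 : ∀ i j, i ≠ j → (w i).head? ≠ (w j).head?) (h2 : ∀ i j, hd (g i)⁻¹ ≠ hd (g j))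
    (h3 : ∀ i j, i ≠ j → hd (g i)⁻¹ ≠ hd (g j)⁻¹) :
    ∃ α m β : Letter 2 → List (Letter 2), (∀ c, m c ≠ []) ∧
    (∀ c, (lv g c).toWord = α c ++ m c ++ β c) ∧
    ∀ c d, d ≠ linv c → ∃ γ, (lv g c * lv g d).toWord = α c ++ m c ++ γ ++ m d ++ β d := by
  have hr : ∀ i, FreeGroup.IsReduced (c ++ w i) := fun i => hg i ▸ FreeGroup.isReduced_toWord
  have hinv : ∀ i, ((g i)⁻¹).toWord = FreeGroup.invRev (w i) ++ FreeGroup.invRev c := by
    intro i
    rw [FreeGroup.toWord_inv, hg, Ni6_app]
  have hri : ∀ i, FreeGroup.IsReduced (FreeGroup.invRev (w i) ++ FreeGroup.invRev c) :=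
    fun i => hinv i ▸ FreeGroup.isReduced_toWord
  have hmk : ∀ i, g i = FreeGroup.mk (c ++ w i) := by
    intro i
    rw [← hg, FreeGroup.mk_toWord]
  have hmki : ∀ i, (g i)⁻¹ = FreeGroup.mk (FreeGroup.invRev (w i) ++ FreeGroup.invRev c) := by
    intro i
    rw [← hinv, FreeGroup.mk_toWord]
  -- the products
  have pTT : ∀ i j, (g i * g j).toWord = c ++ w i ++ (c ++ w j) := by
    intro i j
    rw [hmk i, hmk j, FreeGroup.mul_mk, FreeGroup.toWord_mk]
    refine (Ni6_glue (hr i) (hr j) ?_).reduce_eq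
    have h := h2 i j
    unfold hd at h
    rw [hinv, hg, ← Ni6_app] at h
    exact h
  have pTF : ∀ i j, i ≠ j → (g i * (g j)⁻¹).toWord =
      c ++ w i ++ (FreeGroup.invRev (w j) ++ FreeGroup.invRev c) := by
    intro i j hij
    rw [hmk i, hmki j, FreeGroup.mul_mk, FreeGroup.toWord_mk]
    refine (Ni6_glue (hr i) (hri j) ?_).reduce_eq
    have h := h3 i j hij
    unfold hd at h
    rw [hinv, hinv, ← Ni6_app] at h
    exact h
  have pFF : ∀ i j, ((g i)⁻¹ * (g j)⁻¹).toWord =
      FreeGroup.invRev (w i) ++ FreeGroup.invRev c ++ (FreeGroup.invRev (w j) ++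
        FreeGroup.invRev c) := by
    intro i j
    rw [← mul_inv_rev, FreeGroup.toWord_inv, pTT, Ni6_app, Ni6_app, Ni6_app]
  have pFT : ∀ i j, i ≠ j → ((g i)⁻¹ * g j).toWord = FreeGroup.invRev (w i) ++ w j := by
    intro i j hij
    have h : (g i)⁻¹ * g j = FreeGroup.mk (FreeGroup.invRev (w i) ++ w j) := by
      rw [hmk i, hmk j, ← FreeGroup.mul_mk, ← FreeGroup.mul_mk, ← FreeGroup.mul_mk,
        ← FreeGroup.inv_mk]
      group
    rw [h, FreeGroup.toWord_mk]
    refine (Ni6_glue (Ni6_left (hri i)) (Ni6_right (hr j)) ?_).reduce_eq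
    rw [FreeGroup.invRev_invRev]
    exact h1 i j hij
  refine ⟨fun a => cond a.2 c [], fun a => cond a.2 (w a.1) (FreeGroup.invRev (w a.1)),
    fun a => cond a.2 [] (FreeGroup.invRev c), ?_, ?_, ?_⟩
  · rintro ⟨i, b⟩
    cases b
    · simp only [cond_false]
      intro h
      have h5 := congrArg List.length h
      rw [FreeGroup.invRev_length, List.length_nil] at h5
      exact hw i (List.length_eq_zero_iff.1 h5)
    · exact hw i
  · rintro ⟨i, b⟩
    cases b
    · simp only [lv, cond_false, List.nil_append]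
      exact hinv i
    · simp only [lv, cond_true, List.append_nil]
      exact hg i
  · rintro ⟨i, b⟩ ⟨j, b'⟩ hne
    cases b <;> cases b'
    · refine ⟨FreeGroup.invRev c, ?_⟩
      simp only [lv, cond_false, List.nil_append]
      rw [pFF]
      simp only [List.append_assoc]
    · refine ⟨[], ?_⟩
      simp only [lv, cond_false, cond_true, List.nil_append, List.append_nil]
      refine pFT i j ?_
      rintro rfl
      exact hne rfl
    · refine ⟨[], ?_⟩
      simp only [lv, cond_false, cond_true, List.append_nil]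
      rw [pTF i j (by rintro rfl; exact hne rfl)]
      simp only [List.append_assoc]
    · refine ⟨c, ?_⟩
      simp only [lv, cond_true, List.append_nil]
      rw [pTT]
      simp only [List.append_assoc]

/-- `u = c ++ u'`, `v = c ++ v'` (words) with `c ≠ []`, `u'`, `v'` nonempty with different first letters;
`u⁻¹` does not start with the first letter of `u`, `v⁻¹` does not start with the first letter of `v`, and
`u⁻¹`, `v⁻¹` have different first letters. Then `Mid u v`: for `u`: `α = c`, `m = u'`, `β = []`; for `u⁻¹`: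
`α = []`, `m = invRev u'`, `β = invRev c`; the same for `v`. Products: `u u = c u' c u'` (`γ = c`),
`u v = c u' c v'`, `u v⁻¹ = c u' v'⁻¹ c⁻¹` (`γ = []`), `u⁻¹ v = u'⁻¹ v'` (`γ = []`),
`u⁻¹ u⁻¹ = u'⁻¹ c⁻¹ u'⁻¹ c⁻¹` (`γ = c⁻¹`), `u⁻¹ v⁻¹ = u'⁻¹ c⁻¹ v'⁻¹ c⁻¹`, and with `u`, `v`
exchanged. -/
theorem mid_theta {u v : FreeGroup (Fin 2)} {c u' v' : List (Letter 2)}
    (hu : u.toWord = c ++ u') (hv : v.toWord = c ++ v') (hc : c ≠ []) (hu' : u' ≠ []) (hv' : v' ≠ [])
    (h1 : u'.head? ≠ v'.head?) (h2 : hd u⁻¹ ≠ hd u) (h3 : hd v⁻¹ ≠ hd v) (h4 : hd u⁻¹ ≠ hd v⁻¹) :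
    Mid u v := by
  have e1 : hd u = c.head? := by
    unfold hd
    rw [hu, List.head?_append_of_ne_nil _ hc]
  have e2 : hd v = c.head? := by
    unfold hd
    rw [hv, List.head?_append_of_ne_nil _ hc]
  have h5 : hd u = hd v := e1.trans e2.symm
  refine Ni6_gen (g := ![u, v]) (w := ![u', v']) (c := c) ?_ ?_ ?_ ?_ ?_
  · intro i
    fin_cases i
    · exact hu
    · exact hv
  · intro i
    fin_cases i
    · exact hu'
    · exact hv'
  · intro i j hij
    fin_cases i <;> fin_cases j
    · exact absurd rfl hij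
    · exact h1
    · exact h1.symm
    · exact absurd rfl hij
  · intro i j
    fin_cases i <;> fin_cases j
    · exact h2
    · change hd u⁻¹ ≠ hd v
      rw [← h5]
      exact h2
    · change hd v⁻¹ ≠ hd u
      rw [h5]
      exact h3
    · exact h3
  · intro i j hij
    fin_cases i <;> fin_cases j
    · exact absurd rfl hij
    · exact h4
    · exact h4.symm
    · exact absurd rfl hij

end Pool.Agent.Helper32.OR2
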