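import Pool.Agent.Helper32.OR2.Ni3
import Pool.Agent.Helper32.OR2.Ni4
import Pool.Agent.Helper32.OR2.Ni5
import Pool.Agent.Helper32.OR2.Ni6

/-!
Least counterexamples have middles (project OR2, MP_d4e3d0_lc).
-/

namespace Pool.Agent.Helper32.OR2

open Pool.Agent.Helper22.OR

variable {S : FreeGroup (Fin 2) → FreeGroup (Fin 2) → Prop}

/-- a nontrivial element has a first letter -/
private theorem Ni7_hd_some {v : FreeGroup (Fin 2)} (hv : v ≠ 1) : ∃ x, hd v = some x := by
  have h1 : v.toWord ≠ [] := by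
    intro e
    exact hv (FreeGroup.toWord_eq_nil_iff.mp e)
  rcases hl : v.toWord with _ | ⟨x, l⟩
  · exact absurd hl h1
  · exact ⟨x, by rw [hd, hl]; rfl⟩

/-- the longest common initial part of two lists -/
private theorem Ni7_split : ∀ a b : List (Letter 2), ∃ c a' b', a = c ++ a' ∧ b = c ++ b' ∧
    (a'.head? ≠ b'.head? ∨ (a' = [] ∧ b' = []))
  | [], [] => ⟨[], [], [], rfl, rfl, Or.inr ⟨rfl, rfl⟩⟩
  | [], y :: b => ⟨[], [], y :: b, rfl, rfl, Or.inl (by simp)⟩
  | x :: a, [] => ⟨[], x :: a, [], rfl, rfl, Or.inl (by simp)⟩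
  | x :: a, y :: b => by
    by_cases hxy : x = y
    · subst hxy
      obtain ⟨c, a', b', h1, h2, h3⟩ := Ni7_split a b
      exact ⟨x :: c, a', b', by rw [h1, List.cons_append], by rw [h2, List.cons_append], h3⟩
    · exact ⟨[], x :: a, y :: b, rfl, rfl, Or.inl (by simpa using hxy)⟩

/-- In a least counterexample, if both `v` and `v⁻¹` start with `x` then neither `u` nor `u⁻¹` does:
conjugation by `x⁻¹` would make `v` shorter by 2 and not make `u` longer (`norm_conj_both`,
`norm_conj_one`, `Least.bounds`). -/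
theorem Least.head_ne (hS : Closed S) {u v : FreeGroup (Fin 2)} (h : Least S u v)
    (hv : hd v = hd v⁻¹) : hd u ≠ hd v ∧ hd u⁻¹ ≠ hd v := by
  obtain ⟨x, hx⟩ := Ni7_hd_some (gen_ne_one h.gen).2
  have hx' : hd v⁻¹ = some x := by rw [← hv, hx]
  have hb := (h.bounds hS).1 (FreeGroup.mk [x])⁻¹
  rw [inv_inv] at hb
  have h2 := norm_conj_both hx hx'
  rw [hx]
  constructor
  · intro h1
    by_cases h3 : hd u⁻¹ = some x
    · have h4 := norm_conj_both h1 h3
      omega
    · have h4 := norm_conj_one (Or.inl ⟨h1, h3⟩)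
      omega
  · intro h1
    by_cases h3 : hd u = some x
    · have h4 := norm_conj_both h3 h1
      omega
    · have h4 := norm_conj_one (Or.inr ⟨h3, h1⟩)
      omega

/-- If one of `u`, `v` is not cyclically reduced then `Mid u v`: by `Least.head_ne` (also for the swapped
pair) no first letter of `u^±1` equals a first letter of `v^±1`... if only `v` is not cyclically reduced,
`hd v = hd v⁻¹` differs from `hd u` and `hd u⁻¹`, which is all that `mid_cross` needs. -/
theorem Least.mid_of_noncyc (hS : Closed S) {u v : FreeGroup (Fin 2)} (h : Least S u v)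
    (hv : hd v = hd v⁻¹) : Mid u v := by
  obtain ⟨hu1, hv1⟩ := gen_ne_one h.gen
  obtain ⟨h1, h2⟩ := h.head_ne hS hv
  exact mid_cross hu1 hv1 h1 (fun e => h1 (e.trans hv.symm)) h2 (fun e => h2 (e.trans hv.symm))

/-- The common initial part `c` of `u` and `v` is at most half as long as the shorter one
(`|u⁻¹ v| = |u| + |v| - 2 |c|` and `Least.bounds`), so the rests are not empty. -/
theorem Least.common (hS : Closed S) {u v : FreeGroup (Fin 2)} (h : Least S u v)
    (huv : hd u = hd v) : ∃ c u' v' : List (Letter 2), u.toWord = c ++ u' ∧ v.toWord = c ++ v' ∧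
      c ≠ [] ∧ u' ≠ [] ∧ v' ≠ [] ∧ u'.head? ≠ v'.head? := by
  obtain ⟨x, hx⟩ := Ni7_hd_some (gen_ne_one h.gen).2
  obtain ⟨c, u', v', h1, h2, h3⟩ := Ni7_split u.toWord v.toWord
  have hc : c ≠ [] := by
    intro hc
    subst hc
    rcases h3 with h3 | h3
    · apply h3
      rw [List.nil_append] at h1 h2
      rw [← h1, ← h2]
      exact huv
    · rw [h3.2] at h2
      rw [hd, h2] at hx
      simp at hx
  have hb := h.bounds hS
  have hb1 := hb.2.2.2.1
  have hb2 := hb.2.2.2.2
  have hle : (u⁻¹ * v).norm ≤ u'.length + v'.length := by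
    have e1 : u = FreeGroup.mk c * FreeGroup.mk u' := by
      rw [FreeGroup.mul_mk, ← h1, FreeGroup.mk_toWord]
    have e2 : v = FreeGroup.mk c * FreeGroup.mk v' := by
      rw [FreeGroup.mul_mk, ← h2, FreeGroup.mk_toWord]
    have e3 : u⁻¹ * v = (FreeGroup.mk u')⁻¹ * FreeGroup.mk v' := by
      rw [e1, e2]
      group
    rw [e3]
    refine (FreeGroup.norm_mul_le _ _).trans ?_
    rw [FreeGroup.norm_inv_eq]
    exact add_le_add FreeGroup.norm_mk_le FreeGroup.norm_mk_le
  have n1 : u.norm = c.length + u'.length := by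
    rw [FreeGroup.norm, h1, List.length_append]
  have n2 : v.norm = c.length + v'.length := by
    rw [FreeGroup.norm, h2, List.length_append]
  have hc1 : 0 < c.length := List.length_pos_iff.mpr hc
  have hu' : u' ≠ [] := by
    intro e
    rw [e, List.length_nil] at hle n1
    omega
  have hv' : v' ≠ [] := by
    intro e
    rw [e, List.length_nil] at hle n2
    omega
  refine ⟨c, u', v', h1, h2, hc, hu', hv', ?_⟩
  rcases h3 with h3 | h3
  · exact h3
  · exact absurd h3.1 hu'

end Pool.Agent.Helper32.OR2
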