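import Pool.Agent.Helper22.OR.Hopf
import Pool.Agent.Helper22.OR.Gr

/-!
Generating pairs of the free group of rank two: definitions (project OR2, MP_d4e3d0_lc).
-/

namespace Pool.Agent.Helper32.OR2

open Pool.Agent.Helper22.OR

/-- The four elements `u`, `u⁻¹`, `v`, `v⁻¹` (the values of the letters for `![u, v]`) have words
`α ++ m ++ β` with nonempty middles `m` which survive in all products of two of them, except for
inverse pairs. -/
def Mid (u v : FreeGroup (Fin 2)) : Prop :=
  ∃ α m β : Letter 2 → List (Letter 2), (∀ c, m c ≠ []) ∧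
    (∀ c, (lv ![u, v] c).toWord = α c ++ m c ++ β c) ∧
    ∀ c d, d ≠ linv c → ∃ γ, (lv ![u, v] c * lv ![u, v] d).toWord =
      α c ++ m c ++ γ ++ m d ++ β d

/-- A property of pairs which is preserved by the elementary moves and conjugation and holds for the
standard pair. -/
structure Closed (S : FreeGroup (Fin 2) → FreeGroup (Fin 2) → Prop) : Prop where
  base : S (FreeGroup.of 0) (FreeGroup.of 1)
  inv : ∀ u v, S u v → S u⁻¹ v
  swap : ∀ u v, S u v → S v u
  mul : ∀ u v, S u v → S (u * v) v
  conj : ∀ g u v, S u v → S (g * u * g⁻¹) (g * v * g⁻¹)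

/-- `(u, v)` is a generating pair without the property, with the least possible total length. -/
structure Least (S : FreeGroup (Fin 2) → FreeGroup (Fin 2) → Prop) (u v : FreeGroup (Fin 2)) :
    Prop where
  gen : Subgroup.closure {u, v} = ⊤
  no : ¬ S u v
  le : ∀ u' v', Subgroup.closure {u', v'} = ⊤ → ¬ S u' v' → u.norm + v.norm ≤ u'.norm + v'.norm

/-- the first letter of the word, if any -/
def hd (u : FreeGroup (Fin 2)) : Option (Letter 2) := u.toWord.head?

end Pool.Agent.Helper32.OR2
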