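import Pool.Agent.Helper32.OR2.PlDefs

/-!
Short formulas (project OR2, MP_d4e3d0_lc).
-/

namespace Pool.Agent.Helper32.OR2

open FirstOrder Pool.Agent.Helper32.OR

theorem Short.mono {α : Type*} {k : ℕ} (φ : grpLang.BoundedFormula α k) {ℓ ℓ' : ℕ} (h : ℓ ≤ ℓ')
    (hφ : Short ℓ φ) : Short ℓ' φ := by
  induction φ with
  | falsum => trivial
  | equal t₁ t₂ => exact le_trans hφ h
  | rel R ts => trivial
  | imp φ ψ ih1 ih2 => exact ⟨ih1 hφ.1, ih2 hφ.2⟩
  | all φ ih => exact ih hφ

/-- Every formula is short for some `ℓ`. -/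
theorem exists_short {α : Type*} {k : ℕ} (φ : grpLang.BoundedFormula α k) : ∃ ℓ, Short ℓ φ := by
  induction φ with
  | falsum => exact ⟨0, trivial⟩
  | equal t₁ t₂ => exact ⟨tlen t₁ + tlen t₂, le_refl (tlen t₁ + tlen t₂)⟩
  | rel R ts => exact ⟨0, trivial⟩
  | imp φ ψ ih1 ih2 =>
    obtain ⟨a, ha⟩ := ih1
    obtain ⟨b, hb⟩ := ih2
    exact ⟨max a b, Short.mono φ (le_max_left a b) ha, Short.mono ψ (le_max_right a b) hb⟩
  | all φ ih =>
    obtain ⟨a, ha⟩ := ih
    exact ⟨a, ha⟩

/-- `exists_word` of `Pool/Agent/Helper32/OR/B1.lean` with a bound for the length. -/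
theorem exists_word_le {β : Type*} [DecidableEq β] (t : grpLang.Term β) (x y : β)
    (h : t.varFinset ⊆ {x, y}) : ∃ w : FreeGroup (Fin 2), w.norm ≤ tlen t ∧
      ∀ (G : Type) [Group G] (v : β → G), t.realize v = FreeGroup.lift ![v x, v y] w := by
  induction t with
  | var b =>
    have hb : b = x ∨ b = y := by
      have : b ∈ ({x, y} : Finset β) := h (by simp [Language.Term.varFinset])
      simpa using this
    rcases hb with rfl | rfl
    · refine ⟨FreeGroup.of 0, ?_, ?_⟩
      · rw [FreeGroup.norm_of]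
        exact le_refl 1
      · intro G _ v
        rw [FreeGroup.lift_apply_of, Language.Term.realize_var]
        rfl
    · refine ⟨FreeGroup.of 1, ?_, ?_⟩
      · rw [FreeGroup.norm_of]
        exact le_refl 1
      · intro G _ v
        rw [FreeGroup.lift_apply_of, Language.Term.realize_var]
        rfl
  | @func l f ts ih =>
    have hsub : ∀ i, (ts i).varFinset ⊆ {x, y} := by
      intro i z hz
      apply h
      simp only [Language.Term.varFinset, Finset.mem_biUnion, Finset.mem_univ, true_and]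
      exact ⟨i, hz⟩
    have hw := fun i => ih i (hsub i)
    change GrpFun l at f
    cases f with
    | one =>
      refine ⟨1, ?_, ?_⟩
      · rw [FreeGroup.norm_one]
        exact Nat.zero_le _
      · intro G _ v
        rw [map_one]
        rfl
    | inv =>
      obtain ⟨w, hn0, hw0⟩ := hw 0
      refine ⟨w⁻¹, ?_, ?_⟩
      · rw [FreeGroup.norm_inv_eq]
        refine hn0.trans (le_of_eq ?_)
        show tlen (ts 0) = ∑ i : Fin 1, tlen (ts i)
        rw [Fin.sum_univ_one]
      · intro G _ v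
        rw [map_inv, ← hw0 G v]
        rfl
    | mul =>
      obtain ⟨w, hn0, hw0⟩ := hw 0
      obtain ⟨w', hn1, hw1⟩ := hw 1
      refine ⟨w * w', ?_, ?_⟩
      · refine (FreeGroup.norm_mul_le w w').trans ((Nat.add_le_add hn0 hn1).trans (le_of_eq ?_))
        show tlen (ts 0) + tlen (ts 1) = ∑ i : Fin 2, tlen (ts i)
        rw [Fin.sum_univ_two]
      · intro G _ v
        rw [map_mul, ← hw0 G v, ← hw1 G v]
        rfl

end Pool.Agent.Helper32.OR2
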