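import Pool.Agent.Helper32.OR2.PlDefs
import Pool.Agent.Helper32.OR2.Bl4

/-!
The one-relator group with two generators has the properties `PairsL` (project OR2, MP_d4e3d0_lc).
-/

namespace Pool.Agent.Helper32.OR2

open Pool.Agent.Helper22.OR Pool.Agent.Helper32.OR

variable {G : Type} [Group G]

private theorem Pl4_gen {j : ℕ} {M : Subgroup G} (φ : FreeGroup (Fin j) ≃* ↥M) : Gen j M := by
  refine ⟨fun i => ((φ (FreeGroup.of i) : ↥M) : G), ?_⟩
  have h1 : (Set.range (fun i => ((φ (FreeGroup.of i) : ↥M) : G))) =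
      M.subtype.comp φ.toMonoidHom '' Set.range (FreeGroup.of (α := Fin j)) := by
    rw [← Set.range_comp]
    rfl
  rw [h1, ← MonoidHom.map_closure, FreeGroup.closure_range_of, ← MonoidHom.range_eq_map]
  ext x
  constructor
  · rintro ⟨w, rfl⟩
    exact (φ w).2
  · intro hx
    exact ⟨φ.symm ⟨x, hx⟩, by simp⟩

/-- a subgroup generated by one element is cyclic -/
private theorem Pl4_cyc {j : ℕ} (hj : j ≤ 1) {M : Subgroup G} (φ : FreeGroup (Fin j) ≃* ↥M) :
    ∃ z : G, M = Subgroup.zpowers z := by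
  obtain ⟨g, hg⟩ := (Pl4_gen φ).mono hj
  refine ⟨g 0, ?_⟩
  rw [← hg, Subgroup.zpowers_eq_closure]
  congr 1
  ext y
  constructor
  · rintro ⟨i, rfl⟩
    rw [Subsingleton.elim i 0]
    rfl
  · intro hy'
    exact ⟨0, hy'.symm⟩

omit [Group G] in
private theorem Pl4_range (x y : G) : Set.range ![x, y] = {x, y} := by
  ext z
  constructor
  · rintro ⟨i, rfl⟩
    fin_cases i
    · exact Or.inl rfl
    · exact Or.inr rfl
  · rintro (rfl | hz)
    · exact ⟨0, rfl⟩
    · exact ⟨1, hz.symm⟩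

/-- free generators of a free subgroup of rank 2 -/
private theorem Pl4_inj (x y : G)
    (φ : FreeGroup (Fin 2) ≃* ↥(Subgroup.closure (Set.range ![x, y]))) :
    Function.Injective (FreeGroup.lift ![x, y]) := by
  have hr : (FreeGroup.lift ![x, y]).range = Subgroup.closure (Set.range ![x, y]) :=
    FreeGroup.range_lift_eq_closure
  have hmem : ∀ z, FreeGroup.lift ![x, y] z ∈ Subgroup.closure (Set.range ![x, y]) := fun z => by
    rw [← hr]
    exact ⟨z, rfl⟩
  let ψ : FreeGroup (Fin 2) →* ↥(Subgroup.closure (Set.range ![x, y])) :=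
    (FreeGroup.lift ![x, y]).codRestrict _ hmem
  have hψ : Function.Surjective ψ := by
    rintro ⟨z, hz⟩
    rw [← hr] at hz
    obtain ⟨y', hy'⟩ := hz
    exact ⟨y', Subtype.ext hy'⟩
  have h1 := hopfian (φ.symm.toMonoidHom.comp ψ) (φ.symm.surjective.comp hψ)
  rw [injective_iff_map_eq_one]
  intro w hw
  apply h1
  rw [map_one]
  show φ.symm (ψ w) = 1
  have h2 : ψ w = 1 := Subtype.ext hw
  rw [h2, map_one]

/-- Two elements generate a cyclic group, or they are free generators, or they lift to a generating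
pair of the free group: `dichotomy` for `![x, y]`; in the first case the rank is at most 1 (cyclic)
or 2 (`hopfian`, as in `pairs_rel`, `Pool/Agent/Helper22/OR/Out.lean`). -/
theorem trichotomy {f : Fin 2 → G} {L e s b ℓ : ℕ} {RR : Set (List (Letter 2))}
    (hy : Hyp2 f L e s b ℓ RR) (x y : G) :
    (∃ z : G, Subgroup.closure {x, y} = Subgroup.zpowers z) ∨
    Function.Injective (FreeGroup.lift ![x, y]) ∨
    ∃ h : Fin 2 → FreeGroup (Fin 2), Subgroup.closure (Set.range h) = ⊤ ∧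
      FreeGroup.lift f (h 0) = x ∧ FreeGroup.lift f (h 1) = y := by
  rcases dichotomy hy ![x, y] with ⟨j, hj, ⟨φ⟩⟩ | ⟨h, h1, h2⟩
  · rcases Nat.lt_or_ge j 2 with hj1 | hj1
    · left
      rw [← Pl4_range x y]
      exact Pl4_cyc (by omega) φ
    · obtain rfl : j = 2 := by omega
      exact Or.inr (Or.inl (Pl4_inj x y φ))
  · exact Or.inr (Or.inr ⟨h, h1, h2 0, h2 1⟩)

/-- `trichotomy` and `no_short`. -/
theorem pairsL_rel {f : Fin 2 → G} {L e s b ℓ : ℕ} {RR : Set (List (Letter 2))}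
    (hy : Hyp2 f L e s b ℓ RR) (x y : G) (w : FreeGroup (Fin 2)) (hw : w ≠ 1) (hl : w.norm ≤ ℓ)
    (h : FreeGroup.lift ![x, y] w = 1) : x * y = y * x := by
  rcases trichotomy hy x y with ⟨z, hz⟩ | hi | ⟨g, h1, rfl, rfl⟩
  · have hx : x ∈ Subgroup.zpowers z := by
      rw [← hz]
      exact Subgroup.subset_closure (Or.inl rfl)
    have hy' : y ∈ Subgroup.zpowers z := by
      rw [← hz]
      exact Subgroup.subset_closure (Or.inr rfl)
    obtain ⟨p, rfl⟩ := Subgroup.mem_zpowers_iff.1 hx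
    obtain ⟨q, rfl⟩ := Subgroup.mem_zpowers_iff.1 hy'
    rw [← zpow_add, ← zpow_add, add_comm]
  · exact absurd (hi (h.trans (map_one _).symm)) hw
  · exact absurd h (no_short hy h1 hw hl)

/-- As `pairs_tf` (`free_rank` with `k = 1`, `n = 2`). -/
theorem pairsL_tf {f : Fin 2 → G} {L e s b : ℕ} {RR : Set (List (Letter 2))}
    (hy : Hyp f L e s b RR) (a : G) (k : ℤ) (h : a ^ k = 1) : k = 0 ∨ a = 1 := by
  have hG : Gen 1 (Subgroup.closure (Set.range fun _ : Fin 1 => a)) := ⟨fun _ => a, rfl⟩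
  obtain ⟨j, -, ⟨φ⟩⟩ := free_rank hy (k := 1) (by omega) hG
  have ha : a ∈ Subgroup.closure (Set.range fun _ : Fin 1 => a) :=
    Subgroup.subset_closure ⟨0, rfl⟩
  have h1 : (φ.symm ⟨a, ha⟩) ^ k = 1 := by
    rw [← map_zpow]
    have h2 : (⟨a, ha⟩ : ↥(Subgroup.closure (Set.range fun _ : Fin 1 => a))) ^ k = 1 :=
      Subtype.ext h
    rw [h2, map_one]
  rcases eq_or_ne k 0 with hk | hk
  · exact Or.inl hk
  · right
    have h3 : φ.symm ⟨a, ha⟩ = 1 := (IsMulTorsionFree.zpow_eq_one_iff_left hk).1 h1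
    have h4 : (⟨a, ha⟩ : ↥(Subgroup.closure (Set.range fun _ : Fin 1 => a))) = 1 :=
      φ.symm.injective (h3.trans (map_one _).symm)
    exact congrArg Subtype.val h4

end Pool.Agent.Helper32.OR2
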