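import Pool.Agent.Helper32.OR.Fin1

/-!
Groups in which two elements commute or satisfy no short relation (project OR2, MP_d4e3d0_lc).
-/

namespace Pool.Agent.Helper32.OR2

open FirstOrder Pool.Agent.Helper32.OR

/-- Two elements commute or satisfy no relation of length at most `ℓ`; the centralizer of an element
`≠ 1` is infinite cyclic; the group is not abelian. -/
structure PairsL (ℓ : ℕ) (G : Type) [Group G] : Prop where
  rel : ∀ (a b : G) (w : FreeGroup (Fin 2)), w ≠ 1 → w.norm ≤ ℓ → FreeGroup.lift ![a, b] w = 1 →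
    a * b = b * a
  tf : ∀ (a : G) (k : ℤ), a ^ k = 1 → k = 0 ∨ a = 1
  cen : ∀ a : G, a ≠ 1 → ∃ u : G, u ≠ 1 ∧ ∀ x : G, a * x = x * a ↔ x ∈ Subgroup.zpowers u
  noncomm : ∃ a b : G, a * b ≠ b * a

/-- the length of a term: the number of variables, counted with multiplicity -/
def tlen {β : Type*} : grpLang.Term β → ℕ
  | .var _ => 1
  | .func _ ts => ∑ i, tlen (ts i)

/-- In all equations of the formula the total length of the two terms is at most `ℓ`. -/
def Short (ℓ : ℕ) {α : Type*} : {k : ℕ} → grpLang.BoundedFormula α k → Prop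
  | _, .falsum => True
  | _, .equal t₁ t₂ => tlen t₁ + tlen t₂ ≤ ℓ
  | _, .rel _ _ => True
  | _, .imp φ ψ => Short ℓ φ ∧ Short ℓ ψ
  | _, .all φ => Short ℓ φ

end Pool.Agent.Helper32.OR2
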