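import Pool.Agent.Helper32.OR2.StdDefs

/-!
Standard pairs in the free group of rank two (project OR2, MP_d4e3d0_lc).
-/

namespace Pool.Agent.Helper32.OR2

open Pool.Agent.Helper22.OR

/-- The swapped pair is conjugate to a standard pair. Induction. `left`: from
`Std B A (q^g) (p^g)` get `Std B A (q^g) (q^g * p^g)` (`right`), and with `g' = g * q` one has
`(p * q)^g' = (q * p)^g`, `q^g' = q^g`, where `z^g = g * z * g⁻¹`. `right`: `left` gives
`Std B A (q^g * p^g) (p^g)`, and `g' = g * p⁻¹`. -/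
theorem Std.symm {A B p q : FreeGroup (Fin 2)} (h : Std A B p q) :
    ∃ g, Std B A (g * q * g⁻¹) (g * p * g⁻¹) := by
  induction h with
  | base => exact ⟨1, by simpa using Std.base⟩
  | @left p q _ ih =>
    obtain ⟨g, hg⟩ := ih
    refine ⟨g * q, ?_⟩
    have e1 : g * q * q * (g * q)⁻¹ = g * q * g⁻¹ := by group
    have e2 : g * q * (p * q) * (g * q)⁻¹ = (g * q * g⁻¹) * (g * p * g⁻¹) := by group
    rw [e1, e2]
    exact hg.right
  | @right p q _ ih =>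
    obtain ⟨g, hg⟩ := ih
    refine ⟨g * p⁻¹, ?_⟩
    have e1 : g * p⁻¹ * (p * q) * (g * p⁻¹)⁻¹ = (g * q * g⁻¹) * (g * p * g⁻¹) := by group
    have e2 : g * p⁻¹ * p * (g * p⁻¹)⁻¹ = g * p * g⁻¹ := by group
    rw [e1, e2]
    exact hg.left

/-- `sg` and inverses -/
theorem sg_inv (e : Bool) (z : FreeGroup (Fin 2)) : (sg e z)⁻¹ = sg (!e) z := by
  cases e <;> simp [sg]

private theorem Sd1_sg_conj (e : Bool) (g z : FreeGroup (Fin 2)) :
    sg e (g * z * g⁻¹) = g * sg e z * g⁻¹ := by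
  cases e
  · simp only [sg, cond_false]
    group
  · rfl

theorem sgn_base : Sgn (FreeGroup.of 0) (FreeGroup.of 1) := by
  refine ⟨(0, true), (1, true), 1, FreeGroup.of 0, FreeGroup.of 1, true, true, ?_, ?_, ?_, ?_⟩
  · simp
  · exact Std.base
  · simp [sg]
  · simp [sg]

theorem sgn_inv {u v : FreeGroup (Fin 2)} (h : Sgn u v) : Sgn u⁻¹ v ∧ Sgn u v⁻¹ := by
  obtain ⟨X, Y, g, p, q, e, e', hXY, hS, hu, hv⟩ := h
  constructor
  · refine ⟨X, Y, g, p, q, !e, e', hXY, hS, ?_, hv⟩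
    rw [hu, ← sg_inv]
    group
  · refine ⟨X, Y, g, p, q, e, !e', hXY, hS, hu, ?_⟩
    rw [hv, ← sg_inv]
    group

theorem sgn_swap {u v : FreeGroup (Fin 2)} (h : Sgn u v) : Sgn v u := by
  obtain ⟨X, Y, g, p, q, e, e', hXY, hS, hu, hv⟩ := h
  obtain ⟨g', hg'⟩ := hS.symm
  refine ⟨Y, X, g * g'⁻¹, g' * q * g'⁻¹, g' * p * g'⁻¹, e', e, hXY.symm, hg', ?_, ?_⟩
  · rw [hv, Sd1_sg_conj]
    group
  · rw [hu, Sd1_sg_conj]
    group

theorem sgn_conj (g : FreeGroup (Fin 2)) {u v : FreeGroup (Fin 2)} (h : Sgn u v) :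
    Sgn (g * u * g⁻¹) (g * v * g⁻¹) := by
  obtain ⟨X, Y, g', p, q, e, e', hXY, hS, hu, hv⟩ := h
  refine ⟨X, Y, g * g', p, q, e, e', hXY, hS, ?_, ?_⟩
  · rw [hu]
    group
  · rw [hv]
    group

end Pool.Agent.Helper32.OR2
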