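import Pool.Agent.Helper32.OR2.Sd1

/-!
Standard pairs in the free group of rank two (project OR2, MP_d4e3d0_lc).
-/

namespace Pool.Agent.Helper32.OR2

open Pool.Agent.Helper22.OR

/-- Cases on the last step of `Std`. `base`: `(A B⁻¹, B)`; with `B' = B⁻¹` (the letter `linv Y`) it is
`(A B', B'⁻¹)` and `Std A B' (A B') B'`. `left`, `(p, q) = (p' q, q)`: `p q⁻¹ = p'`. `right`,
`(p, q) = (p', p' q')`: `(p' q'⁻¹ p'⁻¹, p' q')` is the conjugate by `p'` of `(q'⁻¹, q' p')`, and
`Std.symm` gives `Std B A (q'^h) (p'^h)`, hence by `right` `Std B A (q'^h) ((q' p')^h)`. -/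
theorem sgn_div {X Y : Letter 2} (hXY : X.1 ≠ Y.1) {p q : FreeGroup (Fin 2)}
    (h : Std (FreeGroup.mk [X]) (FreeGroup.mk [Y]) p q) : Sgn (p * q⁻¹) q := by
  cases h with
  | base =>
    have h1 : (FreeGroup.mk [Y])⁻¹ = FreeGroup.mk [linv Y] := by
      rw [FreeGroup.inv_mk]
      rfl
    refine ⟨X, linv Y, 1, FreeGroup.mk [X] * FreeGroup.mk [linv Y], FreeGroup.mk [linv Y], true,
      false, hXY, Std.left Std.base, ?_, ?_⟩
    · simp only [sg, cond_true]
      rw [h1]
      group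
    · simp only [sg, cond_false]
      rw [← h1]
      group
  | @left p' q' h' =>
    refine ⟨X, Y, 1, p', q, true, true, hXY, h', ?_, ?_⟩
    · simp only [sg, cond_true]
      group
    · simp only [sg, cond_true]
      group
  | @right p' q' h' =>
    obtain ⟨g, hg⟩ := h'.symm
    refine ⟨Y, X, p * g⁻¹, g * q' * g⁻¹, g * q' * g⁻¹ * (g * p * g⁻¹), false, true, hXY.symm,
      hg.right, ?_, ?_⟩
    · simp only [sg, cond_false]
      group
    · simp only [sg, cond_true]
      group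

/-- `u = g p^±1 g⁻¹`, `v = g q^±1 g⁻¹`. Signs `(+,+)`: `left`. `(-,-)`: `u v = g (q p)⁻¹ g⁻¹` and
`(q p, q)` is the conjugate of `(p q, q)` by `q`. `(+,-)`: `sgn_div` and `sgn_inv`. `(-,+)`:
`u v = g (q⁻¹ p)⁻¹ g⁻¹` and `(q⁻¹ p, q)` is the conjugate of `(p q⁻¹, q)` by `q⁻¹`. -/
theorem sgn_mul {u v : FreeGroup (Fin 2)} (h : Sgn u v) : Sgn (u * v) v := by
  obtain ⟨X, Y, g, p, q, e, e', hXY, hS, rfl, rfl⟩ := h
  cases e <;> cases e'
  · refine ⟨X, Y, g * q, p * q, q, false, false, hXY, hS.left, ?_, ?_⟩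
    · simp only [sg, cond_false]
      group
    · simp only [sg, cond_false]
      group
  · have h1 := sgn_conj (g * q⁻¹) (sgn_inv (sgn_div hXY hS)).1
    have h2 : g * q⁻¹ * (p * q⁻¹)⁻¹ * (g * q⁻¹)⁻¹ =
        g * sg false p * g⁻¹ * (g * sg true q * g⁻¹) := by
      simp only [sg, cond_false, cond_true]
      group
    have h3 : g * q⁻¹ * q * (g * q⁻¹)⁻¹ = g * sg true q * g⁻¹ := by
      simp only [sg, cond_true]
      group
    rwa [h2, h3] at h1
  · have h1 := sgn_conj g (sgn_inv (sgn_div hXY hS)).2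
    have h2 : g * (p * q⁻¹) * g⁻¹ = g * sg true p * g⁻¹ * (g * sg false q * g⁻¹) := by
      simp only [sg, cond_false, cond_true]
      group
    rwa [h2] at h1
  · refine ⟨X, Y, g, p * q, q, true, true, hXY, hS.left, ?_, ?_⟩
    · simp only [sg, cond_true]
      group
    · simp only [sg, cond_true]

theorem sgn_closed : Closed Sgn :=
  ⟨sgn_base, fun _ _ h => (sgn_inv h).1, fun _ _ h => sgn_swap h, fun _ _ h => sgn_mul h,
    fun g _ _ h => sgn_conj g h⟩

end Pool.Agent.Helper32.OR2
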