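import Pool.Agent.Helper32.OR2.StdDefs

/-!
The words of standard pairs have one sign (project OR2, MP_d4e3d0_lc).
-/

namespace Pool.Agent.Helper32.OR2

open Pool.Agent.Helper22.OR

/-- A word all of whose letters are `X` or `Y`, `X.1 ≠ Y.1`, is reduced. -/
theorem one_reduced {X Y : Letter 2} (hXY : X.1 ≠ Y.1) {μ : List (Letter 2)}
    (h : ∀ a ∈ μ, a = X ∨ a = Y) : FreeGroup.IsReduced μ := by
  induction μ with
  | nil => exact FreeGroup.IsReduced.nil
  | cons a l ih =>
    cases l with
    | nil => exact FreeGroup.IsReduced.singleton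
    | cons b l =>
      refine List.isChain_cons_cons.2 ⟨fun hab => ?_, ih fun c hc => h c (List.mem_cons_of_mem _ hc)⟩
      rcases h a (by simp) with rfl | rfl <;> rcases h b (by simp) with rfl | rfl
      · rfl
      · exact absurd hab hXY
      · exact absurd hab.symm hXY
      · rfl

/-- The words of a standard pair over the letters `X`, `Y` contain only these letters (products are
concatenations by `one_reduced`). -/
theorem std_word {X Y : Letter 2} (hXY : X.1 ≠ Y.1) {p q : FreeGroup (Fin 2)}
    (h : Std (FreeGroup.mk [X]) (FreeGroup.mk [Y]) p q) :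
    (∀ a ∈ p.toWord, a = X ∨ a = Y) ∧ (∀ a ∈ q.toWord, a = X ∨ a = Y) := by
  induction h with
  | base =>
    constructor
    · intro a ha
      have h1 : (FreeGroup.mk [X]).toWord = [X] := by simp [FreeGroup.toWord_mk]
      rw [h1] at ha
      exact Or.inl (by simpa using ha)
    · intro a ha
      have h1 : (FreeGroup.mk [Y]).toWord = [Y] := by simp [FreeGroup.toWord_mk]
      rw [h1] at ha
      exact Or.inr (by simpa using ha)
  | @left p q _ ih =>
    refine ⟨?_, ih.2⟩
    have h1 : ∀ a ∈ p.toWord ++ q.toWord, a = X ∨ a = Y := by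
      intro a ha
      rcases List.mem_append.1 ha with ha | ha
      · exact ih.1 a ha
      · exact ih.2 a ha
    rw [FreeGroup.toWord_mul, (one_reduced hXY h1).reduce_eq]
    exact h1
  | @right p q _ ih =>
    refine ⟨ih.1, ?_⟩
    have h1 : ∀ a ∈ p.toWord ++ q.toWord, a = X ∨ a = Y := by
      intro a ha
      rcases List.mem_append.1 ha with ha | ha
      · exact ih.1 a ha
      · exact ih.2 a ha
    rw [FreeGroup.toWord_mul, (one_reduced hXY h1).reduce_eq]
    exact h1

private theorem Sd3_one {X Y : Letter 2} {p : FreeGroup (Fin 2)}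
    (h : ∀ a ∈ p.toWord, a = X ∨ a = Y) (e : Bool) : One X Y (sg e p).toWord := by
  cases e with
  | true => exact Or.inl h
  | false =>
    refine Or.inr fun a ha => ?_
    simp only [sg, cond_false] at ha
    rw [FreeGroup.toWord_inv] at ha
    simp only [FreeGroup.invRev, List.mem_reverse, List.mem_map] at ha
    obtain ⟨b, hb, rfl⟩ := ha
    rcases h b hb with rfl | rfl
    · exact Or.inl rfl
    · exact Or.inr rfl

/-- The conclusion about pairs with `Sgn`. -/
theorem sgn_one {u v : FreeGroup (Fin 2)} (h : Sgn u v) :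
    ∃ (X Y : Letter 2) (g P Q : FreeGroup (Fin 2)), X.1 ≠ Y.1 ∧ u = g * P * g⁻¹ ∧
      v = g * Q * g⁻¹ ∧ One X Y P.toWord ∧ One X Y Q.toWord := by
  obtain ⟨X, Y, g, p, q, e, e', hXY, hS, rfl, rfl⟩ := h
  have h1 := std_word hXY hS
  exact ⟨X, Y, g, sg e p, sg e' q, hXY, rfl, rfl, Sd3_one h1.1 e, Sd3_one h1.2 e'⟩

end Pool.Agent.Helper32.OR2
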