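import Pool.Agent.Helper32.OR2.NiDefs

/-!
Standard pairs in the free group of rank two (project OR2, MP_d4e3d0_lc).
-/

namespace Pool.Agent.Helper32.OR2

open Pool.Agent.Helper22.OR

/-- Standard pairs: obtained from `(A, B)` by multiplication of one element by the other one. -/
inductive Std (A B : FreeGroup (Fin 2)) : FreeGroup (Fin 2) → FreeGroup (Fin 2) → Prop
  | base : Std A B A B
  | left {p q : FreeGroup (Fin 2)} : Std A B p q → Std A B (p * q) q
  | right {p q : FreeGroup (Fin 2)} : Std A B p q → Std A B p (p * q)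

/-- `z` or its inverse -/
def sg (e : Bool) (z : FreeGroup (Fin 2)) : FreeGroup (Fin 2) := cond e z z⁻¹

/-- `(u, v)` is conjugate to `(p^±1, q^±1)` for a standard pair `(p, q)` over two letters with
different generators. -/
def Sgn (u v : FreeGroup (Fin 2)) : Prop :=
  ∃ (X Y : Letter 2) (g p q : FreeGroup (Fin 2)) (e e' : Bool), X.1 ≠ Y.1 ∧
    Std (FreeGroup.mk [X]) (FreeGroup.mk [Y]) p q ∧ u = g * sg e p * g⁻¹ ∧ v = g * sg e' q * g⁻¹

/-- all letters of the word are `X` or `Y`, or all are `X⁻¹` or `Y⁻¹` -/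
def One (X Y : Letter 2) (μ : List (Letter 2)) : Prop :=
  (∀ a ∈ μ, a = X ∨ a = Y) ∨ (∀ a ∈ μ, a = linv X ∨ a = linv Y)

/-- the word is a concatenation of at most `k` words all of whose letters have the same sign -/
def Blk (X Y : Letter 2) (k : ℕ) (l : List (Letter 2)) : Prop :=
  ∃ L : List (List (Letter 2)), l = L.flatten ∧ L.length ≤ k ∧ ∀ μ ∈ L, One X Y μ

end Pool.Agent.Helper32.OR2
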